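import Pool.Agent.Work.MP_8f87b2_h11.L1w
import Pool.Agent.Work.MP_8f87b2_h26.L1h
import Pool.Agent.Work.MP_8f87b2_h40.ShF

/-!
# The orientation rule: `Sq (adj F 0) ≤ Sq (adj F (-1))` says that the centre of mass is at least `n`
-/

set_option autoImplicit false

namespace Pool.OddHC

open Finset Equiv BinaryTree Pool.Agent.Work.MP_8f87b2_co

namespace Ft

open L1 J

variable {k n : ℕ}

theorem sum_val (n : ℕ) : ∑ z : ZMod (2 * n + 1), z.val = n * (2 * n + 1) := by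
  have h1 : ∑ z : ZMod (2 * n + 1), z.val = ∑ i ∈ Finset.range (2 * n + 1), i := by
    rw [Finset.sum_range]
    rfl
  rw [h1, Finset.sum_range_id]
  have : (2 * n + 1) * (2 * n + 1 - 1) = 2 * (n * (2 * n + 1)) := by
    rw [Nat.add_sub_cancel]
    ring
  rw [this]
  omega

theorem sum_mo (F : ZMod (2 * n + 1) → ℕ) : ∑ x, mo F x = n * (2 * n + 1) * ∑ z, F z := by
  unfold mo
  rw [Finset.sum_comm, Finset.mul_sum]
  apply Finset.sum_congr rfl
  intro z _
  rw [← Finset.sum_mul]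
  congr 1
  rw [← sum_val n]
  exact Equiv.sum_comp (Equiv.subLeft z) (fun v : ZMod (2 * n + 1) => v.val)

theorem Sq_diff (F : ZMod (2 * n + 1) → ℕ) :
    (Sq (adj F 0) : ℤ) - Sq (adj F (-1)) = 2 * (2 * n + 1) * (n * ∑ z, (F z : ℤ) - mo F 0) := by
  have a1 := Sq_adj F 0
  have a2 := Sq_adj F (-1)
  have c1 := Cy_succ F (-1)
  rw [neg_add_cancel] at c1
  have s1 : (∑ x, (mo F x : ℤ)) = n * (2 * n + 1) * ∑ z, (F z : ℤ) := by
    have := congrArg (Nat.cast : ℕ → ℤ) (sum_mo F)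
    push_cast at this
    exact this
  rw [s1] at c1
  rw [a1, a2, c1]
  push_cast
  ring

theorem mo_rf (F : ZMod (2 * n + 1) → ℕ) : mo (rf F) 0 + mo F 0 = 2 * n * ∑ z, F z := by
  unfold mo
  rw [← Equiv.sum_comp (Equiv.subLeft (-1)) (fun z => (z - 0).val * rf F z), ← Finset.sum_add_distrib,
    Finset.mul_sum]
  apply Finset.sum_congr rfl
  intro z _
  rw [Equiv.subLeft_apply]
  have e1 : rf F (-1 - z) = F z := by
    unfold rf
    congr 1
    ring
  have e2 : (-1 - z - 0 : ZMod (2 * n + 1)).val + (z - 0).val = 2 * n := by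
    rw [sub_zero, sub_zero]
    have hz := ZMod.val_lt z
    have e3 : (-1 - z : ZMod (2 * n + 1)) = ((2 * n - z.val : ℕ) : ZMod (2 * n + 1)) := by
      rw [Nat.cast_sub (by omega), ZMod.natCast_zmod_val]
      have h0 : ((2 * n + 1 : ℕ) : ZMod (2 * n + 1)) = 0 := ZMod.natCast_self _
      push_cast at h0 ⊢
      linear_combination -h0
    rw [e3, ZMod.val_natCast_of_lt (by omega)]
    omega
  rw [e1, ← Nat.add_mul]
  exact congrArg (· * F z) e2

/-- a bead in the second half -/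
theorem cm_drop (hn : 1 ≤ n) (F : ZMod (2 * n + 1) → ℕ) (h1 : 1 ≤ ∑ z, F z)
    (hm : n * ∑ z, F z ≤ mo F 0) : 1 ≤ ((lf F).drop n).sum := by
  by_contra h2
  have h3 : ((lf F).drop n).sum = 0 := by omega
  rw [List.sum_eq_zero_iff] at h3
  have h4 : ∀ z : ZMod (2 * n + 1), n ≤ z.val → F z = 0 := by
    intro z hz
    apply h3
    have hlt := ZMod.val_lt z
    have e : F z = ((lf F).drop n)[z.val - n]'(by simp [lf]; omega) := by
      rw [List.getElem_drop]
      unfold lf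
      rw [List.getElem_map, List.getElem_range]
      have : n + (z.val - n) = z.val := by omega
      rw [this, ZMod.natCast_zmod_val]
    rw [e]
    exact List.getElem_mem _
  have h5 : mo F 0 + ∑ z, F z ≤ n * ∑ z, F z := by
    unfold mo
    rw [← Finset.sum_add_distrib, Finset.mul_sum]
    apply Finset.sum_le_sum
    intro z _
    rw [sub_zero]
    rcases Nat.lt_or_ge z.val n with hz | hz
    · have : z.val * F z + F z = (z.val + 1) * F z := by ring
      rw [this]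
      exact Nat.mul_le_mul_right _ hz
    · rw [h4 z hz]
      simp
  omega

theorem drop_one (F : ZMod (2 * 1 + 1) → ℕ) (h0 : F 0 = 0) : ((lf F).drop 1).sum = ∑ z, F z := by
  have e : lf F = [F 0, F 1, F 2] := rfl
  rw [e, List.drop_succ_cons, List.drop_zero]
  have e2 : ∑ z : ZMod (2 * 1 + 1), F z = F 0 + F 1 + F 2 := by
    change ∑ z : Fin 3, F z = _
    rw [Fin.sum_univ_three]
    rfl
  rw [e2, h0]
  simp

/-- **the condition of `LD_RH`** -/
theorem cm_four (hn : 1 ≤ n) (F : ZMod (2 * n + 1) → ℕ) (h1 : 1 ≤ ∑ z, F z) (h0 : F 0 = 0)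
    (hk : n = 1 → 2 ≤ ∑ z, F z) (hm : n * ∑ z, F z ≤ mo F 0) :
    4 ≤ n + 2 * ((lf F).drop n).sum := by
  have h2 := cm_drop hn F h1 hm
  rcases Nat.lt_or_ge n 2 with h3 | h3
  · obtain rfl : n = 1 := by omega
    rw [drop_one F h0]
    have := hk rfl
    omega
  · omega

theorem LD_right (hn : 1 ≤ n) (F : ZMod (2 * n + 1) → ℕ) (h1 : 1 ≤ ∑ z, F z)
    (hk : n = 1 → 2 ≤ ∑ z, F z)
    (h : 1 ≤ F (-1) ∨ (F (-1) = 0 ∧ F 0 = 0 ∧ Sq (adj F 0) ≤ Sq (adj F (-1)))) : LD (RH n F) := by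
  apply LD_RH hn
  rcases h with h | ⟨h2, h3, h4⟩
  · exact Or.inl h
  · refine Or.inr ⟨h3, h2, cm_four hn F h1 h3 hk ?_⟩
    have h5 := Sq_diff F
    by_contra h6
    push Not at h6
    have h7 : (0 : ℤ) < n * ∑ z, (F z : ℤ) - mo F 0 := by
      have := h6
      zify at this
      linarith
    have h8 : (0 : ℤ) < 2 * (2 * n + 1) * (n * ∑ z, (F z : ℤ) - mo F 0) := by positivity
    omega

theorem rf_zero (F : ZMod (2 * n + 1) → ℕ) : rf F 0 = F (-1) ∧ rf F (-1) = F 0 := by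
  unfold rf
  constructor
  · congr 1; ring
  · congr 1; ring

theorem LD_mir (hn : 1 ≤ n) (F : ZMod (2 * n + 1) → ℕ) (h1 : 1 ≤ ∑ z, F z)
    (hk : n = 1 → 2 ≤ ∑ z, F z)
    (h : F (-1) = 0 ∧ (1 ≤ F 0 ∨ (F 0 = 0 ∧ Sq (adj F (-1)) < Sq (adj F 0)))) : LD (RH n (rf F)) := by
  obtain ⟨h2, h⟩ := h
  obtain ⟨r0, r1⟩ := rf_zero F
  apply LD_RH hn
  rcases h with h | ⟨h3, h4⟩
  · left
    rw [r1]
    exact h
  · right
    refine ⟨by rw [r0, h2], by rw [r1, h3], cm_four hn _ (by rw [rf_sum]; exact h1) (by rw [r0, h2])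
      (by rw [rf_sum]; exact hk) ?_⟩
    rw [rf_sum]
    have h5 := Sq_diff F
    have h6 := mo_rf F
    have h7 : (0 : ℤ) < n * ∑ z, (F z : ℤ) - mo F 0 := by
      by_contra h8
      push Not at h8
      have h9 : (2 * (2 * n + 1) * (n * ∑ z, (F z : ℤ) - mo F 0) : ℤ) ≤ 0 :=
        mul_nonpos_of_nonneg_of_nonpos (by positivity) h8
      omega
    have h8 : mo F 0 < n * ∑ z, F z := by
      zify
      linarith
    have h9 : 2 * n * ∑ z, F z = n * ∑ z, F z + n * ∑ z, F z := by ring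
    omega

end Ft

end Pool.OddHC
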