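import Pool.Agent.Work.MP_8f87b2_h11.GJ
import Pool.Agent.Work.MP_8f87b2_h11.Or
import Pool.Agent.Work.MP_8f87b2_h26.TyL1

/-!
# Type L1 against the J types

`TyL1.gh` : every word of a gadget of type L1 is a word with a hidden bead, its inner words are no words without hidden
beads. Rows W (`TyL1.disj_*`) and I (`TyL1.inner_*`, `*.inner_L1`) for all J types (`Ft.GJ g`).
-/

set_option autoImplicit false

namespace Pool.OddHC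

open Finset Equiv BinaryTree Pool.Agent.Work.MP_8f87b2_co

variable {k : ℕ} {F F' : Set (Cyc k)} {g g' : DG k}

namespace Ft

/-- words and inner words of a gadget with one hidden bead -/
structure GH1 (g : DG k) : Prop where
  w : ∀ w ∈ g.B, LWX w.1
  i : ∀ a ∈ g.arcs, ∀ w ∈ innA a, ¬ JW1 w.1

theorem GH1.dis (h : GH1 g) (h' : GJ g') : ∀ w ∈ g.B, w ∉ g'.B :=
  fun w hw hw' => (h.w w hw).not_JW1 (h'.w w hw')

theorem GH1.dis' (h : GJ g) (h' : GH1 g') : ∀ w ∈ g.B, w ∉ g'.B :=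
  fun w hw hw' => (h'.w w hw').not_JW1 (h.w w hw)

theorem GH1.inn (h : GH1 g) (h' : GJ g') : ∀ a ∈ g.arcs, ∀ w ∈ innA a, w ∉ g'.B :=
  fun a ha w hw hw' => h.i a ha w hw (h'.w w hw')

theorem GJ.inn (h : GJ g) (h' : GH1 g') : ∀ a ∈ g.arcs, ∀ w ∈ innA a, w ∉ g'.B :=
  fun a ha w hw hw' => (h'.w w hw').not_JI (h.i a ha w hw)

end Ft

open L1

/-- **type L1** -/
theorem TyL1.gh (hk : 9 ≤ k) (h : TyL1 F g) : Ft.GH1 g := by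
  rcases h with ⟨n, Φ, w0, hb, hr, rfl, rfl⟩ | ⟨n, Φ, w0, hb, hr, rfl, rfl⟩
  · have hkk := hb.hk
    have hd : Ft.LD (RH n Φ) := Ft.LD_right hb.hn Φ hb.one (fun h1 => by omega) hr
    have key : ∀ i ∈ [1, 3, 6, 8], ¬ Ft.JW1 (TT (xw n Φ w0 i)).1 := by
      intro i hi
      have hlt : ∀ i ∈ [1, 3, 6, 8], i < 20 := by decide
      exact hd.inner hi (xw_val hb.hn hb.hk w0 (hlt i hi))
    refine ⟨?_, ?_⟩
    · intro w hw
      obtain ⟨i, hi, _, rfl⟩ := mem_gadJ.1 hw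
      exact ⟨_, i, hi, hd, Or.inl (xw_val hb.hn hb.hk w0 hi)⟩
    · intro q hq w hw
      have hw' : w = TT q.1 := hw
      subst hw'
      rcases hq with e | e | e | e
      · subst e; exact key 1 (by simp)
      · subst e; exact key 3 (by simp)
      · subst e; exact key 6 (by simp)
      · subst e; exact key 8 (by simp)
  · have hkk := hb.hk
    have hd : Ft.LD (RH n (J.rf Φ)) := Ft.LD_mir hb.hn Φ hb.one (fun h1 => by omega) ⟨hr.2.1, hr.2.2.2⟩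
    have hkr : n + 5 + 2 * ∑ x, J.rf Φ x = k := by rw [J.rf_sum]; exact hb.hk
    have key : ∀ i j, (i, j) ∈ [(1, 11), (3, 12), (6, 15), (8, 14)] →
        ¬ Ft.JW1 (TT (xm n Φ w0 j)).1 := by
      intro i j hij
      have hi : i ∈ [1, 3, 6, 8] := by
        simp only [List.mem_cons, Prod.mk.injEq, List.not_mem_nil, or_false] at hij ⊢
        omega
      have hij' : (i, j) ∈ [(0, 10), (1, 11), (3, 12), (6, 15), (8, 14), (9, 17)] := by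
        simp only [List.mem_cons, Prod.mk.injEq, List.not_mem_nil, or_false] at hij ⊢
        omega
      have hlt : ∀ i ∈ [1, 3, 6, 8], i < 20 := by decide
      have h1 := hd.innerM hi (xw_val (k := k) hb.hn hkr w0 (hlt i hi))
      have h2 : TT (TT (xw n (J.rf Φ) w0 i)) = xw n (J.rf Φ) w0 j := (GR_RH hb.hn (J.rf Φ) hkr).link w0 hij'
      rw [h2] at h1
      exact h1
    refine ⟨?_, ?_⟩
    · intro w hw
      obtain ⟨i, hi, _, rfl⟩ := mem_gadJM.1 hw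
      exact ⟨_, i, hi, hd, Or.inr (xm_val hb.hn hb.hk w0 hi)⟩
    · intro q hq w hw
      have hw' : w = TT q.1 := hw
      subst hw'
      rcases hq with e | e | e | e
      · subst e; exact key 1 11 (by simp)
      · subst e; exact key 3 12 (by simp)
      · subst e; exact key 6 15 (by simp)
      · subst e; exact key 8 14 (by simp)

/-- **row W, all J types** -/
theorem TyL1.disj_GJ (hk : 9 ≤ k) (h : TyL1 F g) (h' : Ft.GJ g') : ∀ w ∈ g.B, w ∉ g'.B :=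
  (h.gh hk).dis h'

/-- **row I, inner words of L1, all J types** -/
theorem TyL1.inner_GJ (hk : 9 ≤ k) (h : TyL1 F g) (h' : Ft.GJ g') :
    ∀ a ∈ g.arcs, ∀ w ∈ innA a, w ∉ g'.B := (h.gh hk).inn h'

/-- **row I, inner words of the J types against L1** -/
theorem TyL1.GJ_inner (hk : 9 ≤ k) (h : Ft.GJ g) (h' : TyL1 F' g') :
    ∀ a ∈ g.arcs, ∀ w ∈ innA a, w ∉ g'.B := h.inn (h'.gh hk)

/-! ### W rows -/

theorem dj_L1_H (hk : 9 ≤ k) : Dj (k := k) TyL1 Hole2.TyH :=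
  fun _ _ _ _ h h' _ => h.disj_GJ hk h'.gj

theorem dj_L1_JM (hk : 9 ≤ k) : Dj (k := k) TyL1 TyJM := fun _ _ _ _ h h' _ => h.disj_GJ hk h'.gj

theorem dj_L1_J4 (hk : 9 ≤ k) : Dj (k := k) TyL1 TyJ4 := fun _ _ _ _ h h' _ => h.disj_GJ hk h'.gj

theorem dj_L1_J3V (hk : 9 ≤ k) : Dj (k := k) TyL1 TyJ3V := fun _ _ _ _ h h' _ => h.disj_GJ hk h'.gj

theorem dj_L1_J5V (hk : 9 ≤ k) : Dj (k := k) TyL1 TyJ5V := fun _ _ _ _ h h' _ => h.disj_GJ hk h'.gj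

theorem dj_L1_JE (hk : 9 ≤ k) (R : BinaryTree Unit) : Dj (k := k) TyL1 (TyJE R) :=
  fun _ _ _ _ h h' _ => h.disj_GJ hk h'.gj

theorem dj_L1_J1 (hk : 9 ≤ k) : Dj (k := k) TyL1 J1.TyJ1 := fun _ _ _ _ h h' _ => h.disj_GJ hk h'.gj

theorem dj_L1_Jt (hk : 9 ≤ k) : Dj (k := k) TyL1 J1.TyJt := fun _ _ _ _ h h' _ => h.disj_GJ hk h'.gj

/-! ### I rows -/

theorem Hole2.TyH.inner_L1 (hk : 9 ≤ k) (h : Hole2.TyH F g) (h' : TyL1 F' g') :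
    ∀ a ∈ g.arcs, ∀ w ∈ innA a, w ∉ g'.B := TyL1.GJ_inner hk h.gj h'

theorem TyJM.inner_L1 (hk : 9 ≤ k) (h : TyJM F g) (h' : TyL1 F' g') :
    ∀ a ∈ g.arcs, ∀ w ∈ innA a, w ∉ g'.B := TyL1.GJ_inner hk h.gj h'

theorem TyJ4.inner_L1 (hk : 9 ≤ k) (h : TyJ4 F g) (h' : TyL1 F' g') :
    ∀ a ∈ g.arcs, ∀ w ∈ innA a, w ∉ g'.B := TyL1.GJ_inner hk h.gj h'

theorem TyJ3V.inner_L1 (hk : 9 ≤ k) (h : TyJ3V F g) (h' : TyL1 F' g') :
    ∀ a ∈ g.arcs, ∀ w ∈ innA a, w ∉ g'.B := TyL1.GJ_inner hk h.gj h'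

theorem TyJ5V.inner_L1 (hk : 9 ≤ k) (h : TyJ5V F g) (h' : TyL1 F' g') :
    ∀ a ∈ g.arcs, ∀ w ∈ innA a, w ∉ g'.B := TyL1.GJ_inner hk h.gj h'

theorem J1.TyJ1.inner_L1 (hk : 9 ≤ k) (h : J1.TyJ1 F g) (h' : TyL1 F' g') :
    ∀ a ∈ g.arcs, ∀ w ∈ innA a, w ∉ g'.B := TyL1.GJ_inner hk h.gj h'

theorem J1.TyJt.inner_L1 (hk : 9 ≤ k) (h : J1.TyJt F g) (h' : TyL1 F' g') :
    ∀ a ∈ g.arcs, ∀ w ∈ innA a, w ∉ g'.B := TyL1.GJ_inner hk h.gj h'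

theorem Is9.inner_L1 (hk : 9 ≤ k) {S : BinaryTree Unit} (h : Is9 .nil .nil S F g)
    (h1 : (OddHC.cont S).count 1 = 0) (h' : TyL1 F' g') : ∀ a ∈ g.arcs, ∀ w ∈ innA a, w ∉ g'.B :=
  TyL1.GJ_inner hk (h.gj h1) h'

theorem Is9M.inner_L1 (hk : 9 ≤ k) {S : BinaryTree Unit} (h : Is9M .nil .nil S F g)
    (h1 : (OddHC.cont S).count 1 = 0) (h' : TyL1 F' g') : ∀ a ∈ g.arcs, ∀ w ∈ innA a, w ∉ g'.B :=
  TyL1.GJ_inner hk (h.gj h1) h'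

theorem TyL1.inner_H (hk : 9 ≤ k) (h : TyL1 F g) (h' : Hole2.TyH F' g') :
    ∀ a ∈ g.arcs, ∀ w ∈ innA a, w ∉ g'.B := h.inner_GJ hk h'.gj

theorem TyL1.inner_JM (hk : 9 ≤ k) (h : TyL1 F g) (h' : TyJM F' g') :
    ∀ a ∈ g.arcs, ∀ w ∈ innA a, w ∉ g'.B := h.inner_GJ hk h'.gj

theorem TyL1.inner_J4 (hk : 9 ≤ k) (h : TyL1 F g) (h' : TyJ4 F' g') :
    ∀ a ∈ g.arcs, ∀ w ∈ innA a, w ∉ g'.B := h.inner_GJ hk h'.gj

theorem TyL1.inner_J3V (hk : 9 ≤ k) (h : TyL1 F g) (h' : TyJ3V F' g') :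
    ∀ a ∈ g.arcs, ∀ w ∈ innA a, w ∉ g'.B := h.inner_GJ hk h'.gj

theorem TyL1.inner_J5V (hk : 9 ≤ k) (h : TyL1 F g) (h' : TyJ5V F' g') :
    ∀ a ∈ g.arcs, ∀ w ∈ innA a, w ∉ g'.B := h.inner_GJ hk h'.gj

theorem TyL1.inner_J1 (hk : 9 ≤ k) (h : TyL1 F g) (h' : J1.TyJ1 F' g') :
    ∀ a ∈ g.arcs, ∀ w ∈ innA a, w ∉ g'.B := h.inner_GJ hk h'.gj

theorem TyL1.inner_Jt (hk : 9 ≤ k) (h : TyL1 F g) (h' : J1.TyJt F' g') :
    ∀ a ∈ g.arcs, ∀ w ∈ innA a, w ∉ g'.B := h.inner_GJ hk h'.gj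

theorem TyL1.inner_JV (hk : 9 ≤ k) (h : TyL1 F g) {S : BinaryTree Unit} (h' : Is9 .nil .nil S F' g')
    (h1 : (OddHC.cont S).count 1 = 0) : ∀ a ∈ g.arcs, ∀ w ∈ innA a, w ∉ g'.B := h.inner_GJ hk (h'.gj h1)

theorem TyL1.disj_JV (hk : 9 ≤ k) (h : TyL1 F g) {S : BinaryTree Unit} (h' : Is9 .nil .nil S F' g')
    (h1 : (OddHC.cont S).count 1 = 0) : ∀ w ∈ g.B, w ∉ g'.B := h.disj_GJ hk (h'.gj h1)

theorem TyL1.inner_JVm (hk : 9 ≤ k) (h : TyL1 F g) {S : BinaryTree Unit} (h' : Is9M .nil .nil S F' g')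
    (h1 : (OddHC.cont S).count 1 = 0) : ∀ a ∈ g.arcs, ∀ w ∈ innA a, w ∉ g'.B := h.inner_GJ hk (h'.gj h1)

theorem TyL1.disj_JVm (hk : 9 ≤ k) (h : TyL1 F g) {S : BinaryTree Unit} (h' : Is9M .nil .nil S F' g')
    (h1 : (OddHC.cont S).count 1 = 0) : ∀ w ∈ g.B, w ∉ g'.B := h.disj_GJ hk (h'.gj h1)

end Pool.OddHC
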