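import Pool.Agent.Work.MP_8f87b2_h11.L1Rows

/-!
# `GJ g` for any gadget with the words `W R nil B S i`, `i < 20` (one line for every new type)
-/

set_option autoImplicit false

namespace Pool.OddHC

open Finset Equiv BinaryTree Pool.Agent.Work.MP_8f87b2_co

variable {k : ℕ} {F F' : Set (Cyc k)} {g g' : DG k}

/-- **any right gadget with words `W R nil B S i`**, arcs `(j, i)` with `i` in `{0,1,3,6,8,9}` -/
theorem Ft.GJ.right {R B S : BinaryTree Unit} (hb : Ft.BF R B S)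
    (hw : ∀ w ∈ g.B, ∃ i < 20, w.1 = H1.W R .nil B S i)
    (ha : ∀ a ∈ g.arcs, ∃ i ∈ [0, 1, 3, 6, 8, 9], a.1.1 = H1.W R .nil B S i) : Ft.GJ g := by
  refine ⟨fun w h => ?_, fun a h w hw' => ?_⟩
  · obtain ⟨i, hi, e⟩ := hw w h
    exact ⟨_, _, _, i, hi, hb, Or.inl e⟩
  · have e : w = TT a.1 := hw'
    subst e
    obtain ⟨i, hi, e⟩ := ha a h
    exact ⟨_, _, _, i, _, hb, hi, e, Or.inl rfl⟩

/-- **any mirrored gadget with words `mir (W R nil B S i)`** -/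
theorem Ft.GJ.left {R B S : BinaryTree Unit} (hb : Ft.BF R B S)
    (hw : ∀ w ∈ g.B, ∃ i < 20, w.1 = Tsq.mir (H1.W R .nil B S i))
    (ha : ∀ a ∈ g.arcs, ∃ i ∈ [0, 1, 3, 6, 8, 9], ∃ y : X k, y.1 = H1.W R .nil B S i ∧
      TT a.1 = Tsq.mirX (TT y)) : Ft.GJ g := by
  refine ⟨fun w h => ?_, fun a h w hw' => ?_⟩
  · obtain ⟨i, hi, e⟩ := hw w h
    exact ⟨_, _, _, i, hi, hb, Or.inr e⟩
  · have e : w = TT a.1 := hw'
    subst e
    obtain ⟨i, hi, y, e, e'⟩ := ha a h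
    exact ⟨_, _, _, i, y, hb, hi, e, Or.inr e'⟩

/-- `GJ` passes to smaller sets of words and arcs. -/
theorem Ft.GJ.mono (h : Ft.GJ g) (hB : ∀ w ∈ g'.B, w ∈ g.B) (ha : ∀ a ∈ g'.arcs, ∃ b ∈ g.arcs, a.1 = b.1) :
    Ft.GJ g' := by
  refine ⟨fun w hw => h.w w (hB w hw), fun a h1 w hw => ?_⟩
  obtain ⟨b, hb, e⟩ := ha a h1
  have e1 : w = TT a.1 := hw
  exact h.i b hb w (show w = TT b.1 by rw [e1, e])

end Pool.OddHC
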