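import Pool.Agent.Work.MP_8f87b2_h11.RHd

/-!
# The data of the tree `RH n F` with one hidden bead, `F 0 = F (-1) = 0`
-/

set_option autoImplicit false

namespace Pool.OddHC

namespace Ft

open BinaryTree Equiv Pool.Agent.Work.MP_8f87b2_co L1

variable {k n : ℕ}

theorem lv_app' (x : ℕ) (T : BinaryTree Unit) : lv x T = app (lv x .nil) T := by
  induction x with
  | zero => rfl
  | succ x ih =>
    change .nil △ lv x T = .nil △ app (lv x .nil) T
    rw [ih]

theorem wd_lv (m : ℕ) : (wd (lv m .nil)).length = 2 * m := by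
  rw [wd_length, lv_num']

theorem ch_num' (n : ℕ) : (H1.ch n).numNodes = n := by
  induction n with
  | zero => rfl
  | succ n ih =>
    change (H1.ch n).numNodes + 0 + 1 = n + 1
    rw [ih]

/-- first maximum of `ins (ch n) e` -/
theorem FM_ch : ∀ (n : ℕ) (e : List ℕ), e.length = 2 * n + 1 →
    ∃ a b, H1.FM (ins (H1.ch n) (bump (H1.ch n) e)) a b ∧ b.length = 1 + n + 2 * (e.drop n).sum ∧
      Tsq.ht (ins (H1.ch n) (bump (H1.ch n) e)) = n + 1 := by
  intro n
  induction n with
  | zero =>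
    intro e he
    obtain ⟨m, rfl⟩ : ∃ m, e = [m] := List.length_eq_one_iff.1 (by simpa using he)
    have e1 : ins (H1.ch 0) (bump (H1.ch 0) [m]) = .nil △ lv m .nil := rfl
    have e2 : Tsq.ht (.nil △ lv m .nil) = 1 := by
      have := ht_lvn m
      rw [Tsq.ht_node]
      change max (0 + 1) _ = 1
      omega
    rw [e1]
    refine ⟨[], false :: wd (lv m .nil), ⟨?_, ?_, ?_⟩, ?_, ?_⟩
    · rw [wd_node]
      rfl
    · intro q
      rw [e2]
      simp
    · rw [e2]
      simp
    · rw [List.length_cons, wd_lv]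
      simp
      omega
    · exact e2
  | succ n ih =>
    intro e he
    obtain ⟨x, e', rfl⟩ : ∃ x e', e = x :: e' := by
      cases e with
      | nil => simp at he
      | cons x e' => exact ⟨x, e', rfl⟩
    rw [List.length_cons] at he
    obtain ⟨m, y, rfl⟩ : ∃ m y, e' = m ++ [y] := by
      refine ⟨e'.dropLast, e'.getLast (by rintro rfl; simp at he), ?_⟩
      rw [List.dropLast_append_getLast]
    rw [List.length_append, List.length_singleton] at he
    have hm : m.length = 2 * (H1.ch n).numNodes + 1 := by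
      rw [ch_num']
      omega
    have hm' : m.length = 2 * n + 1 := by omega
    obtain ⟨a, b, h1, h2, h3⟩ := ih m hm'
    have e1 : ins (H1.ch (n + 1)) (bump (H1.ch (n + 1)) (x :: (m ++ [y]))) =
        app (lv x .nil) (ins (H1.ch n) (bump (H1.ch n) m) △ lv y .nil) := by
      change ins (H1.ch n △ .nil) (x :: (m ++ [y])) = _
      rw [ins_comp hm, lv_app']
      rfl
    have e2 := ht_lvn x
    have e3 := ht_lvn y
    have hN := h1.node (Z := lv y .nil) (by omega)
    have hh : Tsq.ht (ins (H1.ch n) (bump (H1.ch n) m) △ lv y .nil) = n + 2 := by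
      rw [Tsq.ht_node]
      omega
    have hL := hN.app_left (P := lv x .nil) (by omega)
    rw [e1]
    refine ⟨_, _, hL, ?_, ?_⟩
    · rw [List.length_append, List.length_cons, h2, wd_lv, List.drop_succ_cons,
        List.drop_append_of_le_length (by omega), List.sum_append, List.sum_singleton]
      ring
    · rw [Tsq.ht_app]
      omega

/-- **data of case Z** -/
theorem LZX_RH (hn : 1 ≤ n) (F : ZMod (2 * n + 1) → ℕ) (h0 : F 0 = 0) (h1 : F (-1) = 0)
    (hs : 4 ≤ n + 2 * ((lf F).drop n).sum) :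
    (Tsq.sq (RH n F)).2 = .nil ∧ LZX (RH n F) (Tsq.sq (RH n F)).1 := by
  obtain ⟨D0, hD0, hsh⟩ := Ring1.shape hn F
  rw [h0, h1] at hsh
  change Ring1.RF n F = inf D0 △ .nil at hsh
  have hinf : inf D0 ≠ .nil := inf_ne_nil hD0
  have hr : rr n F = D0 △ .nil := by
    have e1 : rd (Ring1.RF n F) = rr n F := rd_inf _
    rw [← e1, hsh, rd_node hinf, rd_inf, rd_nil]
  have hnum := rr_num hn F
  have hDn : (rr n F).numNodes = D0.numNodes + 1 := by
    rw [hr]
    rfl
  have hg : gH n F + 3 = 2 * (rr n F).numNodes := by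
    unfold gH
    rw [if_neg (by omega), hnum]
    omega
  have hW := Wd_RH hn F
  -- the inner part
  obtain ⟨Y, hY⟩ : ∃ Y, Y = ins D0 (cl D0.numNodes {gH n F - 1}) := ⟨_, rfl⟩
  have hWY : Wd D0 {gH n F - 1} Y := by
    refine ⟨?_, hY⟩
    intro y hy
    rw [Multiset.mem_singleton] at hy
    omega
  have hWY' := hWY.wrap hD0
  have hRY : RH n F = Y △ .nil := by
    rw [hr] at hW
    refine hW.det (hWY'.cast rfl ?_ rfl)
    rw [Multiset.map_singleton]
    congr 1
    have := gH_le hn F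
    omega
  obtain ⟨r1, r2, _⟩ := Wd_rd hW
  have pR := Wd_one hW
  obtain ⟨y1, y2, _⟩ := Wd_rd hWY
  have hDpos : 1 ≤ D0.numNodes := by omega
  have hYpos : 0 < ln Y := by rw [y2]; omega
  have hYn : Y ≠ .nil := by rintro rfl; exact absurd hYpos (by simp [ln_nil])
  have hRpos : 0 < ln (RH n F) := by rw [r2]; omega
  have hRn : RH n F ≠ .nil := by
    intro h
    rw [h] at hRpos
    exact absurd hRpos (by simp [ln_nil])
  have hhS : Tsq.ht (Tsq.sq (RH n F)).1 = Tsq.ht (RH n F) := (Tsq.ht_sq hRn).1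
  have hht : Tsq.ht (RH n F) = n + 2 := by rw [H1.ht_eq]; exact ht_RH hn F
  have hSr := ht_rd_ge (Tsq.sq (RH n F)).1
  have hrh := ht_rr hn F
  have hsq := sq_comp hYpos (g := gH n F) (by rw [← hRY]; exact pR) (by rw [← hRY, r2]; omega)
  rw [← hRY] at hsq
  obtain ⟨q1, q2, q3⟩ := hsq
  -- first maximum
  obtain ⟨a, b, f1, f2, _⟩ := FM_ch n (lf F) (by simp [lf])
  have f1' : H1.FM (rd (RH n F)) a b := by
    rw [r1]
    obtain ⟨p, rfl⟩ : ∃ p, n = p + 1 := ⟨n - 1, by omega⟩
    exact f1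
  have hlen := FM_len f1'
  have hFM : ∀ a' b', H1.FM (rd (RH n F)) a' b' → a'.length + 6 ≤ ln (RH n F) := by
    intro a' b' h'
    obtain ⟨rfl, rfl⟩ := h'.uniq f1'
    omega
  refine ⟨by rw [hRY, Tsq.sq_ge hYn (by simp [Tsq.ht])], ⟨⟨⟨gH n F, ?_, pR⟩, ⟨gH n F + 1, ?_, q1⟩,
    q2, ?_⟩, ?_, ?_, hFM, ?_⟩⟩
  · rw [r2]; omega
  · rw [r2]; omega
  · omega
  · rw [r1]; omega
  · omega
  · intro a' b' h'
    have := q3 _ _ f1' a' b' h'
    omega

end Ft

end Pool.OddHC
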