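import Pool.Agent.Work.MP_8f87b2_mid.Dis

/-!
# Positions of the beads in the reduced word

`ln t` : number of letters of the reduced word of `t`; `ps t` : the gaps of the beads, in order. Rules for `node`, `app`,
`mir`. Table for the twenty words `W R nil B S i`.
-/

set_option autoImplicit false

namespace Pool.OddHC

open BinaryTree Pool.Agent.Work.MP_8f87b2_co

namespace Ft

/-- positions of a list of multiplicities -/
def psl : ℕ → List ℕ → List ℕ
  | _, [] => []
  | i, n :: e => List.replicate n i ++ psl (i + 1) e

theorem psl_append (e f : List ℕ) : ∀ i, psl i (e ++ f) = psl i e ++ psl (i + e.length) f := by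
  induction e with
  | nil => intro i; rfl
  | cons n e ih =>
    intro i
    rw [List.cons_append, psl, psl, ih, List.append_assoc, List.length_cons]
    have : i + 1 + e.length = i + (e.length + 1) := by omega
    rw [this]

theorem psl_add (e : List ℕ) : ∀ i j, psl (i + j) e = (psl i e).map (· + j) := by
  induction e with
  | nil => intro i j; rfl
  | cons n e ih =>
    intro i j
    rw [psl, psl, List.map_append, List.map_replicate]
    have : i + j + 1 = (i + 1) + j := by omega
    rw [this, ih]

theorem psl_length (e : List ℕ) : ∀ i, (psl i e).length = e.sum := by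
  induction e with
  | nil => intro i; rfl
  | cons n e ih =>
    intro i
    rw [psl, List.length_append, List.length_replicate, ih, List.sum_cons]

theorem psl_le (e : List ℕ) : ∀ i, ∀ x ∈ psl i e, x + 1 ≤ i + e.length := by
  induction e with
  | nil => intro i x hx; simp [psl] at hx
  | cons n e ih =>
    intro i x hx
    rw [psl, List.mem_append] at hx
    rcases hx with hx | hx
    · have := List.eq_of_mem_replicate hx
      rw [List.length_cons]
      omega
    · have := ih (i + 1) x hx
      rw [List.length_cons]
      omega

/-- number of letters of the reduced word -/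
def ln (t : BinaryTree Unit) : ℕ := 2 * (red t).1.numNodes

/-- the gaps of the beads -/
def ps (t : BinaryTree Unit) : List ℕ := psl 0 (red t).2

/-- the gaps of the beads below a pair -/
def pu (t : BinaryTree Unit) : List ℕ := psl 0 (unbump (red t).1 (red t).2)

theorem ln_nil : ln .nil = 0 := rfl

theorem ps_nil : ps .nil = [] := rfl

theorem ps_length (t : BinaryTree Unit) : (ps t).length = (cont t).count 1 := by
  unfold ps
  rw [psl_length, ← count_one_ins _ _ (red_len t), ins_red]

theorem ps_le (t : BinaryTree Unit) : ∀ x ∈ ps t, x ≤ ln t := by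
  intro x hx
  have h := psl_le _ _ x hx
  rw [red_len] at h
  unfold ln
  omega

theorem red_leaf (B : BinaryTree Unit) :
    red (.nil △ B) = ((red B).1, ((red B).2.headD 0 + 1) :: (red B).2.tail) := rfl

theorem red_node {A : BinaryTree Unit} (hA : A ≠ .nil) (B : BinaryTree Unit) :
    red (A △ B) = ((red A).1 △ (red B).1, 0 :: (unbump (red A).1 (red A).2 ++ (red B).2)) := by
  cases A with
  | nil => exact absurd rfl hA
  | node _ A1 A2 => rfl

theorem red_cons (t : BinaryTree Unit) : (red t).2 = (red t).2.headD 0 :: (red t).2.tail := by
  have h := red_len t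
  cases h2 : (red t).2 with
  | nil => rw [h2] at h; simp at h
  | cons n e => rfl

theorem ln_leaf (B : BinaryTree Unit) : ln (.nil △ B) = ln B := rfl

theorem ps_leaf (B : BinaryTree Unit) : ps (.nil △ B) = 0 :: ps B := by
  unfold ps
  rw [red_leaf]
  conv_rhs => rw [red_cons B]
  rfl

theorem ln_node {A : BinaryTree Unit} (hA : A ≠ .nil) (B : BinaryTree Unit) :
    ln (A △ B) = ln A + ln B + 2 := by
  unfold ln
  rw [red_node hA]
  change 2 * ((red A).1.numNodes + (red B).1.numNodes + 1) = _
  omega

theorem unbump_length (t : BinaryTree Unit) :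
    (unbump (red t).1 (red t).2).length = (red t).2.length := by
  cases h : (red t).1 with
  | nil =>
    have h2 := red_len t
    rw [h] at h2
    cases h3 : (red t).2 with
    | nil => rw [h3] at h2; simp at h2
    | cons n e => rfl
  | node _ _ _ => rfl

theorem ps_node' {A : BinaryTree Unit} (hA : A ≠ .nil) (B : BinaryTree Unit) :
    ps (A △ B) = (pu A).map (· + 1) ++ (ps B).map (· + (ln A + 2)) := by
  unfold ps pu
  rw [red_node hA]
  change List.replicate 0 0 ++ psl (0 + 1) _ = _
  rw [List.replicate_zero, List.nil_append, psl_append, psl_add, unbump_length, red_len]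
  have : 0 + 1 + (2 * (red A).1.numNodes + 1) = 0 + (ln A + 2) := by
    unfold ln
    omega
  rw [this, psl_add _ 0]

theorem pu_pos {A : BinaryTree Unit} (hA : 0 < ln A) : pu A = ps A := by
  unfold pu ps
  cases h : (red A).1 with
  | nil => unfold ln at hA; rw [h] at hA; exact absurd hA (by simp)
  | node _ _ _ => rfl

theorem pu_zero {A : BinaryTree Unit} (hA : ln A = 0) : pu A = (ps A).tail := by
  unfold pu ps
  have h2 := red_len A
  cases h : (red A).1 with
  | nil =>
    rw [h] at h2
    obtain ⟨n, hn⟩ := List.length_eq_one_iff.1 (by simpa using h2)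
    rw [hn]
    change List.replicate (n - 1) 0 ++ [] = (List.replicate n 0 ++ []).tail
    rw [List.append_nil, List.append_nil, List.tail_replicate]
  | node _ A1 A2 =>
    unfold ln at hA
    rw [h] at hA
    change 2 * (A1.numNodes + A2.numNodes + 1) = 0 at hA
    omega

theorem ps_node {A : BinaryTree Unit} (hA : 0 < ln A) (B : BinaryTree Unit) :
    ps (A △ B) = (ps A).map (· + 1) ++ (ps B).map (· + (ln A + 2)) := by
  have h : A ≠ .nil := by rintro rfl; exact absurd hA (by simp [ln_nil])
  rw [ps_node' h, pu_pos hA]

theorem ln_node' {A : BinaryTree Unit} (hA : 0 < ln A) (B : BinaryTree Unit) :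
    ln (A △ B) = ln A + ln B + 2 := by
  have h : A ≠ .nil := by rintro rfl; exact absurd hA (by simp [ln_nil])
  exact ln_node h B

theorem ln_app (P Q : BinaryTree Unit) : ln (app P Q) = ln P + ln Q := by
  induction P with
  | nil =>
    rw [ln_nil, Nat.zero_add]
    rfl
  | node _ A B _ ih =>
    by_cases hA : A = .nil
    · subst hA
      change ln (.nil △ app B Q) = ln (.nil △ B) + ln Q
      rw [ln_leaf, ln_leaf, ih]
    · change ln (A △ app B Q) = ln (A △ B) + ln Q
      rw [ln_node hA, ln_node hA, ih]
      omega

theorem map_add_add (l : List ℕ) (a b : ℕ) : (l.map (· + a)).map (· + b) = l.map (· + (a + b)) := by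
  rw [List.map_map]
  congr 1
  funext x
  change x + a + b = x + (a + b)
  omega

theorem map_add_zero (l : List ℕ) : l.map (· + 0) = l := by simp

theorem ps_app (P Q : BinaryTree Unit) : ps (app P Q) = ps P ++ (ps Q).map (· + ln P) := by
  induction P with
  | nil =>
    rw [ps_nil, ln_nil, map_add_zero]
    rfl
  | node _ A B _ ih =>
    by_cases hA : A = .nil
    · subst hA
      change ps (.nil △ app B Q) = ps (.nil △ B) ++ (ps Q).map (· + ln (.nil △ B))
      rw [ps_leaf, ps_leaf, ih, ln_leaf]
      rfl
    · change ps (A △ app B Q) = ps (A △ B) ++ (ps Q).map (· + ln (A △ B))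
      rw [ps_node' hA, ps_node' hA, ih, List.map_append, List.append_assoc, map_add_add, ln_node hA]
      congr 3
      funext x
      omega

/-! ### Mirror -/

theorem mir_node (A B : BinaryTree Unit) : Tsq.mir (A △ B) = app (Tsq.mir B) (Tsq.mir A △ .nil) := rfl

theorem mir_ne {A : BinaryTree Unit} (hA : A ≠ .nil) : Tsq.mir A ≠ .nil := by
  intro h
  apply hA
  rw [← Tsq.mir_mir A, h]
  rfl

theorem ln_mir (t : BinaryTree Unit) : ln (Tsq.mir t) = ln t := by
  induction t with
  | nil => rfl
  | node _ A B ihA ihB =>
    change ln (Tsq.mir (A △ B)) = ln (A △ B)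
    rw [mir_node, ln_app, ihB]
    by_cases hA : A = .nil
    · subst hA
      rfl
    · rw [ln_node (mir_ne hA), ln_node hA, ihA, ln_nil]
      omega

/-- all beads of a word with empty reduced word are in gap 0 -/
theorem ps_zero {A : BinaryTree Unit} (hA : ln A = 0) : ∀ x ∈ ps A, x = 0 := by
  intro x hx
  have := ps_le A x hx
  omega

theorem ps_mir (t : BinaryTree Unit) : ps (Tsq.mir t) = (ps t).reverse.map (fun x => ln t - x) := by
  induction t with
  | nil => rfl
  | node _ A B ihA ihB =>
    change ps (Tsq.mir (A △ B)) = (ps (A △ B)).reverse.map (fun x => ln (A △ B) - x)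
    rw [mir_node, ps_app, ihB, ln_mir]
    by_cases hA : A = .nil
    · subst hA
      rw [ps_leaf, ln_leaf, List.reverse_cons, List.map_append]
      congr 1
      change (ps (.nil △ .nil)).map (· + ln B) = _
      rw [ps_leaf, ps_nil]
      simp
    · rw [ps_node' hA, ps_node' (mir_ne hA), ln_node hA, ps_nil, List.map_nil, List.append_nil,
        List.reverse_append, List.map_append, map_add_add]
      congr 1
      · rw [← List.map_reverse, List.map_map]
        apply List.map_congr_left
        intro x _
        change ln B - x = ln A + ln B + 2 - (x + (ln A + 2))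
        omega
      · rcases Nat.eq_zero_or_pos (ln A) with h0 | h0
        · rw [pu_zero h0, pu_zero (by rw [ln_mir]; exact h0), ihA, h0]
          have hz := ps_zero h0
          have e1 : ps A = List.replicate (ps A).length 0 := List.eq_replicate_of_mem hz
          rw [e1]
          generalize (ps A).length = m
          rw [List.reverse_replicate, List.map_replicate, List.tail_replicate,
            List.map_replicate, List.map_replicate, List.reverse_replicate, List.map_replicate]
          congr 1
          omega
        · rw [pu_pos h0, pu_pos (by rw [ln_mir]; exact h0), ihA, List.map_map, ← List.map_reverse,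
            List.map_map]
          apply List.map_congr_left
          intro x hx
          have := ps_le A x (List.mem_reverse.1 hx)
          change ln A - x + (1 + ln B) = ln A + ln B + 2 - (x + 1)
          omega

end Ft

end Pool.OddHC
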