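import Pool.Agent.Work.MP_8f87b2_h11.T2
import Pool.Agent.Work.MP_8f87b2_h26.L1e

/-!
# The data of the tree `RH n F` with one hidden bead
-/

set_option autoImplicit false

namespace Pool.OddHC

namespace Ft

open BinaryTree Equiv Pool.Agent.Work.MP_8f87b2_co L1

variable {k n : ℕ}

/-! ### General -/

theorem rd_ins {t : BinaryTree Unit} {e : List ℕ} (h : e.length = 2 * t.numNodes + 1) :
    rd (ins t e) = t := by
  unfold rd
  rw [red_ins t e h]

theorem rd_inf (t : BinaryTree Unit) : rd (inf t) = t := rd_ins List.length_replicate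

theorem Wd_rd {r w : BinaryTree Unit} {M : Multiset ℕ} (h : Wd r M w) :
    rd w = r ∧ ln w = 2 * r.numNodes ∧ ps w = psl 0 (cl r.numNodes M) := by
  have h1 := red_ins r (cl r.numNodes M) (cl_length _ _)
  rw [← h.eq] at h1
  refine ⟨by unfold rd; rw [h1], by unfold ln; rw [h1], by unfold ps; rw [h1]⟩

theorem cl_sum (n g : ℕ) (hg : g ≤ 2 * n) : (cl n {g}).sum = 1 := by
  unfold cl
  have e : ∀ m g : ℕ, g < m → ((List.range m).map (fun x => ({g} : Multiset ℕ).count x)).sum = 1 := by
    intro m g hg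
    rw [← List.sum_toFinset]
    · rw [Finset.sum_eq_single g]
      · simp
      · intro b _ hb
        rw [Multiset.count_singleton, if_neg hb]
      · intro hg'
        exact absurd (by simpa using hg) hg'
    · exact List.nodup_range
  exact e _ _ (by omega)

theorem Wd_one {r w : BinaryTree Unit} {g : ℕ} (h : Wd r {g} w) : ps w = [g] := by
  have hg : g ≤ 2 * r.numNodes := h.le g (by simp)
  have h1 := (Wd_rd h).2.2
  have h2 : (ps w).length = 1 := by rw [h1, psl_length, cl_sum _ _ hg]
  obtain ⟨z, hz⟩ := List.length_eq_one_iff.1 h2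
  have h3 : z ∈ psl 0 (cl r.numNodes {g}) := by
    rw [← h1, hz]
    simp
  rw [mem_psl, Nat.sub_zero] at h3
  have h4 : z < (cl r.numNodes {g}).length := by
    by_contra h5
    push Not at h5
    rw [List.getD_eq_default _ _ h5] at h3
    exact absurd h3.2 (by omega)
  rw [List.getD_eq_getElem _ _ h4, cl_getElem, Multiset.count_singleton] at h3
  have h5 : z = g := by
    by_contra h6
    rw [if_neg h6] at h3
    exact absurd h3.2 (by omega)
  rw [hz, h5]

theorem ht_rd_ge (t : BinaryTree Unit) : Tsq.ht t ≤ Tsq.ht (rd t) + 1 := by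
  induction t with
  | nil => simp [Tsq.ht]
  | node _ A B ihA ihB =>
    change Tsq.ht (A △ B) ≤ Tsq.ht (rd (A △ B)) + 1
    by_cases hA : A = .nil
    · subst hA
      rw [rd_leaf, Tsq.ht_node]
      change max (0 + 1) _ ≤ _
      omega
    · rw [rd_node hA, Tsq.ht_node, Tsq.ht_node]
      omega

theorem num_ge_ht (t : BinaryTree Unit) : Tsq.ht t ≤ t.numNodes := by
  induction t with
  | nil => exact Nat.zero_le _
  | node _ A B ihA ihB =>
    change Tsq.ht (A △ B) ≤ A.numNodes + B.numNodes + 1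
    rw [Tsq.ht_node]
    omega

theorem ln_ge_ht (t : BinaryTree Unit) : 2 * Tsq.ht (rd t) ≤ ln t := by
  rw [ln_eq]
  have := num_ge_ht (rd t)
  omega

theorem ln_T (x : X k) (h : 0 < ln x.1) : ln (TT x).1 = ln x.1 := by
  obtain ⟨a, b, hF⟩ := FM_ex (rd_ne h)
  exact (T_all x hF).2.1

theorem ln_sq {R : BinaryTree Unit} (hR : 0 < ln R) :
    ln (Tsq.sq R).2 + ln (Tsq.sq R).1 = ln R := by
  have hne : R ≠ .nil := by rintro rfl; exact absurd hR (by simp [ln_nil])
  let x : X R.numNodes := ⟨R, mem_treesOfNumNodesEq.2 rfl⟩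
  have e1 : (TT (TT x)).1 = app (Tsq.sq R).2 (Tsq.sq R).1 := Tsq.TT_sq x hne
  have h1 := ln_T x hR
  have h2 := ln_T (TT x) (by rw [h1]; exact hR)
  rw [e1, ln_app, h1] at h2
  exact h2

/-! ### One component -/

/-- `T^2` of one component moves the beads by one gap -/
theorem sq_comp {Y : BinaryTree Unit} (hY : 0 < ln Y) {g : ℕ} (hp : ps (Y △ .nil) = [g])
    (hg : g + 1 ≤ ln (Y △ .nil)) :
    ps (Tsq.sq (Y △ .nil)).1 = [g + 1] ∧ ln (Tsq.sq (Y △ .nil)).1 = ln (Y △ .nil) ∧
      ∀ a b, H1.FM (rd (Y △ .nil)) a b → ∀ a' b', H1.FM (rd (Tsq.sq (Y △ .nil)).1) a' b' →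
        a'.length ≤ a.length := by
  have hYn : Y ≠ .nil := by rintro rfl; exact absurd hY (by simp [ln_nil])
  have hDn : rd Y ≠ .nil := rd_ne hY
  have hs2 : Tsq.sq (Y △ .nil) = ((Tsq.sq Y).1 △ (Tsq.sq Y).2, .nil) :=
    Tsq.sq_ge hYn (by simp [Tsq.ht])
  have hr2 : Tsq.sq (rd Y △ .nil) = ((Tsq.sq (rd Y)).1 △ (Tsq.sq (rd Y)).2, .nil) :=
    Tsq.sq_ge hDn (by simp [Tsq.ht])
  have hrd : rd (Y △ .nil) = rd Y △ .nil := by rw [rd_node hYn, rd_nil]
  let x : X (Y △ BinaryTree.nil).numNodes := ⟨Y △ .nil, mem_treesOfNumNodesEq.2 rfl⟩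
  have hx : x.1 = Y △ .nil := rfl
  have e1 : (TT (TT x)).1 = (Tsq.sq (Y △ .nil)).1 := by
    have := Tsq.TT_sq x (by rw [hx]; simp)
    rw [hx, hs2] at this
    rw [this, hs2]
    rfl
  obtain ⟨a, c, h1, h2, h3, h4, h5, h6, h7⟩ := Tsq.sq_spec (rd Y △ .nil) (by simp)
  rw [hr2] at h1
  change wd (rd Y △ .nil) = a ++ true :: (c ++ [false]) at h1
  have f1 : H1.FM (rd (Y △ .nil)) a (c ++ [false]) := by rw [hrd]; exact ⟨h1, h3, h4⟩
  obtain ⟨w1, l1, n1, m1⟩ := T_all x f1
  have w1' : wd (rd (TT x).1) = c.map not ++ true :: (false :: a.map not) := by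
    rw [w1]
    simp
  have hpos : ∀ m, (c.take m).count false + 1 ≤ (c.take m).count true + Tsq.ht (rd Y △ .nil) := by
    intro m
    have hw : wd (rd Y △ .nil) = true :: (wd (rd Y) ++ [false]) := by
      rw [wd_node]
      simp [wd]
    -- prefix of length `a.length + 1 + min m c.length`
    obtain ⟨q, hq, hq2⟩ : ∃ q, c.take m = c.take q ∧ q ≤ c.length := by
      rcases le_total m c.length with h8 | h8
      · exact ⟨m, rfl, h8⟩
      · exact ⟨c.length, by rw [List.take_of_length_le h8, List.take_length], le_rfl⟩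
    rw [hq]
    have hlen : a.length + 1 + c.length + 1 = (wd (rd Y)).length + 2 := by
      have := congrArg List.length (h1.symm.trans hw)
      simp at this
      omega
    have t1 : (wd (rd Y △ .nil)).take (a.length + q + 1) = a ++ true :: c.take q := by
      rw [h1, List.take_append, List.take_of_length_le (by omega)]
      have : a.length + q + 1 - a.length = q + 1 := by omega
      rw [this, List.take_succ_cons, List.take_append_of_le_length hq2]
    have t2 : (wd (rd Y △ .nil)).take (a.length + q + 1) = true :: (wd (rd Y)).take (a.length + q) := by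
      rw [hw, List.take_succ_cons, List.take_append_of_le_length (by omega)]
    have t3 := wd_take (rd Y) (a.length + q)
    have t4 := t1.symm.trans t2
    have c1 := congrArg (List.count true) t4
    have c2 := congrArg (List.count false) t4
    rw [List.count_append, List.count_cons, List.count_cons] at c1 c2
    simp at c1 c2
    omega
  have f2 : H1.FM (rd (TT x).1) (c.map not) (false :: a.map not) := by
    refine FM_mk (h := Tsq.ht (rd Y △ .nil)) w1' ?_ ?_ ?_
    · intro m
      rw [← List.map_take, cnt_not_t, cnt_not_f]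
      exact hpos m
    · rw [cnt_not_t, cnt_not_f]
      exact h6
    · intro m
      have g1 := (FM.facts f1).1
      rcases m with _ | m
      · simp
      · rw [List.take_succ_cons, ← List.map_take, List.count_cons, List.count_cons, cnt_not_t,
          cnt_not_f]
        have := g1 m
        simp
        omega
  obtain ⟨w2, l2, n2, m2⟩ := T_all (TT x) f2
  rw [e1] at w2 l2 n2 m2
  have hl := FM_len f1
  rw [List.length_append, List.length_singleton] at hl
  rw [hx] at l1 n1 m1
  rw [n1, hp] at n2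
  obtain ⟨z, hz⟩ := List.length_eq_one_iff.1 n2
  have hz1 := (m2 z).1 (by rw [hz]; simp)
  rw [m1, l1, hp, List.mem_singleton, List.length_map] at hz1
  obtain ⟨hz2, hz3, hz4⟩ := hz1
  have hL : ln (Y △ .nil) = a.length + 1 + (c.length + 1) := by omega
  have hz5 : z = g + 1 := by
    rw [Nat.mod_add_mod] at hz4
    have e5 : z + (c.length + 1) + (a.length + 1) = z + ln (Y △ .nil) := by omega
    rw [e5] at hz4
    rcases Nat.eq_zero_or_pos z with h0 | h0
    · rw [h0, Nat.zero_add, Nat.mod_eq_of_lt (by omega)] at hz4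
      omega
    · rw [Nat.mod_eq_sub_mod (by omega), Nat.mod_eq_of_lt (by omega)] at hz4
      omega
  refine ⟨by rw [hz, hz5], by rw [l2, l1], ?_⟩
  intro a1 b1 hF1 a' b' h'
  obtain ⟨rfl, rfl⟩ := hF1.uniq f1
  by_contra hlt
  push Not at hlt
  have hw2 : wd (rd (Tsq.sq (Y △ .nil)).1) = true :: (a1 ++ false :: c) := by
    rw [w2, List.map_cons, map_not_not, map_not_not]
    rfl
  have hh : Tsq.ht (rd Y △ .nil) ≤ Tsq.ht (rd (Tsq.sq (Y △ .nil)).1) := by
    have g := Tsq.ht_take (rd (Tsq.sq (Y △ .nil)).1) (a1.length + 1)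
    rw [hw2, List.take_succ_cons, List.take_left', List.count_cons, List.count_cons] at g
    · simp at g
      omega
    · rfl
  have hh2 : Tsq.ht (rd (Tsq.sq (Y △ .nil)).1) ≤ Tsq.ht (rd Y △ .nil) := by
    apply ht_le_of
    intro m
    rw [hw2]
    rcases m with _ | m
    · simp
    · rw [List.take_succ_cons, List.take_append, List.count_cons, List.count_append, List.count_cons,
        List.count_append]
      have g1 := h3 m
      rcases le_or_gt m a1.length with hm | hm
      · have e : m - a1.length = 0 := by omega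
        rw [e]
        simp only [List.take_zero, List.count_nil]
        simp
        omega
      · obtain ⟨q, hq⟩ : ∃ q, m - a1.length = q + 1 := ⟨m - a1.length - 1, by omega⟩
        rw [hq, List.take_succ_cons, List.take_of_length_le hm.le, List.count_cons, List.count_cons]
        have g2 := h5 q
        simp
        omega
  have e1' := h'.eq
  have e2 : a'.take (a1.length + 1) = true :: a1 := by
    have e3 : (wd (rd (Tsq.sq (Y △ .nil)).1)).take (a1.length + 1) = true :: a1 := by
      rw [hw2, List.take_succ_cons, List.take_left']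
      rfl
    rw [e1', List.take_append_of_le_length (by omega)] at e3
    exact e3
  have e4 := h'.pre (a1.length + 1)
  rw [e2, List.count_cons, List.count_cons] at e4
  simp at e4
  omega

/-! ### Case A -/

theorem RH_A (hn : 1 ≤ n) (F : ZMod (2 * n + 1) → ℕ) (ht1 : 1 ≤ F (-1)) :
    ∃ F' : ZMod (2 * n + 1) → ℕ,
      RH n F = app (Ring1.RF n F') ((.nil △ (.nil △ .nil)) △ .nil) ∧
      rr n F = app (rr n F') (.nil △ .nil) := by
  obtain ⟨F', hF'⟩ : ∃ F' : ZMod (2 * n + 1) → ℕ, F' = fun x => F x - if x = -1 then 1 else 0 := ⟨_, rfl⟩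
  have hF : F = fun x => F' x + if x = -1 then 1 else 0 := by
    funext x
    rw [hF']
    by_cases hx : x = -1
    · subst hx
      simp only [if_true]
      omega
    · simp only [if_neg hx]
      omega
  have hs : ∑ x, F x = ∑ x, F' x + 1 := by
    rw [hF, Finset.sum_add_distrib, Finset.sum_ite_eq' Finset.univ (-1) (fun _ => 1), if_pos (Finset.mem_univ _)]
  have er : rr n F = app (rr n F') (.nil △ .nil) := by
    unfold rr
    rw [Ring1.ch_eq, hF]
    exact ins_back (pwX n) F'
  have hg : gH n F = 2 * (rr n F').numNodes + 1 := by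
    unfold gH
    rw [if_pos ht1, rr_num hn, hs]
    ring
  refine ⟨F', ?_, er⟩
  have a1 := (Wd.inf (rr n F')).app Wd.three
  rw [← er] at a1
  refine (Wd_RH hn F).det (a1.cast rfl ?_ rfl)
  rw [zero_add, Multiset.map_singleton, hg, add_comm]

theorem ht_rr (hn : 1 ≤ n) (F : ZMod (2 * n + 1) → ℕ) : n + 1 ≤ Tsq.ht (rr n F) := by
  have h1 := ht_rd_ge (Ring1.RF n F)
  have h2 : rd (Ring1.RF n F) = rr n F := rd_inf _
  have h3 : Tsq.ht (Ring1.RF n F) = n + 2 := by
    rw [H1.ht_eq, ht_eq, Ring1.cont_RF hn, sup_add', Multiset.sup_singleton]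
    have : (Multiset.replicate (∑ x, F x) 2).sup ≤ 2 := Multiset.sup_le.2 fun b hb =>
      (Multiset.eq_of_mem_replicate hb).le
    omega
  rw [h2, h3] at h1
  omega

theorem ht_lvn (t : ℕ) : Tsq.ht (lv t .nil) ≤ 1 := by
  induction t with
  | zero => simp [lv, Tsq.ht]
  | succ t ih =>
    change Tsq.ht (.nil △ lv t .nil) ≤ 1
    rw [Tsq.ht_node]
    change max (0 + 1) _ ≤ 1
    omega

/-- **data of case A** -/
theorem LTX_RH (hn : 1 ≤ n) (F : ZMod (2 * n + 1) → ℕ) (ht1 : 1 ≤ F (-1)) :
    LTX (RH n F) (Tsq.sq (RH n F)).2 (Tsq.sq (RH n F)).1 := by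
  obtain ⟨hS, hB⟩ := caseA hn F ht1
  obtain ⟨F', h1, h2⟩ := RH_A hn F ht1
  have hR := Wd_RH hn F
  obtain ⟨r1, r2, _⟩ := Wd_rd hR
  obtain ⟨b1, b2, _⟩ := Wd_rd hB
  have pR := Wd_one hR
  have pB := Wd_one hB
  have hnum := rr_num hn F
  have hlv : (lv (F (-1)) .nil).numNodes = F (-1) := lv_num' _
  rw [hlv] at b2
  have hnum' := rr_num hn F'
  have hnn : (rr n F).numNodes = (rr n F').numNodes + 1 := by
    rw [h2, num_app]
    rfl
  have hrh : n + 1 ≤ Tsq.ht (rr n F) := ht_rr hn F
  have hRpos : 0 < ln (RH n F) := by rw [r2]; omega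
  have hsum := ln_sq hRpos
  have hRn : RH n F ≠ .nil := by
    intro h
    rw [h] at hRpos
    exact absurd hRpos (by simp [ln_nil])
  have hRF : Ring1.RF n F ≠ .nil := by
    intro h
    have := Ring1.RF_num hn F
    rw [h] at this
    change 0 = _ at this
    omega
  have hhS : Tsq.ht (Tsq.sq (RH n F)).1 = Tsq.ht (RH n F) := (Tsq.ht_sq hRn).1
  have hht : Tsq.ht (RH n F) = n + 2 := by rw [H1.ht_eq]; exact ht_RH hn F
  have hSr := ht_rd_ge (Tsq.sq (RH n F)).1
  have hSln := ln_ge_ht (Tsq.sq (RH n F)).1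
  have pS : ps (Tsq.sq (RH n F)).1 = [] := by
    rw [hS]
    have hb := BF.of_sq (R := Ring1.RF n F) (B := (Tsq.sq (Ring1.RF n F)).2)
      (S := (Tsq.sq (Ring1.RF n F)).1) rfl hRF (by
        rw [Ring1.cont_RF hn, Multiset.count_add, Multiset.count_singleton,
          Multiset.count_replicate, if_neg (by omega), if_neg (by omega)])
    exact hb.pS
  refine ⟨⟨⟨gH n F, ?_, pR⟩, ⟨2 * F (-1) - 1, ?_, ?_, pB⟩, pS, ?_, ?_, ?_, ?_⟩, ?_, ?_, ?_, ?_⟩
  · rw [r2]
    unfold gH
    rw [if_pos ht1, hnum]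
    ring
  · omega
  · omega
  · omega
  · omega
  · rw [h1, comps_app]
    exact ⟨_, rfl⟩
  · intro hb
    have h5 : F (-1) = 1 := by omega
    rw [h5] at hB
    exact hB.det Wd.three
  · rw [r1]; omega
  · omega
  · rw [b1]; exact ht_lvn _
  · intro a b hF
    rw [r1, h2] at hF
    have hF1 : ∃ a' b', H1.FM (rr n F') a' b' := FM_ex (by
      intro h
      rw [h] at hnum'
      change 0 = _ at hnum'
      omega)
    obtain ⟨a', b', hF'⟩ := hF1
    have hh := ht_rr hn F'
    have g := hF'.app_right (Z := .nil △ .nil) (by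
      have : Tsq.ht (.nil △ .nil) = 1 := rfl
      omega)
    obtain ⟨e1, _⟩ := hF.uniq g
    have e2 := congrArg List.length hF'.eq
    rw [wd_length, List.length_append, List.length_cons] at e2
    have e3 := (FM.facts hF').2.2
    have e4 := List.count_le_length (a := false) (l := b')
    rw [e1, r2]
    omega

end Ft

end Pool.OddHC
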