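import Pool.Agent.Work.MP_8f87b2_h11.JI
import Pool.Agent.Work.MP_8f87b2_h35.TyJ5V
import Pool.Agent.Work.MP_8f87b2_h84.TyJE
import Pool.Agent.Work.MP_8f87b2_h63.J4
import Pool.Agent.Work.MP_8f87b2_h40.H2e

/-!
# `GJ g` : all words and inner words of `g` are those of a gadget without hidden beads

`GJ` for the types JM, NM, JY, J5, J4, H, J3V, J5V, JE, J1, Js, Jt, Is9 nil nil S, Is9M nil nil S.
-/

set_option autoImplicit false

namespace Pool.OddHC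

open Finset Equiv BinaryTree Pool.Agent.Work.MP_8f87b2_co

namespace Ft

variable {k : ℕ}

/-- words and inner words of a gadget without hidden beads -/
structure GJ (g : DG k) : Prop where
  w : ∀ w ∈ g.B, JW1 w.1
  i : ∀ a ∈ g.arcs, ∀ w ∈ innA a, JI w

end Ft

variable {k : ℕ} {F : Set (Cyc k)} {g : DG k}

theorem TyJM.gj (h : TyJM F g) : Ft.GJ g := ⟨h.jw, h.ji⟩

theorem TyNM.gj (h : TyNM F g) : Ft.GJ g := ⟨h.jw, h.ji⟩

theorem TyJY.gj (h : TyJY F g) : Ft.GJ g := ⟨h.jw, h.ji⟩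

theorem TyJ5.gj (h : TyJ5 F g) : Ft.GJ g := ⟨h.jw, h.ji⟩

theorem TyJ4.gj (h : TyJ4 F g) : Ft.GJ g := ⟨h.jw, h.ji⟩

theorem TyJ3V.gj (h : TyJ3V F g) : Ft.GJ g := ⟨h.jw, h.ji⟩

theorem J1.TyJ1.gj (h : J1.TyJ1 F g) : Ft.GJ g := ⟨h.jw, h.ji⟩

theorem Is9.gj {S : BinaryTree Unit} (h : Is9 .nil .nil S F g) (h1 : (cont S).count 1 = 0) : Ft.GJ g :=
  ⟨h.jw h1, h.ji h1⟩

theorem Hole2.TyH.gj (h : Hole2.TyH F g) : Ft.GJ g := by
  rcases h.cases with h | h | h | h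
  · exact h.gj
  · exact h.gj
  · exact h.gj
  · exact h.gj

theorem J3.SqD.bf {R B S : BinaryTree Unit} (h : J3.SqD k R B S) : Ft.BF R B S :=
  Ft.BF.of_sq h.sq h.ne h.one

theorem TyJ5V.gj (h : TyJ5V F g) : Ft.GJ g := by
  obtain ⟨R, S, w0, h1, hp, rfl, rfl⟩ := h
  refine ⟨?_, ?_⟩
  · intro w hw
    obtain ⟨i, hi, rfl⟩ := mem_gadJ5_B.1 hw
    have hlt : ∀ i ∈ ixJ5, i < 20 := by decide
    exact ⟨_, _, _, i, hlt i hi, h1.bf, Or.inl (h1.word w0 (hlt i hi))⟩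
  · intro q hq w hw
    have hw' : w = TT q.1 := hw
    subst hw'
    have hq' : q = (J3.sX R .nil S w0 8, J3.sX R .nil S w0 14) := hq
    rw [hq']
    exact ⟨_, _, _, 8, _, h1.bf, by simp, h1.word w0 (by norm_num), Or.inl rfl⟩

theorem TyJE.gj {R : BinaryTree Unit} (h : TyJE R F g) : Ft.GJ g := by
  obtain ⟨B, S, w0, h1, hp, rfl, rfl⟩ := h
  refine ⟨?_, ?_⟩
  · intro w hw
    obtain ⟨i, hi, rfl⟩ := mem_gadOf_B.1 hw
    have hlt : ∀ i ∈ ixG13, i < 20 := by decide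
    exact ⟨_, _, _, i, hlt i hi, h1.bf, Or.inl (h1.word w0 (hlt i hi))⟩
  · intro q hq w hw
    have hw' : w = TT q.1 := hw
    subst hw'
    obtain ⟨r, hr, rfl⟩ := mem_gadOf_arcs.1 hq
    simp only [arG13, List.mem_cons, List.not_mem_nil, or_false] at hr
    rcases hr with rfl | rfl | rfl
    · exact ⟨_, _, _, 3, _, h1.bf, by simp, h1.word w0 (by norm_num), Or.inl rfl⟩
    · exact ⟨_, _, _, 6, _, h1.bf, by simp, h1.word w0 (by norm_num), Or.inl rfl⟩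
    · exact ⟨_, _, _, 9, _, h1.bf, by simp, h1.word w0 (by norm_num), Or.inl rfl⟩

theorem J1.JDat.bf {R B S : BinaryTree Unit} (h : J1.JDat k R B S) : Ft.BF R B S := by
  refine Ft.BF.of_sq h.sq h.ne ?_
  rw [Multiset.count_eq_zero]
  intro hm
  have := h.bare 1 hm
  omega

theorem J1.jY_ji {R B S : BinaryTree Unit} (h : J1.JDat k R B S) (w0 : X k) {i j : ℕ}
    (hij : (i, j) ∈ [(0, 10), (1, 11), (3, 12), (6, 15), (8, 14), (9, 17)]) :
    Ft.JI (TT (J1.jY R B S w0 j)) := by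
  have hi : i ∈ [0, 1, 3, 6, 8, 9] := by
    simp only [List.mem_cons, Prod.mk.injEq, List.not_mem_nil, or_false] at hij ⊢
    omega
  have hlt : ∀ i ∈ [0, 1, 3, 6, 8, 9], i < 20 := by decide
  refine ⟨_, _, _, i, _, h.bf, hi, J1.jX_eq h w0 (hlt i hi), Or.inr ?_⟩
  have h1 := J1.jX_link h w0 hij
  change TT (Tsq.mirX (J1.jX R B S w0 j)) = _
  rw [← h1]
  exact Tsq.TT_mir _

theorem J1.TyJt.gj (h : J1.TyJt F g) : Ft.GJ g := by
  obtain ⟨n, w0, _, h1, h4, rfl, rfl⟩ := h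
  refine ⟨?_, ?_⟩
  · intro w hw
    obtain ⟨i, hi, rfl⟩ := J1.mem_gadJAM.1 hw
    exact ⟨_, _, _, i, hi, h1.bf, Or.inr (J1.jY_val h1 w0 hi)⟩
  · intro q hq w hw
    have hw' : w = TT q.1 := hw
    subst hw'
    rcases hq with e | e | e | e | e
    · subst e; exact J1.jY_ji h1 w0 (i := 1) (by simp)
    · subst e; exact J1.jY_ji h1 w0 (i := 3) (by simp)
    · subst e; exact J1.jY_ji h1 w0 (i := 6) (by simp)
    · subst e; exact J1.jY_ji h1 w0 (i := 8) (by simp)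
    · subst e; exact J1.jY_ji h1 w0 (i := 9) (by simp)

theorem Is9M.gj {S : BinaryTree Unit} (h : Is9M .nil .nil S F g) (h1 : (cont S).count 1 = 0) :
    Ft.GJ g := by
  obtain ⟨w9, hD, rfl, rfl⟩ := h
  have hm := hD.mir
  have hb : Ft.BF (Tsq.mir S) (Tsq.sq (Tsq.mir S)).2 (Tsq.sq (Tsq.mir S)).1 :=
    Ft.BF.of_sq rfl hm.ne (by rw [HM.cont_mir]; exact h1)
  have hlt : ∀ i < 9, ix9W i < 20 := by decide
  have hval : ∀ i < 9, (w9 i).1 = Tsq.mir (H1.W (Tsq.mir S) .nil (Tsq.sq (Tsq.mir S)).2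
      (Tsq.sq (Tsq.mir S)).1 (ix9W i)) := by
    intro i hi
    have e := (hm.word i hi).trans (w9_W hi)
    rw [← e]
    exact (Tsq.mir_mir _).symm
  obtain ⟨a3, a4, a5⟩ := hm.arcs
  have key : ∀ i j, TT (TT (Tsq.mirX (w9 i))) = Tsq.mirX (w9 j) →
      TT (w9 j) = Tsq.mirX (TT (Tsq.mirX (w9 i))) := by
    intro i j e
    have e1 : w9 j = Tsq.mirX (TT (TT (Tsq.mirX (w9 i)))) := by rw [e, mirX_mirX]
    rw [e1, Tsq.TT_mir]
  refine ⟨?_, ?_⟩
  · intro w hw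
    obtain ⟨i, hi, rfl⟩ := mem_gad9M.1 hw
    exact ⟨_, _, _, ix9W i, hlt i hi, hb, Or.inr (hval i hi)⟩
  · intro q hq w hw
    have hw' : w = TT q.1 := hw
    subst hw'
    rcases hq with e | e | e
    · subst e
      exact ⟨_, _, _, 9, Tsq.mirX (w9 3), hb, by simp,
        (hm.word 3 (by norm_num)).trans (w9_W (i := 3) (by norm_num)), Or.inr (key 3 6 a3)⟩
    · subst e
      exact ⟨_, _, _, 3, Tsq.mirX (w9 4), hb, by simp,
        (hm.word 4 (by norm_num)).trans (w9_W (i := 4) (by norm_num)), Or.inr (key 4 7 a4)⟩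
    · subst e
      exact ⟨_, _, _, 6, Tsq.mirX (w9 5), hb, by simp,
        (hm.word 5 (by norm_num)).trans (w9_W (i := 5) (by norm_num)), Or.inr (key 5 8 a5)⟩

end Pool.OddHC
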