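import Pool.Agent.Work.MP_8f87b2_h11.T

/-!
# Inner words, with and without a hidden bead

`JIP` : the property of the inner words of the gadgets without hidden beads (`JIP_T`). `LTX.not_JIP`, `LZX.not_JIP` : the
words of a gadget with one hidden bead do not have it. `LTX.inner`, `LZX.inner` : the inner words of a gadget with one
hidden bead are not words without hidden beads.
-/

set_option autoImplicit false

namespace Pool.OddHC

open BinaryTree Equiv Pool.Agent.Work.MP_8f87b2_co

namespace Ft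

variable {k : ℕ}

/-- property of the inner words of the gadgets without hidden beads -/
def JIP (w : BinaryTree Unit) : Prop :=
  ps w = [] ∨ (∃ z, ps w = [z, z]) ∨
    ∃ a b z, H1.FM (rd w) a b ∧ ps w = [z] ∧ a.length ≤ z ∧ z ≤ a.length + 2

theorem rd_W {R B S : BinaryTree Unit} (hR : 0 < ln R) (hS : 0 < ln S)
    (hB : B = .nil ∨ 0 < ln B) :
    rd (H1.W R .nil B S 0) = app (rd R) (.nil △ .nil) ∧
    rd (H1.W R .nil B S 1) = rd R ∧
    rd (H1.W R .nil B S 3) = rd R △ .nil ∧
    rd (H1.W R .nil B S 4) = .nil △ rd R ∧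
    rd (H1.W R .nil B S 6) = rd R △ .nil ∧
    rd (H1.W R .nil B S 8) = rd R △ .nil ∧
    rd (H1.W R .nil B S 9) = (rd R △ .nil) △ .nil ∧
    rd (H1.W R .nil B S 10) = app (rd B) (.nil △ rd S) ∧
    rd (H1.W R .nil B S 13) = app (rd S) (rd B △ .nil) ∧
    rd (H1.W R .nil B S 17) = (rd S △ rd B) △ .nil ∧
    (B ≠ .nil → rd (H1.W R .nil B S 19) = app (rd S) (rd B △ .nil) △ .nil) := by
  have hRn : R ≠ .nil := by rintro rfl; exact absurd hR (by simp [ln_nil])
  have hSn : S ≠ .nil := by rintro rfl; exact absurd hS (by simp [ln_nil])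
  have a0 : ∀ {P Q : BinaryTree Unit}, P ≠ .nil → app P Q ≠ .nil := by
    intro P Q h
    cases P with
    | nil => exact absurd rfl h
    | node _ _ _ => simp [app]
  have a1 : ∀ {P A Q : BinaryTree Unit}, app P (A △ Q) ≠ .nil := by
    intro P A Q
    cases P with
    | nil => simp [app]
    | node _ _ _ => simp [app]
  have e1 : rd (.nil △ .nil) = .nil := rfl
  refine ⟨?_, ?_, ?_, ?_, ?_, ?_, ?_, ?_, ?_, ?_, ?_⟩
  · change rd (app R ((.nil △ .nil) △ .nil)) = _
    rw [rd_app, rd_node (by simp), e1]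
    rfl
  · change rd (app R (.nil △ (.nil △ .nil))) = _
    rw [rd_app, rd_leaf, rd_leaf, rd_nil, H1.app_nil]
  · change rd ((app R (.nil △ .nil)) △ .nil) = _
    rw [rd_node (a0 hRn), rd_app, rd_leaf, rd_nil, H1.app_nil]
  · change rd ((.nil △ .nil) △ R) = _
    rw [rd_node (by simp), e1]
  · change rd (R △ (.nil △ .nil)) = _
    rw [rd_node hRn, e1]
  · change rd (.nil △ (R △ .nil)) = _
    rw [rd_leaf, rd_node hRn, rd_nil]
  · change rd ((R △ .nil) △ .nil) = _
    rw [rd_node (by simp), rd_node hRn, rd_nil]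
  · change rd (app B ((.nil △ .nil) △ S)) = _
    rw [rd_app, rd_node (by simp), e1]
  · change rd (app S (app B (.nil △ .nil) △ .nil)) = _
    rw [rd_app, rd_node a1, rd_app, e1, rd_nil, H1.app_nil]
  · change rd ((S △ B) △ .nil) = _
    rw [rd_node (by simp), rd_node hSn, rd_nil]
  · intro hBn
    change rd ((app S (B △ .nil)) △ .nil) = _
    rw [rd_node (a0 hSn), rd_app, rd_node hBn, rd_nil]

theorem ps_len {w : BinaryTree Unit} {L : List ℕ} {n : ℕ} (h : ps w = L) (h2 : L.length = n) :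
    (ps w).length = n := by rw [h, h2]

theorem FM_le {A : BinaryTree Unit} {a b : List Bool} (h : H1.FM (rd A) a b) :
    a.length + 2 ≤ ln A := by
  have h1 := FM_len h
  have h2 := (FM.facts h).2.2
  have h3 := h.pos
  have h4 := List.count_le_length (a := false) (l := b)
  omega

theorem JIP.mirz {w : BinaryTree Unit} (h : ps w = []) : JIP (Tsq.mir w) := by
  left
  rw [ps_mir, h]
  rfl

/-- **the inner words of the gadgets without hidden beads** -/
theorem JIP_T {R B S : BinaryTree Unit} (h : BF R B S) {x : X k} {j : ℕ}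
    (hj : j ∈ [0, 1, 3, 6, 8, 9]) (hx : x.1 = H1.W R .nil B S j) :
    JIP (TT x).1 ∧ JIP (Tsq.mir (TT x).1) := by
  obtain ⟨t0, t1, t3, _, t6, t8, t9, _⟩ := rd_W h.r0 h.s0 h.hB
  have hj20 : j < 20 := by
    have : ∀ j ∈ [0, 1, 3, 6, 8, 9], j < 20 := by decide
    exact this j hj
  obtain ⟨l1, l2⟩ := LN_PP h.r0 h.s0 h.hB hj20
  rw [h.pR, h.pB, h.pS] at l2
  rw [← hx] at l1 l2
  have hpos : 0 < ln x.1 := by
    have h0 := h.r0
    rw [l1]
    simp only [List.mem_cons, List.not_mem_nil, or_false] at hj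
    rcases hj with rfl | rfl | rfl | rfl | rfl | rfl <;> simp only [LN] <;> omega
  obtain ⟨a, b, hF⟩ := FM_ex (rd_ne h.r0)
  have hle := FM_le hF
  have hlen := FM_len hF
  have zero : ps x.1 = [] → JIP (TT x).1 ∧ JIP (Tsq.mir (TT x).1) := by
    intro h0
    obtain ⟨a', b', hF'⟩ := FM_ex (rd_ne hpos)
    obtain ⟨_, _, h3, _⟩ := T_all x hF'
    rw [h0] at h3
    have h4 := List.eq_nil_of_length_eq_zero h3
    exact ⟨Or.inl h4, JIP.mirz h4⟩
  have hN : H1.FM (rd R △ .nil) (true :: a) (b ++ false :: wd .nil) :=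
    hF.node (Z := .nil) (by simp [Tsq.ht])
  -- one bead
  have one : ∀ β, rd x.1 = rd R △ .nil → ln x.1 = ln R + 2 → ps x.1 = [β] →
      (β = ln R + 1 ∨ β = ln R + 2 ∨ β = 0) → JIP (TT x).1 ∧ JIP (Tsq.mir (TT x).1) := by
    intro β e1 e2 e3 e4
    rw [← e1] at hN
    obtain ⟨h1, h2, h3, h4⟩ := T_all x hN
    rw [e3] at h3 h4
    rw [e2] at h2 h4
    obtain ⟨γ, hγ⟩ := List.length_eq_one_iff.1 h3
    have h5 := (h4 γ).1 (by rw [hγ]; simp)
    rw [List.length_cons, List.mem_singleton] at h5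
    obtain ⟨h5, h6⟩ := h5
    have h7 : wd (rd (TT x).1) = b.map not ++ true :: false :: false :: a.map not := by
      rw [h1]
      simp [wd]
    have hb := b.length_map not
    have hγ2 : b.length ≤ γ ∧ γ ≤ b.length + 2 := by
      rcases lt_or_ge (γ + (a.length + 1 + 1)) (ln R + 2 + 1) with h8 | h8
      · rw [Nat.mod_eq_of_lt h8] at h6
        omega
      · rw [Nat.mod_eq_sub_mod h8, Nat.mod_eq_of_lt (by omega)] at h6
        omega
    refine ⟨Or.inr (Or.inr ⟨_, _, γ, FM_T hF h7, hγ, ?_, ?_⟩),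
      Or.inr (Or.inr ⟨a.reverse ++ [true], false :: b.reverse, ln R + 2 - γ, ?_, ?_, ?_, ?_⟩)⟩
    · rw [hb]; omega
    · rw [hb]; omega
    · rw [rd_mir]
      exact FM_T_mir hF h7
    · rw [ps_mir, hγ, h2]
      rfl
    · rw [List.length_append, List.length_reverse, List.length_singleton]; omega
    · rw [List.length_append, List.length_reverse, List.length_singleton]; omega
  simp only [List.mem_cons, List.not_mem_nil, or_false] at hj
  rcases hj with rfl | rfl | rfl | rfl | rfl | rfl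
  · exact zero l2
  · -- two beads
    have e2 : ps x.1 = [ln R, ln R] := l2
    have e1 : ln x.1 = ln R := l1
    have e3 : rd x.1 = rd R := by rw [hx, t1]
    rw [← e3] at hF
    obtain ⟨h1, h2, h3, h4⟩ := T_all x hF
    rw [e2] at h3 h4
    rw [e1] at h2 h4
    obtain ⟨z1, z2, hz⟩ := List.length_eq_two.1 h3
    have key : ∀ z ∈ ps (TT x).1, z + (a.length + 1) = ln R := by
      intro z hz'
      obtain ⟨h5, h6⟩ := (h4 z).1 hz'
      have h6 : (z + (a.length + 1)) % (ln R + 1) = ln R := by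
        simpa using h6
      rcases lt_or_ge (z + (a.length + 1)) (ln R + 1) with h8 | h8
      · rw [Nat.mod_eq_of_lt h8] at h6
        exact h6
      · rw [Nat.mod_eq_sub_mod h8, Nat.mod_eq_of_lt (by omega)] at h6
        omega
    have k1 := key z1 (by rw [hz]; simp)
    have k2 := key z2 (by rw [hz]; simp)
    have k3 : z2 = z1 := by omega
    subst k3
    refine ⟨Or.inr (Or.inl ⟨_, hz⟩), Or.inr (Or.inl ⟨ln R - z2, ?_⟩)⟩
    rw [ps_mir, hz, h2]
    rfl
  · exact one _ (by rw [hx, t3]) l1 l2 (Or.inl rfl)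
  · exact one _ (by rw [hx, t6]) l1 l2 (Or.inr (Or.inl rfl))
  · exact one _ (by rw [hx, t8]) l1 l2 (Or.inr (Or.inr rfl))
  · exact zero l2

/-! ### Data with one hidden bead -/

/-- one hidden bead, `B` not empty -/
structure LTX (R B S : BinaryTree Unit) : Prop extends LT R B S where
  hR : 2 ≤ Tsq.ht (rd R)
  hSr : 2 ≤ Tsq.ht (rd S)
  hBr : Tsq.ht (rd B) ≤ 1
  hFM : ∀ a b, H1.FM (rd R) a b → a.length + 4 ≤ ln R

/-- one hidden bead, `B` empty -/
structure LZX (R S : BinaryTree Unit) : Prop extends LZ R S where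
  hR : 2 ≤ Tsq.ht (rd R)
  hSr : 2 ≤ Tsq.ht (rd S)
  hFM : ∀ a b, H1.FM (rd R) a b → a.length + 6 ≤ ln R
  hFMS : ∀ a b, H1.FM (rd S) a b → a.length + 5 ≤ ln R

/-- first maxima of `R` and `S` -/
theorem sq_FM {r s b0 : BinaryTree Unit} (hs : Tsq.sq r = (s, b0)) (h2 : 2 ≤ Tsq.ht r)
    {a b : List Bool} (h : H1.FM r a b) :
    Tsq.ht s = Tsq.ht r ∧ (∃ c : List Bool, b = c ++ false :: wd b0 ∧ 1 ≤ c.length) ∧
      ∀ a' b', H1.FM s a' b' → a'.length ≤ a.length := by
  have hr : r ≠ .nil := by rintro rfl; simp [Tsq.ht] at h2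
  obtain ⟨a0, c, h1, h2', h3, h4, h5, h6, h7⟩ := Tsq.sq_spec r hr
  have h0 : H1.FM r a0 (c ++ false :: wd (Tsq.sq r).2) := ⟨h1, h3, h4⟩
  obtain ⟨rfl, rfl⟩ := h.uniq h0
  have hh := (Tsq.ht_sq hr).1
  rw [hs] at h2' hh
  change Tsq.ht s = Tsq.ht r at hh
  change wd s = true :: (a ++ false :: c) at h2'
  refine ⟨hh, ⟨c, by rw [hs], ?_⟩, ?_⟩
  · have := List.count_le_length (a := false) (l := c)
    omega
  · intro a' b' h'
    by_contra hlt
    push Not at hlt
    have e1 := h'.eq
    have e2 : a'.take (a.length + 1) = true :: a := by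
      have e3 : (wd s).take (a.length + 1) = true :: a := by
        rw [h2', List.take_succ_cons, List.take_left']
        rfl
      rw [e1, List.take_append_of_le_length (by omega)] at e3
      exact e3
    have e4 := h'.pre (a.length + 1)
    rw [e2, hh, List.count_cons, List.count_cons] at e4
    simp at e4
    omega

/-- one bead or two equal beads -/
theorem oneT {N x y b s i : ℕ} (hi : i < 20) (h1 : x + 1 = N) (h2 : y + 1 = b)
    (h3 : s + b = N) (h4 : 4 ≤ s) (h5 : 0 < y) :
    PP [x] [y] [] N b s i ≠ [] ∧ (∀ z, PP [x] [y] [] N b s i ≠ [z, z]) ∧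
    ∀ z, PP [x] [y] [] N b s i = [z] →
      (i = 0 ∧ z = x) ∨ (i = 4 ∧ z = x + 2) ∨ (i = 9 ∧ z = x + 2) ∨ (i = 10 ∧ z = y) ∨
      (i = 17 ∧ z = y + s + 3) ∨ (i = 19 ∧ z = y + s + 2) := by
  have hb : ¬ b = 0 := by omega
  interval_cases i <;>
    simp only [PP, if_neg hb, List.map_nil, List.map_cons, List.append_nil,
        List.nil_append, List.cons_append, List.cons.injEq, reduceCtorEq, and_false, false_and,
        false_or, or_false, and_true, ne_eq, not_false_eq_true, true_and, not_and,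
        implies_true, false_implies] <;>
    (try refine ⟨?_, ?_⟩) <;> intros <;> omega

theorem oneZ {N x y i : ℕ} (hi : i < 20) (h1 : x + 3 = N) (h2 : y + 2 = N) (h4 : 6 ≤ N) :
    PP [x] [] [y] N 0 N i ≠ [] ∧ (∀ z, PP [x] [] [y] N 0 N i ≠ [z, z]) ∧
    ∀ z, PP [x] [] [y] N 0 N i = [z] →
      (i = 0 ∧ z = x) ∨ (i = 4 ∧ z = x + 2) ∨ (i = 9 ∧ z = x + 2) ∨ (i = 10 ∧ z = y + 2) ∨
      (i = 13 ∧ z = y) ∨ (i = 17 ∧ z = y + 2) := by
  interval_cases i <;>
    simp only [PP, if_true, List.map_nil, List.map_cons, List.append_nil,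
        List.nil_append, List.cons_append, List.cons.injEq, reduceCtorEq, and_false, false_and,
        false_or, or_false, and_true, ne_eq, not_false_eq_true, true_and, not_and,
        implies_true, false_implies] <;>
    (try refine ⟨?_, ?_⟩) <;> intros <;> omega

variable {R B S : BinaryTree Unit} {i : ℕ}

/-- **the words with a hidden bead are not inner words of the gadgets without hidden beads** -/
theorem LTX.not_JIP (h : LTX R B S) (hi : i < 20) : ¬ JIP (H1.W R .nil B S i) := by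
  obtain ⟨hr, hs, hb⟩ := h.toLT.pos
  obtain ⟨x, hx, pR⟩ := h.pR
  obtain ⟨y, hy, hy0, pB⟩ := h.pB
  have hsum := h.sum
  obtain ⟨l1, l3⟩ := LN_PP hr hs (Or.inr hb) hi
  rw [pR, pB, h.pS] at l3
  obtain ⟨q1, q2, q3⟩ := oneT hi hx hy hsum h.s4 hy0
  have hBn : B ≠ .nil := by rintro rfl; exact absurd hb (by simp [ln_nil])
  obtain ⟨t0, t1, t3, t4, t6, t8, t9, t10, t13, t17, t19⟩ := rd_W hr hs (Or.inr hb)
  obtain ⟨aR, bR, fR⟩ := FM_ex (rd_ne hr)
  obtain ⟨aS, bS, fS⟩ := FM_ex (rd_ne hs)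
  have hRh := h.hR
  have hSh := h.hSr
  have hBh := h.hBr
  have lR := h.hFM _ _ fR
  have lS := FM_len fS
  have e1 : Tsq.ht (.nil △ .nil) = 1 := rfl
  have e2 : (wd (.nil △ .nil)).length = 2 := rfl
  have e0 : Tsq.ht (.nil : BinaryTree Unit) = 0 := rfl
  rintro (h1 | ⟨z, h1⟩ | ⟨a, b, z, hF, h1, h2, h3⟩)
  · exact q1 (l3.symm.trans h1)
  · exact q2 z (l3.symm.trans h1)
  · have two : 2 ≤ bS.length := by
      have g1 := (FM.facts fS).2.2
      have g2 := List.count_le_length (a := false) (l := bS)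
      omega
    rcases q3 z (l3.symm.trans h1) with ⟨rfl, rfl⟩ | ⟨rfl, rfl⟩ | ⟨rfl, rfl⟩ | ⟨rfl, rfl⟩ | ⟨rfl, rfl⟩ |
      ⟨rfl, rfl⟩
    · rw [t0] at hF
      have g := fR.app_right (Z := .nil △ .nil) (by omega)
      have := (hF.uniq g).1
      rw [this] at h2 h3
      omega
    · rw [t4] at hF
      have g := fR.app_left (P := .nil △ .nil) (by omega)
      have := (hF.uniq g).1
      rw [this, List.length_append, e2] at h2 h3
      omega
    · rw [t9] at hF
      have g := (fR.node (Z := .nil) (by omega)).node (Z := .nil) (by omega)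
      have := (hF.uniq g).1
      rw [this, List.length_cons, List.length_cons] at h2 h3
      omega
    · rw [t10] at hF
      have g := fS.app_left (P := app (rd B) (.nil △ .nil)) (by rw [Tsq.ht_app]; omega)
      rw [H1.app_assoc] at g
      have := (hF.uniq g).1
      rw [this, List.length_append, wd_app, List.length_append, wd_rd, e2] at h2 h3
      omega
    · rw [t17] at hF
      have g := (fS.node (Z := rd B) (by omega)).node (Z := .nil) (by omega)
      have := (hF.uniq g).1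
      rw [this, List.length_cons, List.length_cons] at h2 h3
      omega
    · rw [t19 hBn] at hF
      have g := (fS.app_right (Z := rd B △ .nil) (by rw [Tsq.ht_node]; omega)).node (Z := .nil) (by omega)
      have := (hF.uniq g).1
      rw [this, List.length_cons] at h2 h3
      omega

theorem LZX.not_JIP (h : LZX R S) (hi : i < 20) : ¬ JIP (H1.W R .nil .nil S i) := by
  obtain ⟨x, hx, pR⟩ := h.pR
  obtain ⟨y, hy, pS⟩ := h.pS
  have h6 := h.s6
  have hsum := h.sum
  have hr : 0 < ln R := by omega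
  have hs : 0 < ln S := by omega
  obtain ⟨l1, l3⟩ := LN_PP (R := R) (S := S) (B := .nil) hr hs (Or.inl rfl) hi
  rw [pR, pS, ps_nil, ln_nil, hsum] at l3
  obtain ⟨q1, q2, q3⟩ := oneZ hi hx hy h6
  obtain ⟨t0, t1, t3, t4, t6, t8, t9, t10, t13, t17, _⟩ := rd_W (R := R) (S := S) (B := .nil) hr hs
    (Or.inl rfl)
  obtain ⟨aR, bR, fR⟩ := FM_ex (rd_ne hr)
  obtain ⟨aS, bS, fS⟩ := FM_ex (rd_ne hs)
  have hRh := h.hR
  have hSh := h.hSr
  have hSa := h.hFMS _ _ fS
  have hg := h.hFM _ _ fR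
  have e1 : Tsq.ht (.nil △ .nil) = 1 := rfl
  have e2 : (wd (.nil △ .nil)).length = 2 := rfl
  have e0 : Tsq.ht (.nil : BinaryTree Unit) = 0 := rfl
  rintro (h1 | ⟨z, h1⟩ | ⟨a, b, z, hF, h1, h2, h3⟩)
  · exact q1 (l3.symm.trans h1)
  · exact q2 z (l3.symm.trans h1)
  · rcases q3 z (l3.symm.trans h1) with ⟨rfl, rfl⟩ | ⟨rfl, rfl⟩ | ⟨rfl, rfl⟩ | ⟨rfl, rfl⟩ | ⟨rfl, rfl⟩ |
      ⟨rfl, rfl⟩
    · rw [t0] at hF
      have g := fR.app_right (Z := .nil △ .nil) (by omega)
      have := (hF.uniq g).1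
      rw [this] at h2 h3
      omega
    · rw [t4] at hF
      have g := fR.app_left (P := .nil △ .nil) (by omega)
      have := (hF.uniq g).1
      rw [this, List.length_append, e2] at h2 h3
      omega
    · rw [t9] at hF
      have g := (fR.node (Z := .nil) (by omega)).node (Z := .nil) (by omega)
      have := (hF.uniq g).1
      rw [this, List.length_cons, List.length_cons] at h2 h3
      omega
    · rw [t10, rd_nil] at hF
      have g := fS.app_left (P := .nil △ .nil) (by omega)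
      have := (hF.uniq g).1
      rw [this, List.length_append, e2] at h2 h3
      omega
    · rw [t13, rd_nil] at hF
      have g := fS.app_right (Z := .nil △ .nil) (by omega)
      have := (hF.uniq g).1
      rw [this] at h2 h3
      omega
    · rw [t17, rd_nil] at hF
      have g := (fS.node (Z := .nil) (by omega)).node (Z := .nil) (by omega)
      have := (hF.uniq g).1
      rw [this, List.length_cons, List.length_cons] at h2 h3
      omega

/-! ### Inner words with a hidden bead -/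

/-- the words without hidden beads: at most one bead, or two equal beads, or the two end gaps -/
theorem JW1.p {w : BinaryTree Unit} (h : JW1 w) :
    (ps w).length ≤ 1 ∨ (∃ z, ps w = [z, z]) ∨ ps w = [0, ln w] := by
  obtain ⟨R, B, S, i, hi, hd, hw⟩ := h
  obtain ⟨l1, l2⟩ := LN_PP hd.r0 hd.s0 hd.hB hi
  rw [hd.pR, hd.pB, hd.pS] at l2
  have hc := clsJ (r := ln R) (b := ln B) (s := ln S) hi
  rw [← l2, ← l1] at hc
  have main : (ps (H1.W R .nil B S i)).length ≤ 1 ∨ (∃ z, ps (H1.W R .nil B S i) = [z, z]) ∨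
      ps (H1.W R .nil B S i) = [0, ln (H1.W R .nil B S i)] := by
    rcases hc with hc | hc | ⟨hc, _⟩ | hc | ⟨z, _, hc, _⟩ | hc | hc
    · left; rw [hc]; simp
    · left; rw [hc]; simp
    · left; rw [hc]; simp
    · left; rw [hc]; simp
    · left; rw [hc]; simp
    · exact Or.inr (Or.inl hc)
    · exact Or.inr (Or.inr hc)
  rcases hw with rfl | rfl
  · exact main
  · rcases main with hm | ⟨z, hm⟩ | hm
    · left
      rw [ps_mir]
      simpa using hm
    · right; left
      exact ⟨ln (H1.W R .nil B S i) - z, by rw [ps_mir, hm]; rfl⟩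
    · right; right
      rw [ps_mir, hm, ln_mir]
      simp

theorem not_p {w : BinaryTree Unit} {p q : ℕ} (hp : p ∈ ps w) (hq : q ∈ ps w) (hne : p ≠ q)
    (h0 : 0 < p) (h1 : p < ln w) : ¬ JW1 w := by
  intro h
  rcases h.p with h2 | ⟨z, h2⟩ | h2
  · rcases Nat.lt_or_ge (ps w).length 1 with h3 | h3
    · have : ps w = [] := List.eq_nil_of_length_eq_zero (by omega)
      rw [this] at hp
      simp at hp
    · obtain ⟨z, hz⟩ := List.length_eq_one_iff.1 (le_antisymm h2 h3)
      rw [hz, List.mem_singleton] at hp hq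
      omega
  · rw [h2] at hp hq
    simp at hp hq
    omega
  · rw [h2] at hp
    simp at hp
    omega

/-- two beads of `W R nil B S i`, `i = 3, 6, 8`, and three for `i = 1` -/
theorem innX {R B S : BinaryTree Unit} (hr : 0 < ln R) (hs : 0 < ln S) (hB : B = .nil ∨ 0 < ln B)
    {v : ℕ} (hv : ps R = [v]) (hv1 : v < ln R) (hFM : ∀ a b, H1.FM (rd R) a b → a.length + 2 ≤ v)
    {x : X k} (hi : i ∈ [1, 3, 6, 8]) (hx : x.1 = H1.W R .nil B S i) : ¬ JW1 (TT x).1 := by
  obtain ⟨_, t1, t3, _, t6, t8, _⟩ := rd_W hr hs hB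
  have hi20 : i < 20 := by
    have : ∀ j ∈ [1, 3, 6, 8], j < 20 := by decide
    exact this i hi
  obtain ⟨l1, l2⟩ := LN_PP hr hs hB hi20
  rw [← hx] at l1 l2
  rw [hv] at l2
  obtain ⟨a, b, hF⟩ := FM_ex (rd_ne hr)
  have hle := hFM _ _ hF
  have hlen := FM_len hF
  have hN : H1.FM (rd R △ .nil) (true :: a) (b ++ false :: wd .nil) :=
    hF.node (Z := .nil) (by simp [Tsq.ht])
  have two : ∀ q, rd x.1 = rd R △ .nil → ln x.1 = ln R + 2 → v + 1 ∈ ps x.1 → q ∈ ps x.1 →
      (ln R + 1 = q ∨ ln R + 2 = q ∨ q = 0) → ¬ JW1 (TT x).1 := by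
    intro q e1 e2 e3 e4 e5
    rw [← e1] at hN
    obtain ⟨h1, h2, h3, h4⟩ := T_all x hN
    rw [e2] at h2 h4
    rw [List.length_cons] at h4
    have hp : v + 1 - (a.length + 2) ∈ ps (TT x).1 := by
      rw [h4]
      refine ⟨by omega, ?_⟩
      have e6 : v + 1 - (a.length + 2) + (a.length + 1 + 1) = v + 1 := by omega
      rw [e6, Nat.mod_eq_of_lt (by omega)]
      exact e3
    rcases e5 with e5 | e5 | e5
    · have hq : q - (a.length + 2) ∈ ps (TT x).1 := by
        rw [h4]
        refine ⟨by omega, ?_⟩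
        have e6 : q - (a.length + 2) + (a.length + 1 + 1) = q := by omega
        rw [e6, Nat.mod_eq_of_lt (by omega)]
        exact e4
      exact not_p hp hq (by omega) (by omega) (by omega)
    · have hq : q - (a.length + 2) ∈ ps (TT x).1 := by
        rw [h4]
        refine ⟨by omega, ?_⟩
        have e6 : q - (a.length + 2) + (a.length + 1 + 1) = q := by omega
        rw [e6, Nat.mod_eq_of_lt (by omega)]
        exact e4
      exact not_p hp hq (by omega) (by omega) (by omega)
    · have hq : ln R + 3 - (a.length + 2) ∈ ps (TT x).1 := by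
        rw [h4]
        refine ⟨by omega, ?_⟩
        have e6 : ln R + 3 - (a.length + 2) + (a.length + 1 + 1) = ln R + 2 + 1 := by omega
        rw [e6, Nat.mod_self]
        rw [e5] at e4
        exact e4
      exact not_p hp hq (by omega) (by omega) (by omega)
  simp only [List.mem_cons, List.not_mem_nil, or_false] at hi
  rcases hi with rfl | rfl | rfl | rfl
  · intro hJ
    have e3 : rd x.1 = rd R := by rw [hx, t1]
    rw [← e3] at hF
    obtain ⟨h1, h2, h3, h4⟩ := T_all x hF
    rw [l2] at h3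
    change (ps (TT x).1).length = 3 at h3
    rcases hJ.p with h5 | ⟨z, h5⟩ | h5
    · omega
    · rw [h5] at h3; simp at h3
    · rw [h5] at h3; simp at h3
  · refine two (ln R + 1) (by rw [hx, t3]) l1 ?_ ?_ (Or.inl rfl)
    · rw [l2]; simp [PP]
    · rw [l2]; simp [PP]
  · refine two (ln R + 2) (by rw [hx, t6]) l1 ?_ ?_ (Or.inr (Or.inl rfl))
    · rw [l2]; simp [PP]
    · rw [l2]; simp [PP]
  · refine two 0 (by rw [hx, t8]) l1 ?_ ?_ (Or.inr (Or.inr rfl))
    · rw [l2]; simp [PP]
    · rw [l2]; simp [PP]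

/-- **inner words with a hidden bead are not words without hidden beads** -/
theorem LTX.inner (h : LTX R B S) {x : X k} (hi : i ∈ [1, 3, 6, 8])
    (hx : x.1 = H1.W R .nil B S i) : ¬ JW1 (TT x).1 := by
  obtain ⟨hr, hs, hb⟩ := h.toLT.pos
  obtain ⟨v, hv, pR⟩ := h.pR
  refine innX hr hs (Or.inr hb) pR (by omega) ?_ hi hx
  intro a b hF
  have := h.hFM _ _ hF
  omega

theorem LZX.inner (h : LZX R S) {x : X k} (hi : i ∈ [1, 3, 6, 8])
    (hx : x.1 = H1.W R .nil .nil S i) : ¬ JW1 (TT x).1 := by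
  have h6 := h.s6
  have hsum := h.sum
  obtain ⟨v, hv, pR⟩ := h.pR
  refine innX (B := .nil) (S := S) (by omega) (by omega) (Or.inl rfl) pR (by omega) ?_ hi hx
  intro a b hF
  have := h.hFM _ _ hF
  omega

end Ft

end Pool.OddHC
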