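import Pool.Agent.Work.MP_8f87b2_h11.JW
import Pool.Agent.Work.MP_8f87b2_h11.T2

/-!
# The inner words of the J types

`Ft.JI x` for every inner word `x` of a gadget of type JM, NM, JY, J5, J4, J3V, J1, Is9 nil nil S.
-/

set_option autoImplicit false

namespace Pool.OddHC

open Finset Equiv BinaryTree Pool.Agent.Work.MP_8f87b2_co

namespace Ft

variable {k : ℕ}

/-- inner words of the gadgets without hidden beads -/
def JI (x : X k) : Prop :=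
  ∃ (R B S : BinaryTree Unit) (j : ℕ) (y : X k), BF R B S ∧ j ∈ [0, 1, 3, 6, 8, 9] ∧
    y.1 = H1.W R .nil B S j ∧ (x = TT y ∨ x = Tsq.mirX (TT y))

theorem JI.p {x : X k} (h : JI x) : JIP x.1 ∧ JIP (Tsq.mir x.1) := by
  obtain ⟨R, B, S, j, y, h1, hj, hy, hx⟩ := h
  obtain ⟨h2, h3⟩ := JIP_T h1 hj hy
  rcases hx with rfl | rfl
  · exact ⟨h2, h3⟩
  · refine ⟨h3, ?_⟩
    change JIP (Tsq.mir (Tsq.mir (TT y).1))
    rw [Tsq.mir_mir]
    exact h2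

end Ft

variable {k : ℕ} {F : Set (Cyc k)} {g : DG k}

theorem J.Sh.ji {p : ℕ} {D : BinaryTree Unit} {t : ℕ} {D' : BinaryTree Unit} {u : ℕ}
    (h : J.Sh k p D t D' u) (w0 : X k) {i : ℕ} (hi : i ∈ [0, 1, 3, 6, 8, 9]) :
    Ft.JI (TT (J.jX p D t D' u w0 i)) := by
  have hlt : ∀ i ∈ [0, 1, 3, 6, 8, 9], i < 20 := by decide
  exact ⟨_, _, _, i, _, h.bf, hi, h.word w0 (hlt i hi), Or.inl rfl⟩

theorem J.Sh.jiM {p : ℕ} {D : BinaryTree Unit} {t : ℕ} {D' : BinaryTree Unit} {u : ℕ}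
    (h : J.Sh k p D t D' u) (w0 : X k) {i j : ℕ}
    (hij : (i, j) ∈ [(0, 10), (1, 11), (3, 12), (6, 15), (8, 14), (9, 17)]) :
    Ft.JI (TT (J.jM p D t D' u w0 j)) := by
  have hi : i ∈ [0, 1, 3, 6, 8, 9] := by
    simp only [List.mem_cons, Prod.mk.injEq, List.not_mem_nil, or_false] at hij ⊢
    omega
  have hlt : ∀ i ∈ [0, 1, 3, 6, 8, 9], i < 20 := by decide
  refine ⟨_, _, _, i, _, h.bf, hi, h.word w0 (hlt i hi), Or.inr ?_⟩
  have h1 := h.link w0 hij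
  change TT (Tsq.mirX (J.jX p D t D' u w0 j)) = _
  rw [← h1]
  exact Tsq.TT_mir _

theorem TyJM.ji (h : TyJM F g) : ∀ a ∈ g.arcs, ∀ w ∈ innA a, Ft.JI w := by
  obtain ⟨p, D, t, D', u, w0, h1, hp, rfl, rfl⟩ := h
  intro q hq w hw
  have hw' : w = TT q.1 := hw
  subst hw'
  have hp' : q = (J.jM p D t D' u w0 11, J.jM p D t D' u w0 1) ∨
      q = (J.jM p D t D' u w0 12, J.jM p D t D' u w0 3) ∨
      q = (J.jM p D t D' u w0 15, J.jM p D t D' u w0 6) ∨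
      q = (J.jM p D t D' u w0 14, J.jM p D t D' u w0 8) := hq
  rcases hp' with rfl | rfl | rfl | rfl
  · exact h1.jiM w0 (i := 1) (by simp)
  · exact h1.jiM w0 (i := 3) (by simp)
  · exact h1.jiM w0 (i := 6) (by simp)
  · exact h1.jiM w0 (i := 8) (by simp)

theorem TyNM.ji (h : TyNM F g) : ∀ a ∈ g.arcs, ∀ w ∈ innA a, Ft.JI w := by
  obtain ⟨p, D, t, D', u, w0, h1, hp, rfl, rfl⟩ := h
  intro q hq w hw
  have hw' : w = TT q.1 := hw
  subst hw'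
  have hp' : q = (J.jM p D t D' u w0 12, J.jM p D t D' u w0 3) ∨
      q = (J.jM p D t D' u w0 15, J.jM p D t D' u w0 6) ∨
      q = (J.jM p D t D' u w0 14, J.jM p D t D' u w0 8) := hq
  rcases hp' with rfl | rfl | rfl
  · exact h1.jiM w0 (i := 3) (by simp)
  · exact h1.jiM w0 (i := 6) (by simp)
  · exact h1.jiM w0 (i := 8) (by simp)

theorem TyJY.ji (h : TyJY F g) : ∀ a ∈ g.arcs, ∀ w ∈ innA a, Ft.JI w := by
  obtain ⟨p, D, t, D', u, w0, h1, hp, rfl, rfl⟩ := h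
  intro q hq w hw
  have hw' : w = TT q.1 := hw
  subst hw'
  obtain ⟨r, hr, rfl⟩ := mem_gadOf_arcs.1 hq
  simp only [arJ2Y, List.mem_cons, List.not_mem_nil, or_false] at hr
  rcases hr with rfl | rfl | rfl
  · exact h1.jiM w0 (i := 3) (by simp)
  · exact h1.jiM w0 (i := 6) (by simp)
  · exact h1.jiM w0 (i := 8) (by simp)

theorem TyJ5.ji (h : TyJ5 F g) : ∀ a ∈ g.arcs, ∀ w ∈ innA a, Ft.JI w := by
  obtain ⟨p, D, D', u, w0, h1, hp, rfl, rfl⟩ := h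
  intro q hq w hw
  have hw' : w = TT q.1 := hw
  subst hw'
  have hq' : q = (J.jX p D 0 D' u w0 8, J.jX p D 0 D' u w0 14) := hq
  rw [hq']
  exact h1.ji w0 (by simp)

theorem TyJ4.ji (h : TyJ4 F g) : ∀ a ∈ g.arcs, ∀ w ∈ innA a, Ft.JI w := by
  obtain ⟨p, D, D', u, w0, h1, hp, rfl, rfl⟩ := h
  intro q hq w hw
  have hw' : w = TT q.1 := hw
  subst hw'
  obtain ⟨r, hr, rfl⟩ := mem_gadOf_arcs.1 hq
  simp only [arJ4, List.mem_cons, List.not_mem_nil, or_false] at hr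
  subst hr
  exact h1.ji w0 (by simp)

theorem TyJ3V.ji (h : TyJ3V F g) : ∀ a ∈ g.arcs, ∀ w ∈ innA a, Ft.JI w := by
  obtain ⟨R, B, S, w0, h1, hp, rfl, rfl⟩ := h
  intro q hq w hw
  have hw' : w = TT q.1 := hw
  subst hw'
  have hb : Ft.BF R B S := Ft.BF.of_sq h1.sq h1.ne h1.one
  have hp' : q = (J3.sX R B S w0 3, J3.sX R B S w0 12) ∨ q = (J3.sX R B S w0 6, J3.sX R B S w0 15) ∨
      q = (J3.sX R B S w0 8, J3.sX R B S w0 14) := hq
  rcases hp' with rfl | rfl | rfl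
  · exact ⟨_, _, _, 3, _, hb, by simp, h1.word w0 (by norm_num), Or.inl rfl⟩
  · exact ⟨_, _, _, 6, _, hb, by simp, h1.word w0 (by norm_num), Or.inl rfl⟩
  · exact ⟨_, _, _, 8, _, hb, by simp, h1.word w0 (by norm_num), Or.inl rfl⟩

theorem J1.TyJ1.ji (h : J1.TyJ1 F g) : ∀ a ∈ g.arcs, ∀ w ∈ innA a, Ft.JI w := by
  obtain ⟨R, B, S, w0, h1, h2, rfl, rfl⟩ := h
  intro q hq w hw
  have hw' : w = TT q.1 := hw
  subst hw'
  have hb : Ft.BF R B S := by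
    refine Ft.BF.of_sq h1.sq h1.ne ?_
    rw [Multiset.count_eq_zero]
    intro hm
    have := h1.bare 1 hm
    omega
  have hp' : q = (J1.jX R B S w0 1, J1.jX R B S w0 11) ∨ q = (J1.jX R B S w0 3, J1.jX R B S w0 12) ∨
      q = (J1.jX R B S w0 6, J1.jX R B S w0 15) ∨ q = (J1.jX R B S w0 8, J1.jX R B S w0 14) ∨
      q = (J1.jX R B S w0 9, J1.jX R B S w0 17) := hq
  rcases hp' with rfl | rfl | rfl | rfl | rfl
  · exact ⟨_, _, _, 1, _, hb, by simp, J1.jX_eq h1 w0 (by norm_num), Or.inl rfl⟩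
  · exact ⟨_, _, _, 3, _, hb, by simp, J1.jX_eq h1 w0 (by norm_num), Or.inl rfl⟩
  · exact ⟨_, _, _, 6, _, hb, by simp, J1.jX_eq h1 w0 (by norm_num), Or.inl rfl⟩
  · exact ⟨_, _, _, 8, _, hb, by simp, J1.jX_eq h1 w0 (by norm_num), Or.inl rfl⟩
  · exact ⟨_, _, _, 9, _, hb, by simp, J1.jX_eq h1 w0 (by norm_num), Or.inl rfl⟩

theorem Is9.ji {S : BinaryTree Unit} (h : Is9 .nil .nil S F g) (h1 : (cont S).count 1 = 0) :
    ∀ a ∈ g.arcs, ∀ w ∈ innA a, Ft.JI w := by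
  obtain ⟨w9, hD, rfl, rfl⟩ := h
  intro q hq w hw
  have hw' : w = TT q.1 := hw
  subst hw'
  have hb : Ft.BF S (Tsq.sq S).2 (Tsq.sq S).1 := Ft.BF.of_sq rfl hD.ne h1
  rcases hq with e | e | e
  · subst e
    exact ⟨_, _, _, 9, _, hb, by simp, (hD.word 3 (by norm_num)).trans (w9_W (i := 3) (by norm_num)), Or.inl rfl⟩
  · subst e
    exact ⟨_, _, _, 3, _, hb, by simp, (hD.word 4 (by norm_num)).trans (w9_W (i := 4) (by norm_num)), Or.inl rfl⟩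
  · subst e
    exact ⟨_, _, _, 6, _, hb, by simp, (hD.word 5 (by norm_num)).trans (w9_W (i := 5) (by norm_num)), Or.inl rfl⟩

end Pool.OddHC
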