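import Pool.Agent.Work.MP_8f87b2_h11.Tab
import Pool.Agent.Work.MP_8f87b2_h40.TyJY
import Pool.Agent.Work.MP_8f87b2_h24.J1Node
import Pool.Agent.Work.MP_8f87b2_h99.Ty9
import Pool.Agent.Work.MP_8f87b2_h6.TyJ3V

/-!
# The words of the J types are words without hidden beads

`Ft.JW1 w` for every word `w` of a gadget of type JM, JY, J5, NM, J4, J1, J3V, Is9 nil nil S.
-/

set_option autoImplicit false

namespace Pool.OddHC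

open Finset Equiv BinaryTree Pool.Agent.Work.MP_8f87b2_co

variable {k : ℕ} {F : Set (Cyc k)} {g : DG k}

theorem J.Sh.bf {p : ℕ} {D : BinaryTree Unit} {t : ℕ} {D' : BinaryTree Unit} {u : ℕ}
    (h : J.Sh k p D t D' u) : Ft.BF (J.RR p D t) (J.b2 t) (J.RR 0 D' u) :=
  Ft.BF.of_sq h.sq (J.RR_ne _ _ _) h.one

theorem J.Sh.jw {p : ℕ} {D : BinaryTree Unit} {t : ℕ} {D' : BinaryTree Unit} {u : ℕ}
    (h : J.Sh k p D t D' u) (w0 : X k) {i : ℕ} (hi : i < 20) : Ft.JW1 (J.jX p D t D' u w0 i).1 :=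
  ⟨_, _, _, i, hi, h.bf, Or.inl (h.word w0 hi)⟩

theorem J.Sh.jwM {p : ℕ} {D : BinaryTree Unit} {t : ℕ} {D' : BinaryTree Unit} {u : ℕ}
    (h : J.Sh k p D t D' u) (w0 : X k) {i : ℕ} (hi : i < 20) : Ft.JW1 (J.jM p D t D' u w0 i).1 :=
  ⟨_, _, _, i, hi, h.bf, Or.inr (h.wordM w0 hi)⟩

theorem TyJM.jw (h : TyJM F g) : ∀ w ∈ g.B, Ft.JW1 w.1 := by
  obtain ⟨p, D, t, D', u, w0, h1, hp, rfl, rfl⟩ := h
  intro w hw
  obtain ⟨i, hi, _, rfl⟩ := mem_gadJM.1 hw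
  exact h1.jwM w0 hi

theorem TyNM.jw (h : TyNM F g) : ∀ w ∈ g.B, Ft.JW1 w.1 := by
  obtain ⟨p, D, t, D', u, w0, h1, hp, rfl, rfl⟩ := h
  intro w hw
  obtain ⟨i, hi, rfl⟩ := mem_gadJNM_B.1 hw
  have hlt : ∀ i ∈ ixJN, i < 20 := by decide
  exact h1.jwM w0 (hlt i hi)

theorem TyJY.jw (h : TyJY F g) : ∀ w ∈ g.B, Ft.JW1 w.1 := by
  obtain ⟨p, D, t, D', u, w0, h1, hp, rfl, rfl⟩ := h
  intro w hw
  obtain ⟨i, hi, rfl⟩ := mem_gadOf_B.1 hw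
  have hlt : ∀ i ∈ ixJ2Y, i < 20 := by decide
  exact h1.jwM w0 (hlt i hi)

theorem TyJ5.jw (h : TyJ5 F g) : ∀ w ∈ g.B, Ft.JW1 w.1 := by
  obtain ⟨p, D, D', u, w0, h1, hp, rfl, rfl⟩ := h
  intro w hw
  obtain ⟨i, hi, rfl⟩ := mem_gadJ5_B.1 hw
  have hlt : ∀ i ∈ ixJ5, i < 20 := by decide
  exact h1.jw w0 (hlt i hi)

theorem TyJ4.jw (h : TyJ4 F g) : ∀ w ∈ g.B, Ft.JW1 w.1 := by
  obtain ⟨p, D, D', u, w0, h1, hp, rfl, rfl⟩ := h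
  intro w hw
  obtain ⟨i, hi, rfl⟩ := mem_gadOf_B.1 hw
  have hlt : ∀ i ∈ ixJ4, i < 20 := by decide
  exact h1.jw w0 (hlt i hi)

theorem TyJ3V.jw (h : TyJ3V F g) : ∀ w ∈ g.B, Ft.JW1 w.1 := by
  obtain ⟨R, B, S, h1, h2⟩ := h.words
  intro w hw
  obtain ⟨i, hi, _, h3⟩ := h2 w hw
  exact ⟨R, B, S, i, hi, Ft.BF.of_sq h1.sq h1.ne h1.one, Or.inl h3⟩

theorem J1.TyJ1.jw (h : J1.TyJ1 F g) : ∀ w ∈ g.B, Ft.JW1 w.1 := by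
  obtain ⟨R, B, S, w0, h1, h2, rfl, rfl⟩ := h
  intro w hw
  obtain ⟨i, hi, rfl⟩ := J1.mem_gadJA.1 hw
  refine ⟨R, B, S, i, hi, Ft.BF.of_sq h1.sq h1.ne ?_, Or.inl (J1.jX_eq h1 w0 hi)⟩
  rw [Multiset.count_eq_zero]
  intro hm
  have := h1.bare 1 hm
  omega

/-- the place of a word of `Is9 nil nil S` in the table -/
def ix9W : ℕ → ℕ
  | 0 => 0
  | 1 => 4
  | 2 => 7
  | 3 => 9
  | 4 => 3
  | 5 => 6
  | 6 => 17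
  | 7 => 12
  | _ => 15

theorem w9_W {S : BinaryTree Unit} {i : ℕ} (hi : i < 9) :
    w9L .nil .nil S (xT S) i = H1.W S .nil (Tsq.sq S).2 (Tsq.sq S).1 (ix9W i) := by
  rw [xT_sq]
  interval_cases i <;> simp [w9L, H1.W, w1, app, ix9W, H1.app_nil]

theorem Is9.jw {S : BinaryTree Unit} (h : Is9 .nil .nil S F g) (h1 : (cont S).count 1 = 0) :
    ∀ w ∈ g.B, Ft.JW1 w.1 := by
  obtain ⟨w9, hD, rfl, rfl⟩ := h
  intro w hw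
  obtain ⟨i, hi, rfl⟩ := mem_gad9.1 hw
  have hlt : ∀ i < 9, ix9W i < 20 := by decide
  refine ⟨S, (Tsq.sq S).2, (Tsq.sq S).1, ix9W i, hlt i hi, Ft.BF.of_sq rfl hD.ne h1, Or.inl ?_⟩
  rw [hD.word i hi, w9_W hi]

end Pool.OddHC
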