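import Pool.Agent.Work.MP_8f87b2_h11.JI
import Pool.Agent.Work.MP_8f87b2_h11.RHz

/-!
# Words and inner words of the L1 gadgets: against the J types

`LD R` : data of the tree `R` with one hidden bead. `LWX w` : `w` is a word of the gadget of `R`, right or mirrored.
`LWX.not_JW1`, `LWX.not_JI` : no word of a J gadget, no inner word of a J gadget. `LD.inner`, `LD.innerM` : the inner words
are no words of a J gadget.
-/

set_option autoImplicit false

namespace Pool.OddHC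

open Finset Equiv BinaryTree Pool.Agent.Work.MP_8f87b2_co

namespace Ft

variable {k n : ℕ}

/-- data of the tree with one hidden bead -/
def LD (R : BinaryTree Unit) : Prop :=
  LTX R (Tsq.sq R).2 (Tsq.sq R).1 ∨ ((Tsq.sq R).2 = .nil ∧ LZX R (Tsq.sq R).1)

/-- a word of the gadget of a tree with one hidden bead, right or mirrored -/
def LWX (w : BinaryTree Unit) : Prop :=
  ∃ (R : BinaryTree Unit) (i : ℕ), i < 20 ∧ LD R ∧
    (w = H1.W R .nil (Tsq.sq R).2 (Tsq.sq R).1 i ∨ w = Tsq.mir (H1.W R .nil (Tsq.sq R).2 (Tsq.sq R).1 i))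

theorem LWX.lw1 {w : BinaryTree Unit} (h : LWX w) : LW1 w := by
  obtain ⟨R, i, hi, hd, hw⟩ := h
  refine ⟨R, (Tsq.sq R).2, (Tsq.sq R).1, i, hi, ?_, hw⟩
  rcases hd with hd | ⟨h1, hd⟩
  · exact Or.inl hd.toLT
  · exact Or.inr ⟨h1, hd.toLZ⟩

theorem LWX.not_JW1 {w : BinaryTree Unit} (h : LWX w) (h' : JW1 w) : False := h.lw1.not_JW1 h'

theorem LD.not_JIP {R : BinaryTree Unit} (h : LD R) {i : ℕ} (hi : i < 20) :
    ¬ JIP (H1.W R .nil (Tsq.sq R).2 (Tsq.sq R).1 i) := by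
  rcases h with h | ⟨h1, h⟩
  · exact h.not_JIP hi
  · rw [h1]
    exact h.not_JIP hi

theorem LWX.not_JI {w : X k} (h : LWX w.1) (h' : JI w) : False := by
  obtain ⟨R, i, hi, hd, hw⟩ := h
  obtain ⟨h1, h2⟩ := h'.p
  rcases hw with hw | hw
  · rw [hw] at h1
    exact hd.not_JIP hi h1
  · rw [hw, Tsq.mir_mir] at h2
    exact hd.not_JIP hi h2

/-- the inner words -/
theorem LD.inner {R : BinaryTree Unit} (h : LD R) {x : X k} {i : ℕ} (hi : i ∈ [1, 3, 6, 8])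
    (hx : x.1 = H1.W R .nil (Tsq.sq R).2 (Tsq.sq R).1 i) : ¬ JW1 (TT x).1 := by
  rcases h with h | ⟨h1, h⟩
  · exact h.inner hi hx
  · rw [h1] at hx
    exact h.inner hi hx

theorem JW1.mir {w : BinaryTree Unit} (h : JW1 w) : JW1 (Tsq.mir w) := by
  obtain ⟨R, B, S, i, hi, hd, hw⟩ := h
  refine ⟨R, B, S, i, hi, hd, ?_⟩
  rcases hw with rfl | rfl
  · exact Or.inr rfl
  · left
    rw [Tsq.mir_mir]

/-- the inner words of the mirrored gadget -/
theorem LD.innerM {R : BinaryTree Unit} (h : LD R) {x : X k} {i : ℕ} (hi : i ∈ [1, 3, 6, 8])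
    (hx : x.1 = H1.W R .nil (Tsq.sq R).2 (Tsq.sq R).1 i) :
    ¬ JW1 (TT (Tsq.mirX (TT (TT x)))).1 := by
  rw [Tsq.TT_mir]
  intro h1
  have h2 := h1.mir
  change JW1 (Tsq.mir (Tsq.mir (TT x).1)) at h2
  rw [Tsq.mir_mir] at h2
  exact h.inner hi hx h2

/-! ### `RH n F` -/

/-- **the data of `RH n F`** -/
theorem LD_RH (hn : 1 ≤ n) (F : ZMod (2 * n + 1) → ℕ)
    (h : 1 ≤ F (-1) ∨ (F 0 = 0 ∧ F (-1) = 0 ∧ 4 ≤ n + 2 * ((lf F).drop n).sum)) : LD (L1.RH n F) := by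
  rcases h with h | ⟨h0, h1, h2⟩
  · exact Or.inl (LTX_RH hn F h)
  · exact Or.inr (LZX_RH hn F h0 h1 h2)

end Ft

end Pool.OddHC
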