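import Pool.Agent.Work.MP_8f87b2_h84.T3

/-!
# Words with at most one part `≥ 3` created by a hidden square: the class `OSW`

`OS.Mx w` : `w` or its mirror image is one of `S(B())`, `S(B)()`, `()S(B)`, `(S(B))`, `B ≠ ∅`, `B ≠ ()`, `S` without parts 1.
`OS.OSW w` : at most one part `≥ 3`, or at most two and `Mx w`.
-/

set_option autoImplicit false
set_option linter.unusedSimpArgs false

namespace Pool.OddHC

open Finset Equiv BinaryTree Pool.Agent.Work.MP_8f87b2_co

namespace OS

open J H1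

variable {k q c : ℕ} {R B S : BinaryTree Unit}

/-! ### counting -/

theorem cp_raise_ge (M : Multiset ℕ) : M.countP (3 ≤ ·) ≤ (raise M).countP (3 ≤ ·) := by
  unfold raise
  by_cases h0 : M = 0
  · subst h0; simp
  have hm : M.sup ∈ M := sup_mem h0
  conv_lhs => rw [← Multiset.cons_erase hm]
  by_cases h1 : 3 ≤ M.sup
  · rw [Multiset.countP_cons_of_pos _ h1, Multiset.countP_cons_of_pos _ (by omega)]
  · rw [Multiset.countP_cons_of_neg _ h1]
    exact Multiset.countP_le_of_le _ (Multiset.le_cons_self _ _)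

theorem cp_raise_le (M : Multiset ℕ) : (raise M).countP (3 ≤ ·) ≤ M.countP (3 ≤ ·) + 1 := by
  unfold raise
  have h1 : (M.erase M.sup).countP (3 ≤ ·) ≤ M.countP (3 ≤ ·) :=
    Multiset.countP_le_of_le _ (Multiset.erase_le _ _)
  have h2 := Multiset.countP_cons (fun x => 3 ≤ x) (M.sup + 1) (M.erase M.sup)
  split_ifs at h2 <;> omega

theorem t3_node_ge (A C : BinaryTree Unit) : t3 A + t3 C ≤ t3 (A △ C) := by
  rw [t3_node]
  have := cp_raise_ge (OddHC.cont A)
  unfold t3
  omega

theorem t3_node_le (A C : BinaryTree Unit) : t3 (A △ C) ≤ t3 A + 1 + t3 C := by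
  rw [t3_node]
  have := cp_raise_le (OddHC.cont A)
  unfold t3
  omega

theorem c_ch (q : ℕ) : OddHC.cont (ch (q + 1)) = {q + 1} := H1.ch_cont q

/-- `(Q)` and `(Q())` for `Q = ch (q + 1)`, `q ≥ 1` -/
theorem t3_chn (hq : 1 ≤ q) (C : BinaryTree Unit) : t3 (ch (q + 1) △ C) = 1 + t3 C := by
  rw [t3_node, c_ch, raise_single, Multiset.countP_eq_card.2 (by
    intro a ha; rw [Multiset.mem_singleton] at ha; omega), Multiset.card_singleton]

theorem t3_chn2 (hq : 1 ≤ q) (C : BinaryTree Unit) :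
    1 + t3 C ≤ t3 (app (ch (q + 1)) (.nil △ .nil) △ C) := by
  rw [t3_node, cont_app, c_ch, cont_node, cont_nil, raise_zero, add_zero]
  have h1 : 1 ≤ (raise ({q + 1} + {1} : Multiset ℕ)).countP (3 ≤ ·) := by
    refine Multiset.countP_pos.2 ⟨({q + 1} + {1} : Multiset ℕ).sup + 1, Multiset.mem_cons_self _ _, ?_⟩
    have h2 : q + 1 ≤ ({q + 1} + {1} : Multiset ℕ).sup := Multiset.le_sup (by simp)
    omega
  omega

theorem t3_chn3 (hq : 1 ≤ q) : 1 ≤ t3 ((.nil △ ch (q + 1)) △ .nil) := by
  rw [t3_node, cont_node, c_ch, cont_nil, raise_zero, t3_nil, add_zero]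
  refine Multiset.countP_pos.2 ⟨({1} + {q + 1} : Multiset ℕ).sup + 1, Multiset.mem_cons_self _ _, ?_⟩
  have h2 : q + 1 ≤ ({1} + {q + 1} : Multiset ℕ).sup := Multiset.le_sup (by simp)
  omega

theorem t3_big (hq : 2 ≤ q) : t3 (ch (q + 1)) = 1 := by
  unfold t3
  rw [c_ch, Multiset.countP_eq_card.2 (by
    intro a ha; rw [Multiset.mem_singleton] at ha; omega), Multiset.card_singleton]

/-- the words `1, 2, 3, 7, 8, 9, 11, 12, 14, 17, 18, 19` (where `Q` is not inside of brackets) -/
def li : List ℕ := [1, 2, 3, 7, 8, 9, 11, 12, 14, 17, 18, 19]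

theorem W_ge {f : BinaryTree Unit → ℕ} (n : ∀ A C, f A + f C ≤ f (A △ C))
    (a : ∀ P Q, f (app P Q) = f P + f Q) {R Q B S : BinaryTree Unit} (hc : f B + f S = f R) {i : ℕ}
    (hi : i < 20) : f R + f Q ≤ f (W R Q B S i) := by
  interval_cases i
  · change f R + f Q ≤ f (app R ((Q △ .nil) △ .nil))
    have h1 := n (Q △ .nil) .nil
    have h2 := n Q .nil
    rw [a]; omega
  · change f R + f Q ≤ f (app R (.nil △ app Q (.nil △ .nil)))
    have h1 := n .nil (app Q (.nil △ .nil))
    rw [a] at h1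
    rw [a]; omega
  · change f R + f Q ≤ f (.nil △ app R (.nil △ Q))
    have h1 := n .nil (app R (.nil △ Q))
    have h2 := n .nil Q
    rw [a] at h1; omega
  · change f R + f Q ≤ f (app R (.nil △ Q) △ .nil)
    have h1 := n (app R (.nil △ Q)) .nil
    have h2 := n .nil Q
    rw [a] at h1; omega
  · change f R + f Q ≤ f (app Q (.nil △ .nil) △ R)
    have h1 := n (app Q (.nil △ .nil)) R
    rw [a] at h1; omega
  · change f R + f Q ≤ f (Q △ (.nil △ R))
    have h1 := n Q (.nil △ R)
    have h2 := n .nil R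
    omega
  · change f R + f Q ≤ f (R △ (Q △ .nil))
    have h1 := n R (Q △ .nil)
    have h2 := n Q .nil
    omega
  · change f R + f Q ≤ f (app Q ((.nil △ R) △ .nil))
    have h1 := n (.nil △ R) .nil
    have h2 := n .nil R
    rw [a]; omega
  · change f R + f Q ≤ f (app Q (.nil △ (R △ .nil)))
    have h1 := n .nil (R △ .nil)
    have h2 := n R .nil
    rw [a]; omega
  · change f R + f Q ≤ f ((R △ .nil) △ Q)
    have h1 := n (R △ .nil) Q
    have h2 := n R .nil
    omega
  · change f R + f Q ≤ f (app B ((Q △ .nil) △ S))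
    have h1 := n (Q △ .nil) S
    have h2 := n Q .nil
    rw [a]; omega
  · change f R + f Q ≤ f (app B (.nil △ app Q (.nil △ S)))
    have h1 := n .nil (app Q (.nil △ S))
    have h2 := n .nil S
    rw [a] at h1
    rw [a]; omega
  · change f R + f Q ≤ f (S △ app B (.nil △ Q))
    have h1 := n S (app B (.nil △ Q))
    have h2 := n .nil Q
    rw [a] at h1; omega
  · change f R + f Q ≤ f (app S (app B (.nil △ Q) △ .nil))
    have h1 := n (app B (.nil △ Q)) .nil
    have h2 := n .nil Q
    rw [a] at h1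
    rw [a]; omega
  · change f R + f Q ≤ f (app Q (.nil △ S) △ B)
    have h1 := n (app Q (.nil △ S)) B
    have h2 := n .nil S
    rw [a] at h1; omega
  · change f R + f Q ≤ f (Q △ (S △ B))
    have h1 := n Q (S △ B)
    have h2 := n S B
    omega
  · change f R + f Q ≤ f (app S (B △ (Q △ .nil)))
    have h1 := n B (Q △ .nil)
    have h2 := n Q .nil
    rw [a]; omega
  · change f R + f Q ≤ f (app Q ((S △ B) △ .nil))
    have h1 := n (S △ B) .nil
    have h2 := n S B
    rw [a]; omega
  · change f R + f Q ≤ f (app Q (.nil △ app S (B △ .nil)))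
    have h1 := n .nil (app S (B △ .nil))
    have h2 := n B .nil
    rw [a] at h1
    rw [a]; omega
  · change f R + f Q ≤ f (app S (B △ .nil) △ Q)
    have h1 := n (app S (B △ .nil)) Q
    have h2 := n B .nil
    rw [a] at h1; omega

theorem t3_W (hc : t3 B + t3 S = t3 R) {i : ℕ} (hi : i < 20) :
    t3 R + t3 (ch (q + 1)) ≤ t3 (W R (ch (q + 1)) B S i) := W_ge t3_node_ge t3_app hc hi

/-- parts `≥ 4` -/
def t4 (w : BinaryTree Unit) : ℕ := (OddHC.cont w).countP (4 ≤ ·)

theorem cp4_raise_ge (M : Multiset ℕ) : M.countP (4 ≤ ·) ≤ (raise M).countP (4 ≤ ·) := by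
  unfold raise
  by_cases h0 : M = 0
  · subst h0; simp
  have hm : M.sup ∈ M := sup_mem h0
  conv_lhs => rw [← Multiset.cons_erase hm]
  by_cases h1 : 4 ≤ M.sup
  · rw [Multiset.countP_cons_of_pos _ h1, Multiset.countP_cons_of_pos _ (by omega)]
  · rw [Multiset.countP_cons_of_neg _ h1]
    exact Multiset.countP_le_of_le _ (Multiset.le_cons_self _ _)

theorem t4_node_ge (A C : BinaryTree Unit) : t4 A + t4 C ≤ t4 (A △ C) := by
  have := cp4_raise_ge (OddHC.cont A)
  unfold t4
  rw [cont_node, Multiset.countP_add]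
  omega

theorem t4_app (P Q : BinaryTree Unit) : t4 (app P Q) = t4 P + t4 Q := by
  unfold t4; rw [cont_app, Multiset.countP_add]

theorem t4_W (hc : t4 B + t4 S = t4 R) {i : ℕ} (hi : i < 20) :
    t4 R + t4 (ch (q + 1)) ≤ t4 (W R (ch (q + 1)) B S i) := W_ge t4_node_ge t4_app hc hi

theorem t3_W' (hq : 1 ≤ q) (hc : t3 B + t3 S = t3 R) {i : ℕ} (hi : i < 20) (hli : i ∉ li)
    (h13 : i = 13 → B = .nil) : t3 R + 1 ≤ t3 (W R (ch (q + 1)) B S i) := by
  have n := t3_node_ge
  have a := t3_app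
  have z := t3_nil
  have Q1 := fun C => t3_chn (q := q) hq C
  have Q2 := fun C => t3_chn2 (q := q) hq C
  have Q3 := t3_chn3 (q := q) hq
  generalize ch (q + 1) = Q at *
  interval_cases i
  · change t3 R + 1 ≤ t3 (app R ((Q △ .nil) △ .nil))
    have h1 := n (Q △ .nil) .nil
    have h2 := Q1 .nil
    rw [a]; omega
  · exact absurd (by decide) hli
  · exact absurd (by decide) hli
  · exact absurd (by decide) hli
  · change t3 R + 1 ≤ t3 (app Q (.nil △ .nil) △ R)
    have h1 := Q2 R
    omega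
  · change t3 R + 1 ≤ t3 (Q △ (.nil △ R))
    have h1 := Q1 (.nil △ R)
    have h2 := n .nil R
    omega
  · change t3 R + 1 ≤ t3 (R △ (Q △ .nil))
    have h1 := n R (Q △ .nil)
    have h2 := Q1 .nil
    omega
  · exact absurd (by decide) hli
  · exact absurd (by decide) hli
  · exact absurd (by decide) hli
  · change t3 R + 1 ≤ t3 (app B ((Q △ .nil) △ S))
    have h1 := n (Q △ .nil) S
    have h2 := Q1 .nil
    rw [a]; omega
  · exact absurd (by decide) hli
  · exact absurd (by decide) hli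
  · obtain rfl := h13 rfl
    change t3 R + 1 ≤ t3 (app S ((.nil △ Q) △ .nil))
    rw [a]; omega
  · exact absurd (by decide) hli
  · change t3 R + 1 ≤ t3 (Q △ (S △ B))
    have h1 := Q1 (S △ B)
    have h2 := n S B
    omega
  · change t3 R + 1 ≤ t3 (app S (B △ (Q △ .nil)))
    have h1 := n B (Q △ .nil)
    have h2 := Q1 .nil
    rw [a]; omega
  · exact absurd (by decide) hli
  · exact absurd (by decide) hli
  · exact absurd (by decide) hli

end OS

end Pool.OddHC
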