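import Pool.Agent.Work.MP_8f87b2_h11.Feat

/-!
# Table of the bead positions of the twenty words `W R nil B S i`

`LN`, `PP` : number of letters and gaps of the beads of `W R nil B S i` in terms of those of `R`, `B`, `S`.
-/

set_option autoImplicit false

namespace Pool.OddHC

open BinaryTree Pool.Agent.Work.MP_8f87b2_co

namespace Ft

/-- number of letters of the reduced word of the word number `i` -/
def LN (r b s : ℕ) : ℕ → ℕ
  | 0 => r + 2
  | 1 => r
  | 2 => r
  | 3 => r + 2
  | 4 => r + 2
  | 5 => r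
  | 6 => r + 2
  | 7 => r + 2
  | 8 => r + 2
  | 9 => r + 4
  | 10 => b + s + 2
  | 11 => b + s
  | 12 => s + b + 2
  | 13 => s + b + 2
  | 14 => s + b + 2
  | 15 => s + b + 2
  | 16 => if b = 0 then s else s + b + 2
  | 17 => s + b + 4
  | 18 => if b = 0 then s else s + b + 2
  | _ => if b = 0 then s + 2 else s + b + 4

/-- the gaps of the beads of the word number `i` -/
def PP (R B S : List ℕ) (r b s : ℕ) : ℕ → List ℕ
  | 0 => R
  | 1 => R ++ [r, r]
  | 2 => 0 :: (R ++ [r])
  | 3 => R.map (· + 1) ++ [r + 1]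
  | 4 => R.map (· + 2)
  | 5 => 0 :: 0 :: R
  | 6 => R.map (· + 1) ++ [r + 2]
  | 7 => 1 :: R.map (· + 1)
  | 8 => 0 :: R.map (· + 1)
  | 9 => R.map (· + 2)
  | 10 => B ++ S.map (· + (b + 2))
  | 11 => B ++ b :: b :: S.map (· + b)
  | 12 => S.map (· + 1) ++ (B.map (· + (s + 2)) ++ [s + b + 2])
  | 13 => if b = 0 then S else S ++ (B.map (· + (s + 1)) ++ [s + b + 1])
  | 14 => 1 :: (S.map (· + 1) ++ B.map (· + (s + 2)))
  | 15 => 0 :: (S.map (· + 1) ++ B.map (· + (s + 2)))
  | 16 => if b = 0 then S ++ [s, s] else S ++ (B.map (· + (s + 1)) ++ [s + b + 2])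
  | 17 => S.map (· + 2) ++ B.map (· + (s + 3))
  | 18 => if b = 0 then 0 :: (S ++ [s]) else 0 :: (S ++ B.map (· + (s + 1)))
  | _ => if b = 0 then S.map (· + 1) ++ [s + 1] else S.map (· + 1) ++ B.map (· + (s + 2))

/-- the table -/
theorem LN_PP {R B S : BinaryTree Unit} (hR : 0 < ln R) (hS : 0 < ln S)
    (hB : B = .nil ∨ 0 < ln B) {i : ℕ} (hi : i < 20) :
    ln (H1.W R .nil B S i) = LN (ln R) (ln B) (ln S) i ∧
      ps (H1.W R .nil B S i) = PP (ps R) (ps B) (ps S) (ln R) (ln B) (ln S) i := by
  have hRn : R ≠ .nil := by rintro rfl; exact absurd hR (by simp [ln_nil])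
  have hSn : S ≠ .nil := by rintro rfl; exact absurd hS (by simp [ln_nil])
  have l0 : ln (.nil △ .nil) = 0 := rfl
  have p0 : ps (.nil △ .nil) = [0] := rfl
  have l00 : ln ((.nil △ .nil) △ .nil) = 2 := rfl
  have p00 : ps ((.nil △ .nil) △ .nil) = [] := rfl
  have lb0 : ∀ X, ln ((.nil △ .nil) △ X) = ln X + 2 := by
    intro X
    rw [ln_node (by simp), l0]
    omega
  have pb0 : ∀ X, ps ((.nil △ .nil) △ X) = (ps X).map (· + 2) := by
    intro X
    rw [ps_node' (by simp), l0]
    rfl
  have nR := fun X => ln_node' hR X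
  have mR := fun X => ps_node hR X
  have nS := fun X => ln_node' hS X
  have mS := fun X => ps_node hS X
  have a1 : 0 < ln (app R (.nil △ .nil)) := by rw [ln_app]; omega
  have a2 : ∀ X, 0 < ln (S △ X) := by intro X; rw [nS]; omega
  have a3 : ∀ X, 0 < ln (app S X) := by intro X; rw [ln_app]; omega
  have a4 : 0 < ln (R △ .nil) := by rw [nR]; omega
  have a5 : 0 < ln (.nil △ R) := by rw [ln_leaf]; exact hR
  have a6 : 0 < ln (.nil △ S) := by rw [ln_leaf]; exact hS
  have b0 : ln (.nil : BinaryTree Unit) = 0 := rfl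
  have c0 : ps (.nil : BinaryTree Unit) = [] := rfl
  have e1 : (BinaryTree.nil : BinaryTree Unit) = .nil := rfl
  rcases hB with rfl | hB
  · interval_cases i <;> refine ⟨?_, ?_⟩ <;>
      simp only [H1.W, LN, PP, app, H1.app_nil, ln_leaf, ps_leaf, ln_app, ps_app, lb0, pb0, nR, mR, nS, mS,
        ln_node' a1, ps_node a1, ln_node' (a2 _), ps_node (a2 _), ln_node' (a3 _), ps_node (a3 _),
        ln_node' a4, ps_node a4, ln_node' a5, ps_node a5, ln_node' a6, ps_node a6, b0, c0,
        List.map_nil, List.map_cons, List.append_nil, List.nil_append, List.map_append, map_add_add,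
        if_true, Nat.zero_add, Nat.add_zero, List.cons_append, List.append_assoc]
    all_goals simp
  · have hBz : ¬ ln B = 0 := by omega
    have nB := fun X => ln_node' hB X
    have mB := fun X => ps_node hB X
    have a8 : 0 < ln (app B (.nil △ .nil)) := by rw [ln_app]; omega
    interval_cases i <;> refine ⟨?_, ?_⟩ <;>
      simp only [H1.W, LN, PP, app, H1.app_nil, ln_leaf, ps_leaf, ln_app, ps_app, lb0, pb0, nR, mR, nS, mS,
        nB, mB, ln_node' a8, ps_node a8,
        ln_node' a1, ps_node a1, ln_node' (a2 _), ps_node (a2 _), ln_node' (a3 _), ps_node (a3 _),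
        ln_node' a4, ps_node a4, ln_node' a5, ps_node a5, ln_node' a6, ps_node a6, b0, c0,
        List.map_nil, List.map_cons, List.append_nil, List.nil_append, List.map_append, map_add_add,
        if_neg hBz, Nat.zero_add, Nat.add_zero, List.cons_append, List.append_assoc]
    all_goals first
      | omega
      | (rw [show 2 + ln B = ln B + 2 by omega])
      | (rw [show ln B + (ln S + 2) = ln S + ln B + 2 by omega])
      | (rw [show 1 + ln S = ln S + 1 by omega, show ln B + 1 + ln S = ln S + ln B + 1 by omega])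
      | (rw [show 1 + ln S = ln S + 1 by omega, show ln B + 2 + ln S = ln S + ln B + 2 by omega])
      | (rw [show 1 + ln S + 1 = ln S + 2 by omega])
      | (rw [show 1 + ln S = ln S + 1 by omega])

/-! ### Comparison of the tables -/

/-- the bead positions of the words without hidden beads -/
theorem clsJ {r b s j : ℕ} (hj : j < 20) :
    PP [] [] [] r b s j = [] ∨ PP [] [] [] r b s j = [0] ∨
    (PP [] [] [] r b s j = [1] ∧ (j = 7 ∨ j = 14)) ∨
    PP [] [] [] r b s j = [LN r b s j] ∨
    (∃ z, z + 1 = LN r b s j ∧ PP [] [] [] r b s j = [z] ∧ (j = 3 ∨ (j = 13 ∧ 0 < b) ∨ (j = 19 ∧ b = 0))) ∨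
    (∃ z, PP [] [] [] r b s j = [z, z]) ∨ PP [] [] [] r b s j = [0, LN r b s j] := by
  rcases Nat.eq_zero_or_pos b with h0 | h0
  · subst h0
    interval_cases j <;> simp [LN, PP]
  · have hb : ¬ b = 0 := by omega
    interval_cases j <;> simp [LN, PP, hb, h0]

/-- a word with a hidden bead in the last `2` of `B` against words without hidden beads -/
theorem cmpT {N x y b s r' b' s' i j : ℕ} (hi : i < 20) (hj : j < 20) (h1 : x + 1 = N) (h2 : y + 1 = b)
    (h3 : s + b = N) (h4 : 4 ≤ s) (h5 : 0 < y) (hl : LN N b s i = LN r' b' s' j)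
    (hp : PP [x] [y] [] N b s i = PP [] [] [] r' b' s' j) :
    (i = 4 ∧ (j = 3 ∨ (j = 13 ∧ 0 < b') ∨ (j = 19 ∧ b' = 0))) ∨ (i = 10 ∧ b = 2 ∧ (j = 7 ∨ j = 14)) := by
  have hb : ¬ b = 0 := by omega
  have hc := clsJ (r := r') (b := b') (s := s') hj
  rw [← hp, ← hl] at hc
  clear hp hl
  interval_cases i <;>
    simp only [LN, PP, if_neg hb, List.map_nil, List.map_cons, List.append_nil,
        List.nil_append, List.cons_append, List.cons.injEq, reduceCtorEq, and_false, false_and,
        false_or, or_false, and_true, exists_false] at hc <;>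
    first
      | omega
      | (rcases hc with hc | hc | hc | hc <;> omega)

/-- the same, the word with the hidden bead is mirrored -/
theorem cmpTM {N x y b s r' b' s' i j : ℕ} (hi : i < 20) (hj : j < 20) (h1 : x + 1 = N) (h2 : y + 1 = b)
    (h3 : s + b = N) (h4 : 4 ≤ s) (h5 : 0 < y) (hl : LN N b s i = LN r' b' s' j)
    (hp : (PP [x] [y] [] N b s i).reverse.map (fun z => LN N b s i - z) = PP [] [] [] r' b' s' j) :
    (i = 4 ∧ (j = 7 ∨ j = 14)) ∨ (i = 10 ∧ b = 2 ∧ (j = 3 ∨ (j = 13 ∧ 0 < b') ∨ (j = 19 ∧ b' = 0))) := by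
  have hb : ¬ b = 0 := by omega
  have hc := clsJ (r := r') (b := b') (s := s') hj
  rw [← hp, ← hl] at hc
  clear hp hl
  interval_cases i <;>
    simp only [LN, PP, if_neg hb, List.map_nil, List.map_cons, List.append_nil, List.reverse_cons,
        List.reverse_nil,
        List.nil_append, List.cons_append, List.cons.injEq, reduceCtorEq, and_false, false_and,
        false_or, or_false, and_true, exists_false, exists_eq_right', exists_eq_right] at hc <;>
    first
      | omega
      | (rcases hc with hc | hc | hc | hc <;> omega)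

/-- a word with a hidden bead, `B` empty, against words without hidden beads -/
theorem cmpZ {N x y r' b' s' i j : ℕ} (hi : i < 20) (hj : j < 20) (h1 : x + 3 = N) (h2 : y + 2 = N)
    (h4 : 6 ≤ N) (hl : LN N 0 N i = LN r' b' s' j)
    (hp : PP [x] [] [y] N 0 N i = PP [] [] [] r' b' s' j) : False := by
  have hc := clsJ (r := r') (b := b') (s := s') hj
  rw [← hp, ← hl] at hc
  clear hp hl
  interval_cases i <;>
    simp only [LN, PP, if_true, List.map_nil, List.map_cons, List.append_nil, List.reverse_cons,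
        List.reverse_nil,
        List.nil_append, List.cons_append, List.cons.injEq, reduceCtorEq, and_false, false_and,
        false_or, or_false, and_true, exists_false, exists_eq_right', exists_eq_right] at hc <;>
    first
      | omega
      | (rcases hc with hc | hc | hc | hc <;> omega)

/-- the same, mirrored -/
theorem cmpZM {N x y r' b' s' i j : ℕ} (hi : i < 20) (hj : j < 20) (h1 : x + 3 = N) (h2 : y + 2 = N)
    (h4 : 6 ≤ N) (hl : LN N 0 N i = LN r' b' s' j)
    (hp : (PP [x] [] [y] N 0 N i).reverse.map (fun z => LN N 0 N i - z) = PP [] [] [] r' b' s' j) :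
    False := by
  have hc := clsJ (r := r') (b := b') (s := s') hj
  rw [← hp, ← hl] at hc
  clear hp hl
  interval_cases i <;>
    simp only [LN, PP, if_true, List.map_nil, List.map_cons, List.append_nil, List.reverse_cons,
        List.reverse_nil,
        List.nil_append, List.cons_append, List.cons.injEq, reduceCtorEq, and_false, false_and,
        false_or, or_false, and_true, exists_false, exists_eq_right', exists_eq_right] at hc <;>
    first
      | omega
      | (rcases hc with hc | hc | hc | hc <;> omega)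

/-! ### Data with and without a hidden bead -/

/-- `(()())` without the outer pair -/
def l2 : BinaryTree Unit := .nil △ (.nil △ .nil)

/-- words without beads -/
structure BF (R B S : BinaryTree Unit) : Prop where
  pR : ps R = []
  pB : ps B = []
  pS : ps S = []
  r0 : 0 < ln R
  s0 : 0 < ln S
  hB : B = .nil ∨ 0 < ln B

/-- one hidden bead, in the last `2` of `R` and `B` -/
structure LT (R B S : BinaryTree Unit) : Prop where
  pR : ∃ x, x + 1 = ln R ∧ ps R = [x]
  pB : ∃ y, y + 1 = ln B ∧ 0 < y ∧ ps B = [y]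
  pS : ps S = []
  sum : ln S + ln B = ln R
  s4 : 4 ≤ ln S
  lastR : ∃ L, comps R = L ++ [l2]
  hB : ln B = 2 → B = l2 △ .nil

/-- one hidden bead, `B` empty -/
structure LZ (R S : BinaryTree Unit) : Prop where
  pR : ∃ x, x + 3 = ln R ∧ ps R = [x]
  pS : ∃ y, y + 2 = ln R ∧ ps S = [y]
  sum : ln S = ln R
  s6 : 6 ≤ ln R

theorem ln_pos {R : BinaryTree Unit} (hR : R ≠ .nil) (h : ps R = []) : 0 < ln R := by
  rcases Nat.eq_zero_or_pos (ln R) with h0 | h0
  · exfalso
    have h1 : (red R).1 = .nil := by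
      unfold ln at h0
      cases h2 : (red R).1 with
      | nil => rfl
      | node _ A B =>
        rw [h2] at h0
        change 2 * (A.numNodes + B.numNodes + 1) = 0 at h0
        omega
    have h3 := red_pos hR h1
    have h4 := congrArg List.length h
    unfold ps at h4
    rw [psl_length, red_cons, List.sum_cons, List.length_nil] at h4
    omega
  · exact h0

theorem BF.of_sq {R B S : BinaryTree Unit} (hs : Tsq.sq R = (S, B)) (hR : R ≠ .nil)
    (h1 : (cont R).count 1 = 0) : BF R B S := by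
  have hc : cont B + cont S = cont R := by
    let x : X R.numNodes := ⟨R, mem_treesOfNumNodesEq.2 rfl⟩
    have e1 : (TT (TT x)).1 = app (Tsq.sq R).2 (Tsq.sq R).1 := Tsq.TT_sq x hR
    have e2 : OddHC.cont (TT (TT x)).1 = OddHC.cont x.1 := by
      refine (cont_same ⟨2, ?_⟩).symm
      rfl
    rw [e1, hs, cont_app] at e2
    exact e2
  have hS : S ≠ .nil := by
    have := Tsq.sq_ne hR
    rw [hs] at this
    exact this
  have c := congrArg (Multiset.count 1) hc
  rw [Multiset.count_add, h1] at c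
  have z : ∀ {t : BinaryTree Unit}, (cont t).count 1 = 0 → ps t = [] := by
    intro t ht
    rw [← ps_length] at ht
    exact List.eq_nil_of_length_eq_zero ht
  have zB := z (t := B) (by omega)
  refine ⟨z h1, zB, z (by omega), ln_pos hR (z h1), ln_pos hS (z (by omega)), ?_⟩
  by_cases hB : B = .nil
  · exact Or.inl hB
  · exact Or.inr (ln_pos hB zB)

theorem comps_mir (t : BinaryTree Unit) : comps (Tsq.mir t) = (comps t).reverse.map Tsq.mir := by
  induction t with
  | nil => rfl
  | node _ A B _ ihB =>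
    change comps (Tsq.mir (A △ B)) = (A :: comps B).reverse.map Tsq.mir
    rw [mir_node, comps_app, ihB, List.reverse_cons, List.map_append]
    rfl

theorem mir_l2 : Tsq.mir l2 = l2 := rfl

theorem app_lf_l2 {B : BinaryTree Unit} (h : app B (.nil △ .nil) = l2) : ln B = 0 := by
  have h1 := congrArg comps h
  rw [comps_app] at h1
  change comps B ++ [BinaryTree.nil] = [BinaryTree.nil] ++ [BinaryTree.nil] at h1
  have h2 := List.append_cancel_right h1
  have h3 : B = .nil △ .nil := comps_inj h2
  rw [h3]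
  rfl

variable {R B S R' B' S' : BinaryTree Unit} {i j : ℕ}

theorem LT.pos (h : LT R B S) : 0 < ln R ∧ 0 < ln S ∧ 0 < ln B := by
  obtain ⟨y, h1, h2, _⟩ := h.pB
  have := h.sum
  have := h.s4
  omega

theorem LT.W_ne (h : LT R B S) (h' : BF R' B' S') (hi : i < 20) (hj : j < 20) :
    H1.W R .nil B S i ≠ H1.W R' .nil B' S' j := by
  intro e
  obtain ⟨hr, hs, hb⟩ := h.pos
  obtain ⟨x, hx, pR⟩ := h.pR
  obtain ⟨y, hy, hy0, pB⟩ := h.pB
  obtain ⟨l1, l3⟩ := LN_PP hr hs (Or.inr hb) hi
  obtain ⟨l2', l4⟩ := LN_PP h'.r0 h'.s0 h'.hB hj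
  rw [pR, pB, h.pS] at l3
  rw [h'.pR, h'.pB, h'.pS] at l4
  rw [e] at l1 l3
  have hRn : R ≠ .nil := by rintro rfl; exact absurd hr (by simp [ln_nil])
  have hRn' : R' ≠ .nil := by rintro rfl; exact absurd h'.r0 (by simp [ln_nil])
  rcases cmpT hi hj hx hy h.sum h.s4 hy0 (l1.symm.trans l2') (l3.symm.trans l4) with
    ⟨rfl, h1⟩ | ⟨rfl, h2, h1⟩
  · rcases h1 with rfl | ⟨rfl, h1⟩ | ⟨rfl, h1⟩
    · change (.nil △ .nil) △ R = (app R' (.nil △ .nil)) △ .nil at e
      injection e with _ _ e1
      exact hRn e1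
    · obtain ⟨L, hL⟩ := h.lastR
      have e1 := congrArg comps e
      change (.nil △ .nil) :: comps R = comps (app S' (app B' (.nil △ .nil) △ .nil)) at e1
      rw [comps_app, hL] at e1
      change (((.nil △ .nil) :: L) ++ [l2]) = comps S' ++ [app B' (.nil △ .nil)] at e1
      have e2 := List.append_inj_right' e1 rfl
      rw [List.cons.injEq] at e2
      have := app_lf_l2 e2.1.symm
      omega
    · change (.nil △ .nil) △ R = (app S' (B' △ .nil)) △ .nil at e
      injection e with _ _ e1
      exact hRn e1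
  · rw [h.hB h2] at e
    rcases h1 with rfl | rfl
    · change l2 △ ((.nil △ .nil) △ S) = (.nil △ R') △ .nil at e
      injection e with _ _ e1
      cases e1
    · change l2 △ ((.nil △ .nil) △ S) = (.nil △ S') △ B' at e
      injection e with _ e1 _
      have e2 : (.nil △ .nil : BinaryTree Unit) = S' := by
        injection e1
      have := h'.s0
      rw [← e2] at this
      exact absurd this (by decide)

theorem LT.W_ne_mir (h : LT R B S) (h' : BF R' B' S') (hi : i < 20) (hj : j < 20) :
    Tsq.mir (H1.W R .nil B S i) ≠ H1.W R' .nil B' S' j := by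
  intro e
  obtain ⟨hr, hs, hb⟩ := h.pos
  obtain ⟨x, hx, pR⟩ := h.pR
  obtain ⟨y, hy, hy0, pB⟩ := h.pB
  obtain ⟨l1, l3⟩ := LN_PP hr hs (Or.inr hb) hi
  obtain ⟨l2', l4⟩ := LN_PP h'.r0 h'.s0 h'.hB hj
  have m1 := ln_mir (H1.W R .nil B S i)
  have m2 := ps_mir (H1.W R .nil B S i)
  rw [l1] at m1 m2
  rw [l3] at m2
  rw [pR, pB, h.pS] at m2
  rw [h'.pR, h'.pB, h'.pS] at l4
  rw [e] at m1 m2
  have hRn : R ≠ .nil := by rintro rfl; exact absurd hr (by simp [ln_nil])
  have hRn' : R' ≠ .nil := by rintro rfl; exact absurd h'.r0 (by simp [ln_nil])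
  rcases cmpTM hi hj hx hy h.sum h.s4 hy0 (m1.symm.trans l2') (m2.symm.trans l4) with
    ⟨rfl, h1⟩ | ⟨rfl, h2, h1⟩
  · obtain ⟨L, hL⟩ := h.lastR
    have e1 := congrArg comps e
    change comps (Tsq.mir ((.nil △ .nil) △ R)) = _ at e1
    rw [mir_node, comps_app, comps_mir, hL, List.reverse_append, List.map_append] at e1
    rcases h1 with rfl | rfl
    · change (l2 :: L.reverse.map Tsq.mir) ++ [.nil △ .nil] = [.nil △ R'] at e1
      have := congrArg List.length e1
      simp at this
    · change (l2 :: L.reverse.map Tsq.mir) ++ [.nil △ .nil] = (.nil △ S') :: comps B' at e1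
      rw [List.cons_append, List.cons.injEq] at e1
      have e2 : (.nil △ .nil : BinaryTree Unit) = S' := by
        have := e1.1
        injection this
      have := h'.s0
      rw [← e2] at this
      exact absurd this (by decide)
  · rw [h.hB h2] at e
    have e1 := congrArg comps e
    change comps (Tsq.mir (l2 △ ((.nil △ .nil) △ S))) = _ at e1
    rw [mir_node, mir_node, comps_app, comps_app, comps_mir] at e1
    have hSn : S ≠ .nil := by rintro rfl; exact absurd hs (by simp [ln_nil])
    have hc : comps S ≠ [] := comps_ne hSn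
    have hc1 := List.length_pos_iff.2 hc
    rcases h1 with rfl | ⟨rfl, h1⟩ | ⟨rfl, h1⟩
    · change _ = [app R' (.nil △ .nil)] at e1
      have := congrArg List.length e1
      simp [comps] at this
    · change (((comps S).reverse.map Tsq.mir ++ [.nil △ .nil]) ++ [l2]) =
        comps (app S' (app B' (.nil △ .nil) △ .nil)) at e1
      rw [comps_app] at e1
      change (((comps S).reverse.map Tsq.mir ++ [.nil △ .nil]) ++ [l2]) =
        comps S' ++ [app B' (.nil △ .nil)] at e1
      have e2 := List.append_inj_right' e1 rfl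
      rw [List.cons.injEq] at e2
      have := app_lf_l2 e2.1.symm
      omega
    · change _ = [app S' (B' △ .nil)] at e1
      have := congrArg List.length e1
      simp [comps] at this

theorem LZ.W_ne (h : LZ R S) (h' : BF R' B' S') (hi : i < 20) (hj : j < 20) :
    H1.W R .nil .nil S i ≠ H1.W R' .nil B' S' j := by
  intro e
  obtain ⟨x, hx, pR⟩ := h.pR
  obtain ⟨y, hy, pS⟩ := h.pS
  have h6 := h.s6
  have hsum := h.sum
  obtain ⟨l1, l3⟩ := LN_PP (R := R) (S := S) (B := .nil) (by omega) (by omega) (Or.inl rfl) hi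
  obtain ⟨l2', l4⟩ := LN_PP h'.r0 h'.s0 h'.hB hj
  rw [pR, pS, ps_nil, ln_nil, hsum] at l3
  rw [ln_nil, hsum] at l1
  rw [h'.pR, h'.pB, h'.pS] at l4
  rw [e] at l1 l3
  exact cmpZ hi hj hx hy h6 (l1.symm.trans l2') (l3.symm.trans l4)

theorem LZ.W_ne_mir (h : LZ R S) (h' : BF R' B' S') (hi : i < 20) (hj : j < 20) :
    Tsq.mir (H1.W R .nil .nil S i) ≠ H1.W R' .nil B' S' j := by
  intro e
  obtain ⟨x, hx, pR⟩ := h.pR
  obtain ⟨y, hy, pS⟩ := h.pS
  have h6 := h.s6
  have hsum := h.sum
  obtain ⟨l1, l3⟩ := LN_PP (R := R) (S := S) (B := .nil) (by omega) (by omega) (Or.inl rfl) hi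
  obtain ⟨l2', l4⟩ := LN_PP h'.r0 h'.s0 h'.hB hj
  have m1 := ln_mir (H1.W R .nil .nil S i)
  have m2 := ps_mir (H1.W R .nil .nil S i)
  rw [l1] at m1 m2
  rw [l3] at m2
  rw [pR, pS, ps_nil, ln_nil, hsum] at m2
  rw [ln_nil, hsum] at m1
  rw [h'.pR, h'.pB, h'.pS] at l4
  rw [e] at m1 m2
  exact cmpZM hi hj hx hy h6 (m1.symm.trans l2') (m2.symm.trans l4)

/-! ### Words with a hidden bead, words without -/

/-- a word of a gadget with one hidden bead, right or mirrored -/
def LW1 (w : BinaryTree Unit) : Prop :=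
  ∃ (R B S : BinaryTree Unit) (i : ℕ), i < 20 ∧ (LT R B S ∨ (B = .nil ∧ LZ R S)) ∧
    (w = H1.W R .nil B S i ∨ w = Tsq.mir (H1.W R .nil B S i))

/-- a word of a gadget without hidden beads, right or mirrored -/
def JW1 (w : BinaryTree Unit) : Prop :=
  ∃ (R B S : BinaryTree Unit) (i : ℕ), i < 20 ∧ BF R B S ∧
    (w = H1.W R .nil B S i ∨ w = Tsq.mir (H1.W R .nil B S i))

/-- **no common word** -/
theorem LW1.not_JW1 {w : BinaryTree Unit} (h : LW1 w) (h' : JW1 w) : False := by
  obtain ⟨R, B, S, i, hi, hd, hw⟩ := h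
  obtain ⟨R', B', S', j, hj, hd', hw'⟩ := h'
  have k1 : H1.W R .nil B S i ≠ H1.W R' .nil B' S' j := by
    rcases hd with hd | ⟨rfl, hd⟩
    · exact hd.W_ne hd' hi hj
    · exact hd.W_ne hd' hi hj
  have k2 : Tsq.mir (H1.W R .nil B S i) ≠ H1.W R' .nil B' S' j := by
    rcases hd with hd | ⟨rfl, hd⟩
    · exact hd.W_ne_mir hd' hi hj
    · exact hd.W_ne_mir hd' hi hj
  rcases hw with rfl | rfl <;> rcases hw' with hw' | hw'
  · exact k1 hw'
  · apply k2
    rw [hw', Tsq.mir_mir]
  · exact k2 hw'
  · apply k1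
    rw [← Tsq.mir_mir (H1.W R .nil B S i), hw', Tsq.mir_mir]

end Ft

end Pool.OddHC
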