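import Pool.Agent.Work.MP_8f87b2_h11.OS
import Pool.Agent.Work.MP_8f87b2_h11.Tab

/-!
# The class `OSW` and the words of a B-window
-/

set_option autoImplicit false
set_option linter.unusedSimpArgs false

namespace Pool.OddHC

open Finset Equiv BinaryTree Pool.Agent.Work.MP_8f87b2_co

namespace OS

open J H1

variable {k q c : ℕ} {R B S w : BinaryTree Unit}

/-- exceptional words -/
def Mr (w : BinaryTree Unit) : Prop :=
  ∃ B S : BinaryTree Unit, B ≠ .nil ∧ B ≠ .nil △ .nil ∧ S ≠ .nil ∧ J.o1 S = 0 ∧ OddHC.ht B ≤ 2 ∧
    3 ≤ OddHC.ht S ∧ ∃ j ∈ [13, 16, 18, 19], w = W .nil .nil B S j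

/-- exceptional words, right or mirrored -/
def Mx (w : BinaryTree Unit) : Prop := Mr w ∨ Mr (Tsq.mir w)

/-- words of a one-soliton gadget -/
def OSW (w : BinaryTree Unit) : Prop := t3 w ≤ 1 ∨ (t3 w ≤ 2 ∧ t4 w ≤ 1 ∧ Mx w)

theorem t4_mir (w : BinaryTree Unit) : t4 (Tsq.mir w) = t4 w := by
  unfold t4; rw [HM.cont_mir]

theorem OSW.mir (h : OSW w) : OSW (Tsq.mir w) := by
  rcases h with h | ⟨h1, h4, h2⟩
  · left; rw [t3_mir]; exact h
  · right
    refine ⟨by rw [t3_mir]; exact h1, by rw [t4_mir]; exact h4, ?_⟩
    rcases h2 with h2 | h2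
    · right; rw [Tsq.mir_mir]; exact h2
    · left; exact h2

/-- parts 1 from a component -/
theorem o1_mem {S C : BinaryTree Unit} (h : C ∈ comps S) : (raise (OddHC.cont C)).count 1 ≤ J.o1 S := by
  induction S with
  | nil => exact absurd h (by simp [comps])
  | node _ A D _ ih =>
    have e : J.o1 (A △ D) = _ := o1_node A D
    rw [e]
    change C ∈ A :: comps D at h
    rcases List.mem_cons.1 h with rfl | h
    · omega
    · have := ih h
      omega

theorem nil_nm (h : J.o1 S = 0) : BinaryTree.nil ∉ comps S := by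
  intro h1
  have := o1_mem h1
  rw [cont_nil, raise_zero, h, Multiset.count_singleton_self] at this
  omega

/-- a component `B()` gives a part 1 -/
theorem app_nm (h : J.o1 S = 0) (hB : B ≠ .nil) : app B (.nil △ .nil) ∉ comps S := by
  intro h1
  have h2 := o1_mem h1
  rw [h, cont_app, cont_node, cont_nil, raise_zero, add_zero] at h2
  have h3 : OddHC.cont B ≠ 0 := fun e => hB (cont_eq_zero.1 e)
  have h4 := sup_mem h3
  have h5 : 1 ≤ (OddHC.cont B).sup := cont_pos _ _ h4
  have h6 : (OddHC.cont B + {1}).sup = (OddHC.cont B).sup := by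
    rw [sup_add', Multiset.sup_singleton]; omega
  have h7 : (raise (OddHC.cont B + {1})).count 1 ≠ 0 := by
    unfold raise
    rw [h6, Multiset.count_cons_of_ne (by omega), Multiset.erase_add_left_pos _ h4, Multiset.count_add,
      Multiset.count_singleton_self]
    omega
  omega

/-- the shapes -/
theorem Mr.rc (h : Mr w) :
    (∃ (B : BinaryTree Unit) (L : List (BinaryTree Unit)), B ≠ .nil ∧ L ≠ [] ∧ BinaryTree.nil ∉ L ∧
      (comps w).reverse = app B (.nil △ .nil) :: L) ∨
    (∃ (B : BinaryTree Unit) (L : List (BinaryTree Unit)), B ≠ .nil ∧ B ≠ .nil △ .nil ∧ L ≠ [] ∧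
      BinaryTree.nil ∉ L ∧ (comps w).reverse = .nil :: B :: L) ∨
    (∃ (B : BinaryTree Unit) (L : List (BinaryTree Unit)), B ≠ .nil ∧ B ≠ .nil △ .nil ∧ L ≠ [] ∧
      BinaryTree.nil ∉ L ∧ (comps w).reverse = B :: (L ++ [.nil])) ∨
    (∃ (C B : BinaryTree Unit) (L : List (BinaryTree Unit)), B ≠ .nil ∧ B ≠ .nil △ .nil ∧ L ≠ [] ∧
      BinaryTree.nil ∉ L ∧ (comps w).reverse = [C] ∧ (comps C).reverse = B :: L) := by
  obtain ⟨B, S, hB, hB1, hS, hS0, _, _, j, hj, rfl⟩ := h
  have hn := nil_nm hS0
  have hL : (comps S).reverse ≠ [] := by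
    intro e
    rw [List.reverse_eq_nil_iff] at e
    exact hS (comps_inj (e.trans rfl))
  have hn' : BinaryTree.nil ∉ (comps S).reverse := by rwa [List.mem_reverse]
  simp only [List.mem_cons, List.not_mem_nil, or_false] at hj
  rcases hj with rfl | rfl | rfl | rfl
  · left
    refine ⟨B, _, hB, hL, hn', ?_⟩
    change (comps (app S (app B (.nil △ .nil) △ .nil))).reverse = _
    rw [comps_app, comps_node, List.reverse_append]
    rfl
  · right; left
    refine ⟨B, _, hB, hB1, hL, hn', ?_⟩
    change (comps (app S (B △ (.nil △ .nil)))).reverse = _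
    rw [comps_app, comps_node, comps_node, List.reverse_append]
    rfl
  · right; right; left
    refine ⟨B, _, hB, hB1, hL, hn', ?_⟩
    change (comps (.nil △ app S (B △ .nil))).reverse = _
    rw [comps_node, comps_app, comps_node, List.reverse_cons, List.reverse_append]
    rfl
  · right; right; right
    refine ⟨app S (B △ .nil), B, _, hB, hB1, hL, hn', rfl, ?_⟩
    rw [comps_app, comps_node, List.reverse_append]
    rfl

theorem comps_ch2 : comps (ch 2) = [.nil △ .nil] := rfl

theorem app_lf_ne {B C : BinaryTree Unit} (hB : B ≠ .nil) : app B (.nil △ .nil) ≠ C △ .nil := by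
  intro e
  have h1 := congrArg comps e
  rw [comps_app, comps_node, comps_node] at h1
  have h2 : comps B = [] := by
    have := congrArg List.length h1
    simp only [List.length_append, List.length_cons, List.length_nil, comps] at this
    exact List.eq_nil_of_length_eq_zero (by omega)
  exact hB (comps_inj (h2.trans rfl))

theorem app_lf_ne0 {B : BinaryTree Unit} : app B (.nil △ .nil) ≠ .nil := by
  intro e
  have h1 := congrArg comps e
  rw [comps_app] at h1
  simp [comps] at h1

theorem X_cons {T : Type} {X Y L : List T} {b : T} (hX : X ≠ []) (e : X ++ Y = b :: L) :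
    b ∈ X ∧ ∀ y ∈ Y, y ∈ L := by
  cases X with
  | nil => exact absurd rfl hX
  | cons x X' =>
    rw [List.cons_append, List.cons.injEq] at e
    refine ⟨by rw [e.1]; exact List.mem_cons_self .., fun y hy => ?_⟩
    rw [← e.2]
    exact List.mem_append_right _ hy

theorem ob_ne {R B : BinaryTree Unit} (nR : BinaryTree.nil ∉ comps R) (hB : B ≠ .nil) (hR : R ≠ .nil) :
    BinaryTree.nil △ R ≠ app B (.nil △ .nil) := by
  intro e
  cases B with
  | nil => exact hB rfl
  | node _ A C =>
    change BinaryTree.nil △ R = A △ app C (.nil △ .nil) at e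
    rw [BinaryTree.node.injEq] at e
    apply nR
    rw [e.2.2, comps_app]
    exact List.mem_append_right _ (List.mem_cons_self ..)

/-- **the right words** -/
theorem core_r (hR : R ≠ .nil) (hS : S ≠ .nil) (oR : J.o1 R = 0) (oS : J.o1 S = 0) {i : ℕ} (hi : i ∈ li) :
    ¬ Mr (W R (ch 2) .nil S i) := by
  intro h
  have cR : (comps R).reverse ≠ [] := fun e => hR (comps_inj ((List.reverse_eq_nil_iff.1 e).trans rfl))
  have cS : (comps S).reverse ≠ [] := fun e => hS (comps_inj ((List.reverse_eq_nil_iff.1 e).trans rfl))
  have nR := nil_nm oR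
  have nS := nil_nm oS
  have h4 := h.rc
  simp only [li, List.mem_cons, List.not_mem_nil, or_false] at hi
  rcases hi with rfl | rfl | rfl | rfl | rfl | rfl | rfl | rfl | rfl | rfl | rfl | rfl <;>
    rcases h4 with ⟨B, L, hB, hL, hn, e⟩ | ⟨B, L, hB, hB1, hL, hn, e⟩ | ⟨B, L, hB, hB1, hL, hn, e⟩ |
      ⟨C, B, L, hB, hB1, hL, hn, e, e'⟩ <;>
    simp only [W, app, comps_app, comps_node, comps_ch2, comps, List.reverse_append, List.reverse_cons,
      List.reverse_nil, List.nil_append, List.append_nil, List.append_assoc, List.cons_append] at e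
  -- 1
  · rw [List.cons.injEq] at e; exact app_lf_ne0 e.1.symm
  · rw [List.cons.injEq, List.cons.injEq] at e; exact hB1 e.2.1.symm
  · rw [List.cons.injEq] at e; exact hB e.1.symm
  · rw [List.cons.injEq] at e; exact absurd e.2 (by simp)
  -- 2
  · rw [List.cons.injEq] at e; exact app_lf_ne hB e.1.symm
  · rw [List.cons.injEq] at e; exact absurd e.1 (by simp)
  · rw [List.cons.injEq] at e; exact hB1 e.1.symm
  · rw [List.cons.injEq] at e; exact absurd e.2 (by simp)
  -- 3
  · rw [List.cons.injEq] at e; exact hL e.2.symm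
  · rw [List.cons.injEq] at e; exact absurd e.2 (by simp)
  · rw [List.cons.injEq] at e; exact absurd e.2 (by simp)
  · rw [List.cons.injEq] at e
    rw [← e.1, comps_app, comps_node, comps_ch2, List.reverse_append] at e'
    simp only [List.reverse_cons, List.reverse_nil, List.nil_append, List.cons_append, List.cons.injEq] at e'
    exact hB1 e'.1.symm
  -- 7
  · rw [List.cons.injEq] at e; exact ob_ne nR hB hR e.1
  · rw [List.cons.injEq] at e; exact absurd e.1 (by simp)
  · rw [List.cons.injEq] at e
    have := congrArg List.length e.2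
    rw [List.length_append, List.length_cons, List.length_nil] at this
    exact hL (List.eq_nil_of_length_eq_zero (by simpa using this))
  · rw [List.cons.injEq] at e; exact absurd e.2 (by simp)
  -- 8
  · rw [List.cons.injEq] at e; exact hn (by rw [← e.2]; simp)
  · rw [List.cons.injEq] at e; exact hR e.1
  · rw [List.cons.injEq] at e
    have := congrArg List.getLast? e.2
    simp at this
  · rw [List.cons.injEq] at e; exact absurd e.2 (by simp)
  -- 9
  · rw [List.cons.injEq] at e; exact app_lf_ne hB e.1.symm
  · rw [List.cons.injEq] at e; exact absurd e.1 (by simp)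
  · rw [List.cons.injEq] at e; exact hB1 e.1.symm
  · rw [List.cons.injEq] at e; exact absurd e.2 (by simp)
  -- 11
  · exact app_nm oS hB (List.mem_reverse.1 (X_cons cS e).1)
  · exact nS (List.mem_reverse.1 (X_cons cS e).1)
  · have e2 : ((comps S).reverse ++ [.nil, .nil △ .nil]) ++ [BinaryTree.nil] = (B :: L) ++ [.nil] := by
      simpa using e
    exact hn ((X_cons cS (List.append_cancel_right e2)).2 _ (by simp))
  · have := congrArg List.length e
    simp at this
  -- 12
  · rw [List.cons.injEq] at e; exact app_lf_ne hB e.1.symm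
  · rw [List.cons.injEq] at e; exact absurd e.1 (by simp)
  · rw [List.cons.injEq] at e; exact hB1 e.1.symm
  · rw [List.cons.injEq] at e; exact absurd e.2 (by simp)
  -- 14
  · rw [List.cons.injEq] at e; exact hL e.2.symm
  · rw [List.cons.injEq] at e; exact absurd e.2 (by simp)
  · rw [List.cons.injEq] at e; exact absurd e.2 (by simp)
  · rw [List.cons.injEq] at e
    rw [← e.1, comps_app, comps_node, comps_ch2, List.reverse_append] at e'
    simp only [List.reverse_cons, List.reverse_nil, List.nil_append, List.append_assoc, List.cons_append] at e'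
    exact hn ((X_cons cS e').2 _ (by simp))
  -- 17
  · rw [List.cons.injEq] at e; exact app_lf_ne hB e.1.symm
  · rw [List.cons.injEq] at e; exact absurd e.1 (by simp)
  · rw [List.cons.injEq] at e
    have := congrArg List.length e.2
    rw [List.length_append, List.length_cons, List.length_nil] at this
    exact hL (List.eq_nil_of_length_eq_zero (by simpa using this))
  · rw [List.cons.injEq] at e; exact absurd e.2 (by simp)
  -- 18
  · rw [List.cons.injEq] at e; exact app_lf_ne0 e.1.symm
  · rw [List.cons.injEq] at e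
    exact hn ((X_cons cS e.2).2 _ (by simp))
  · rw [List.cons.injEq] at e; exact hB e.1.symm
  · rw [List.cons.injEq] at e; exact absurd e.2 (by simp)
  -- 19
  · rw [List.cons.injEq] at e; exact app_lf_ne hB e.1.symm
  · rw [List.cons.injEq] at e; exact absurd e.1 (by simp)
  · rw [List.cons.injEq] at e; exact hB1 e.1.symm
  · rw [List.cons.injEq] at e; exact absurd e.2 (by simp)

theorem mir_ne (h : R ≠ .nil) : Tsq.mir R ≠ .nil := by
  intro e
  apply h
  rw [← Tsq.mir_mir R, e]
  rfl

/-- **the mirrored words** -/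
theorem core_m (hR : R ≠ .nil) (hS : S ≠ .nil) (oR : J.o1 R = 0) (oS : J.o1 S = 0) {i : ℕ} (hi : i ∈ li) :
    ¬ Mr (Tsq.mir (W R (ch 2) .nil S i)) := by
  intro h
  have hR' := mir_ne hR
  have hS' := mir_ne hS
  have oR' : J.o1 (Tsq.mir R) = 0 := by rw [o1_mir]; exact oR
  have oS' : J.o1 (Tsq.mir S) = 0 := by rw [o1_mir]; exact oS
  have m0 : Tsq.mir (BinaryTree.nil : BinaryTree Unit) = .nil := rfl
  have m2 : Tsq.mir (ch 2) = ch 2 := rfl
  have h4 := h.rc
  simp only [li, List.mem_cons, List.not_mem_nil, or_false] at hi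
  rcases hi with rfl | rfl | rfl | rfl | rfl | rfl | rfl | rfl | rfl | rfl | rfl | rfl <;>
    rcases h4 with ⟨B, L, hB, hL, hn, e⟩ | ⟨B, L, hB, hB1, hL, hn, e⟩ | ⟨B, L, hB, hB1, hL, hn, e⟩ |
      ⟨C, B, L, hB, hB1, hL, hn, e, e'⟩ <;>
    simp only [W, app, Tsq.mir_app, Tsq.mir_node, m0, m2] at e
  all_goals
    generalize Tsq.mir R = R' at *
    generalize Tsq.mir S = S' at *
    have cR : (comps R').reverse ≠ [] := fun e => hR' (comps_inj ((List.reverse_eq_nil_iff.1 e).trans rfl))
    have cS : (comps S').reverse ≠ [] := fun e => hS' (comps_inj ((List.reverse_eq_nil_iff.1 e).trans rfl))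
    have nR := nil_nm oR'
    have nS := nil_nm oS'
  all_goals
    simp only [app, comps_app, comps_node, comps_ch2, comps, List.reverse_append, List.reverse_cons,
      List.reverse_nil, List.nil_append, List.append_nil, List.append_assoc, List.cons_append] at e
  -- 1
  · exact app_nm oR' hB (List.mem_reverse.1 (X_cons cR e).1)
  · exact nR (List.mem_reverse.1 (X_cons cR e).1)
  · have e2 : ((comps R').reverse ++ [.nil, .nil △ .nil]) ++ [BinaryTree.nil] = (B :: L) ++ [.nil] := by
      simpa using e
    exact hn ((X_cons cR (List.append_cancel_right e2)).2 _ (by simp))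
  · have := congrArg List.length e
    simp at this
  -- 2
  · rw [List.cons.injEq] at e; exact app_lf_ne0 e.1.symm
  · rw [List.cons.injEq] at e
    exact hn ((X_cons cR e.2).2 _ (by simp))
  · rw [List.cons.injEq] at e; exact hB e.1.symm
  · rw [List.cons.injEq] at e; exact absurd e.2 (by simp)
  -- 3
  · rw [List.cons.injEq] at e; exact hL e.2.symm
  · rw [List.cons.injEq] at e; exact absurd e.2 (by simp)
  · rw [List.cons.injEq] at e; exact absurd e.2 (by simp)
  · rw [List.cons.injEq] at e
    rw [← e.1] at e'
    simp only [app, comps_app, comps_node, comps_ch2, comps, List.reverse_append, List.reverse_cons,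
      List.reverse_nil, List.nil_append, List.append_nil, List.append_assoc, List.cons_append] at e'
    exact hn ((X_cons cR e').2 _ (by simp))
  -- 7
  · rw [List.cons.injEq] at e; exact app_lf_ne hB e.1.symm
  · rw [List.cons.injEq] at e; exact absurd e.1 (by simp)
  · rw [List.cons.injEq] at e; exact hB1 e.1.symm
  · rw [List.cons.injEq] at e; exact absurd e.2 (by simp)
  -- 8
  · rw [List.cons.injEq] at e; exact app_lf_ne hB e.1.symm
  · rw [List.cons.injEq] at e; exact absurd e.1 (by simp)
  · rw [List.cons.injEq] at e; exact hB1 e.1.symm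
  · rw [List.cons.injEq] at e; exact absurd e.2 (by simp)
  -- 9
  · rw [List.cons.injEq] at e; exact app_lf_ne hB e.1.symm
  · rw [List.cons.injEq] at e; exact absurd e.1 (by simp)
  · rw [List.cons.injEq] at e
    have := congrArg List.length e.2
    rw [List.length_append, List.length_cons, List.length_nil] at this
    exact hL (List.eq_nil_of_length_eq_zero (by simpa using this))
  · rw [List.cons.injEq] at e; exact absurd e.2 (by simp)
  -- 11
  · rw [List.cons.injEq] at e; exact app_lf_ne0 e.1.symm
  · rw [List.cons.injEq, List.cons.injEq] at e; exact hB1 e.2.1.symm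
  · rw [List.cons.injEq] at e; exact hB e.1.symm
  · rw [List.cons.injEq] at e; exact absurd e.2 (by simp)
  -- 12
  · rw [List.cons.injEq] at e; exact hn (by rw [← e.2]; simp)
  · rw [List.cons.injEq] at e; exact hS' e.1
  · rw [List.cons.injEq] at e
    have := congrArg List.getLast? e.2
    simp at this
  · rw [List.cons.injEq] at e; exact absurd e.2 (by simp)
  -- 14
  · rw [List.cons.injEq] at e; exact hL e.2.symm
  · rw [List.cons.injEq] at e; exact absurd e.2 (by simp)
  · rw [List.cons.injEq] at e; exact absurd e.2 (by simp)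
  · rw [List.cons.injEq] at e
    rw [← e.1] at e'
    simp only [app, comps_app, comps_node, comps_ch2, comps, List.reverse_append, List.reverse_cons,
      List.reverse_nil, List.nil_append, List.append_nil, List.append_assoc, List.cons_append,
      List.cons.injEq] at e'
    exact hB1 e'.1.symm
  -- 17
  · rw [List.cons.injEq] at e; exact app_lf_ne hB e.1.symm
  · rw [List.cons.injEq] at e; exact absurd e.1 (by simp)
  · rw [List.cons.injEq] at e; exact hB1 e.1.symm
  · rw [List.cons.injEq] at e; exact absurd e.2 (by simp)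
  -- 18
  · rw [List.cons.injEq] at e; exact app_lf_ne hB e.1.symm
  · rw [List.cons.injEq] at e; exact absurd e.1 (by simp)
  · rw [List.cons.injEq] at e; exact hB1 e.1.symm
  · rw [List.cons.injEq] at e; exact absurd e.2 (by simp)
  -- 19
  · rw [List.cons.injEq] at e; exact ob_ne nS hB hS' e.1
  · rw [List.cons.injEq] at e; exact absurd e.1 (by simp)
  · rw [List.cons.injEq] at e
    have := congrArg List.length e.2
    rw [List.length_append, List.length_cons, List.length_nil] at this
    exact hL (List.eq_nil_of_length_eq_zero (by simpa using this))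
  · rw [List.cons.injEq] at e; exact absurd e.2 (by simp)

theorem core (hR : R ≠ .nil) (hS : S ≠ .nil) (oR : J.o1 R = 0) (oS : J.o1 S = 0) {i : ℕ} (hi : i ∈ li) :
    ¬ Mx (W R (ch 2) .nil S i) := by
  rintro (h | h)
  · exact core_r hR hS oR oS hi h
  · exact core_m hR hS oR oS hi h

end OS

end Pool.OddHC
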