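import Pool.Agent.Work.MP_8f87b2_h11.OS2
import Pool.Agent.Work.MP_8f87b2_h11.L1Rows
import Pool.Agent.Work.MP_8f87b2_h63.BWg

/-!
# Windows with `q ≥ 1` (data `PT`) against the one-soliton gadgets H and L1: words

`H1.PT.not_OSW`, `J.JG.osw`, `TyL1.osw`; `PWb.dis_H`, `PWb.dis_L1`.
-/

set_option autoImplicit false
set_option linter.unusedSimpArgs false

namespace Pool.OddHC

open Finset Equiv BinaryTree Pool.Agent.Work.MP_8f87b2_co

open OS J

variable {k q n : ℕ} {R B S : BinaryTree Unit} {F F' : Set (Cyc k)} {g g' : DG k}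

namespace OS

theorem o1_0 {t : BinaryTree Unit} (h : ∀ x ∈ OddHC.cont t, 3 ≤ x) : J.o1 t = 0 := by
  unfold J.o1
  rw [Multiset.count_eq_zero]
  intro hm
  have := h 1 hm
  omega

theorem cp_split (M : Multiset ℕ) (h : ∀ x ∈ M, 3 ≤ x) :
    M.countP (fun x => 3 ≤ x) = M.countP (fun x => 4 ≤ x) + M.count 3 := by
  induction M using Multiset.induction_on with
  | empty => rfl
  | cons a M ih =>
    have h1 := ih (fun x hx => h x (Multiset.mem_cons_of_mem hx))
    have h2 := h a (Multiset.mem_cons_self a M)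
    have e1 := Multiset.countP_cons (fun x => 3 ≤ x) a M
    have e2 := Multiset.countP_cons (fun x => 4 ≤ x) a M
    rw [if_pos h2] at e1
    rcases Nat.eq_or_lt_of_le h2 with h3 | h3
    · subst h3
      rw [if_neg (by omega)] at e2
      rw [Multiset.count_cons_self]
      omega
    · rw [if_pos (by omega)] at e2
      rw [Multiset.count_cons_of_ne (by omega)]
      omega

end OS

namespace H1

/-- the data of a window word with at most two parts `≥ 3`, at most one part `≥ 4` -/
theorem PT.thin (h : PT q R B S) {i : ℕ} (hi : i < 20) (h3 : t3 (W R (ch (q + 1)) B S i) ≤ 2)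
    (h4 : t4 (W R (ch (q + 1)) B S i) ≤ 1) : q = 1 ∧ B = .nil ∧ i ∈ OS.li ∧ t3 R = 2 ∧
      (OddHC.cont R).count 3 = 1 := by
  have hp := h.pd
  have hc3 : t3 B + t3 S = t3 R := by
    unfold t3; rw [← Multiset.countP_add, hp.dat.cont]
  have hc4 : t4 B + t4 S = t4 R := by
    unfold t4; rw [← Multiset.countP_add, hp.dat.cont]
  have l3 := OS.t3_W (q := q) hc3 hi
  have l4 := OS.t4_W (q := q) hc4 hi
  have cR : t3 R = t4 R + (OddHC.cont R).count 3 := OS.cp_split _ hp.R3
  have h2 : 2 ≤ t3 R := by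
    have h5 := hp.two
    have h6 : t3 R = (OddHC.cont R).card := Multiset.countP_eq_card.2 hp.R3
    have h7 : H1.n2 (OddHC.cont R) ≤ (OddHC.cont R).card := Multiset.countP_le_card _ _
    omega
  have c1 := h.c3
  have q1 := hp.q1
  have hQ0 : t3 (ch (q + 1)) = 0 := by omega
  have hq1 : q = 1 := by
    by_contra hne
    have := OS.t3_big (q := q) (by omega)
    omega
  have sS : 1 ≤ t4 S := by
    have h5 := hp.supS
    refine Multiset.countP_pos.2 ⟨(OddHC.cont S).sup, sup_mem hp.dat.neS, by omega⟩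
  have hB4 : t4 B = 0 := by omega
  have hB : B = .nil := by
    unfold t4 at hB4
    rw [Multiset.countP_eq_zero] at hB4
    apply cont_eq_zero.1
    rw [Multiset.eq_zero_iff_forall_notMem]
    intro x hx
    have h5 := hB4 x hx
    have h6 := hp.dat.bare x hx
    omega
  refine ⟨hq1, hB, ?_, by omega, by omega⟩
  by_contra hne
  have := OS.t3_W' (q := q) q1 hc3 hi hne (fun _ => hB)
  omega

/-- **no word of a window with `q ≥ 1` is a word of a one-soliton gadget** -/
theorem PT.not_OSW (h : PT q R B S) {i : ℕ} (hi : i < 20) : ¬ OSW (W R (ch (q + 1)) B S i) := by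
  intro hw
  have h2 : 2 ≤ t3 (W R (ch (q + 1)) B S i) := by
    have hp := h.pd
    have hc3 : t3 B + t3 S = t3 R := by
      unfold t3; rw [← Multiset.countP_add, hp.dat.cont]
    have l3 := OS.t3_W (q := q) hc3 hi
    have h5 := hp.two
    have h6 : t3 R = (OddHC.cont R).card := Multiset.countP_eq_card.2 hp.R3
    have h7 : H1.n2 (OddHC.cont R) ≤ (OddHC.cont R).card := Multiset.countP_le_card _ _
    omega
  rcases hw with h1 | ⟨h3, h4, h5⟩
  · omega
  obtain ⟨rfl, rfl, hli, _, _⟩ := h.thin hi h3 h4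
  exact core h.pd.neR h.pd.neS (OS.o1_0 h.pd.R3) (OS.o1_0 h.pd.S3) hli h5

end H1

/-! ### The words of the one-soliton gadgets -/

namespace OS

theorem c_le (M : Multiset ℕ) : M.countP (fun x => 4 ≤ x) ≤ M.countP (fun x => 3 ≤ x) := by
  induction M using Multiset.induction_on with
  | empty => simp
  | cons a M ih =>
    have e1 := Multiset.countP_cons (fun x => 3 ≤ x) a M
    have e2 := Multiset.countP_cons (fun x => 4 ≤ x) a M
    split_ifs at e1 e2 <;> omega

theorem ht2_of {t : BinaryTree Unit} (h : t3 t = 0) : OddHC.ht t ≤ 2 := by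
  rw [OddHC.ht_eq]
  by_contra hne
  have h1 : OddHC.cont t ≠ 0 := by
    intro e
    rw [e] at hne
    simp at hne
  unfold t3 at h
  rw [Multiset.countP_eq_zero] at h
  exact h _ (sup_mem h1) (by omega)

/-- `(B())`: no part `≥ 4` -/
theorem t4_low {A : BinaryTree Unit} (h : OddHC.ht A ≤ 2) : (raise (OddHC.cont A)).countP (4 ≤ ·) = 0 := by
  rw [Multiset.countP_eq_zero]
  intro x hx
  rw [OddHC.ht_eq] at h
  rcases Multiset.mem_cons.1 hx with h1 | h1
  · omega
  · have := Multiset.le_sup (Multiset.mem_of_mem_erase h1)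
    omega

theorem t4_out (M : Multiset ℕ) (h : M.countP (fun x => 4 ≤ x) ≤ 1) :
    (raise M).countP (fun x => 4 ≤ x) ≤ 1 := by
  have e := Multiset.countP_cons (fun x => 4 ≤ x) (M.sup + 1) (M.erase M.sup)
  unfold raise
  by_cases h4 : 4 ≤ M.sup
  · have h0 : M ≠ 0 := by
      rintro rfl
      simp at h4
    have hm : M.sup ∈ M := sup_mem h0
    have e2 := Multiset.countP_cons (fun x => 4 ≤ x) M.sup (M.erase M.sup)
    rw [Multiset.cons_erase hm, if_pos h4] at e2
    split_ifs at e <;> omega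
  · have e3 : (M.erase M.sup).countP (fun x => 4 ≤ x) = 0 := by
      rw [Multiset.countP_eq_zero]
      intro x hx
      have := Multiset.le_sup (Multiset.mem_of_mem_erase hx)
      omega
    split_ifs at e <;> omega

theorem t4_node (A C : BinaryTree Unit) : t4 (A △ C) = (raise (OddHC.cont A)).countP (4 ≤ ·) + t4 C := by
  unfold t4; rw [cont_node, Multiset.countP_add]

theorem t3_1 (A : BinaryTree Unit) (h : t3 A = 0) (C : BinaryTree Unit) : t3 (A △ C) ≤ 1 + t3 C := by
  have := t3_node_le A C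
  omega

/-- **the words of a gadget over a word with one soliton** -/
theorem osw_W' (hR : t3 R = 1) (hB : t3 B = 0) (hS : t3 S = 1) (hRh : 3 ≤ OddHC.ht R) (hSh : 3 ≤ OddHC.ht S)
    (h0 : B ≠ .nil → J.o1 S = 0) {j : ℕ} (hj : j < 20) : t3 (H1.W R .nil B S j) ≤ 1 ∨
      (t3 (H1.W R .nil B S j) ≤ 2 ∧ t4 (H1.W R .nil B S j) ≤ 1 ∧ B ≠ .nil ∧ B ≠ .nil △ .nil ∧ S ≠ .nil ∧
        J.o1 S = 0 ∧ OddHC.ht B ≤ 2 ∧ 3 ≤ OddHC.ht S ∧ j ∈ [13, 16, 18, 19]) := by
  have hn : t3 .nil = 0 := t3_nil
  have h00 : OddHC.ht (BinaryTree.nil : BinaryTree Unit) = 0 := rfl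
  have hBh := ht2_of hB
  have n1 : ∀ {A : BinaryTree Unit} (C : BinaryTree Unit), 3 ≤ OddHC.ht A → t3 (A △ C) = t3 A + t3 C :=
    fun C h => t3_hi h C
  have hSn : S ≠ .nil := by
    intro e
    rw [e] at hSh
    omega
  have t4n : t4 .nil = 0 := rfl
  have t4S : t4 S ≤ 1 := by
    have := c_le (OddHC.cont S)
    unfold t4
    unfold t3 at hS
    omega
  have t4B : t4 B = 0 := by
    have := c_le (OddHC.cont B)
    unfold t4
    unfold t3 at hB
    omega
  by_cases hsp : j ∈ [13, 16, 18, 19]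
  · by_cases hB0 : B = .nil
    · subst hB0
      left
      simp only [List.mem_cons, List.not_mem_nil, or_false] at hsp
      rcases hsp with rfl | rfl | rfl | rfl
      · change t3 (app S ((.nil △ .nil) △ .nil)) ≤ 1
        rw [t3_app, t3_l1]; omega
      · change t3 (app S (.nil △ (.nil △ .nil))) ≤ 1
        rw [t3_app, t3_o, t3_o]; omega
      · change t3 (.nil △ app S (.nil △ .nil)) ≤ 1
        rw [t3_o, t3_app, t3_o]; omega
      · change t3 (app S (.nil △ .nil) △ .nil) ≤ 1
        rw [n1 _ (by rw [ht_app]; omega), t3_app, t3_o]; omega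
    have hS0 := h0 hB0
    by_cases hB1 : B = .nil △ .nil
    · subst hB1
      left
      simp only [List.mem_cons, List.not_mem_nil, or_false] at hsp
      have r2 : (raise (OddHC.cont (.nil △ (.nil △ .nil) : BinaryTree Unit))).countP (3 ≤ ·) = 0 := by decide
      rcases hsp with rfl | rfl | rfl | rfl
      · change t3 (app S ((.nil △ (.nil △ .nil)) △ .nil)) ≤ 1
        rw [t3_app, t3_node, r2]; omega
      · change t3 (app S ((.nil △ .nil) △ (.nil △ .nil))) ≤ 1
        rw [t3_app, t3_l1, t3_o]; omega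
      · change t3 (.nil △ app S ((.nil △ .nil) △ .nil)) ≤ 1
        rw [t3_o, t3_app, t3_l1]; omega
      · change t3 (app S ((.nil △ .nil) △ .nil) △ .nil) ≤ 1
        rw [n1 _ (by rw [ht_app]; omega), t3_app, t3_l1]; omega
    right
    refine ⟨?_, ?_, hB0, hB1, hSn, hS0, hBh, hSh, hsp⟩
    · simp only [List.mem_cons, List.not_mem_nil, or_false] at hsp
      rcases hsp with rfl | rfl | rfl | rfl
      · change t3 (app S (app B (.nil △ .nil) △ .nil)) ≤ 2
        have := t3_1 (app B (.nil △ .nil)) (by rw [t3_app, t3_o]; omega) .nil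
        rw [t3_app]; omega
      · change t3 (app S (B △ (.nil △ .nil))) ≤ 2
        have := t3_1 B hB (.nil △ .nil)
        rw [t3_o] at this
        rw [t3_app]; omega
      · change t3 (.nil △ app S (B △ .nil)) ≤ 2
        have := t3_1 B hB .nil
        rw [t3_o, t3_app]; omega
      · change t3 (app S (B △ .nil) △ .nil) ≤ 2
        have := t3_1 B hB .nil
        rw [n1 _ (by rw [ht_app]; omega), t3_app]; omega
    · simp only [List.mem_cons, List.not_mem_nil, or_false] at hsp
      have tlf : t4 (.nil △ .nil) = 0 := rfl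
      rcases hsp with rfl | rfl | rfl | rfl
      · change t4 (app S (app B (.nil △ .nil) △ .nil)) ≤ 1
        rw [t4_app, t4_node, t4_low (by rw [ht_app, ht_node]; omega)]; omega
      · change t4 (app S (B △ (.nil △ .nil))) ≤ 1
        rw [t4_app, t4_node, t4_low hBh]; omega
      · change t4 (.nil △ app S (B △ .nil)) ≤ 1
        rw [t4_node, t4_low (by rw [h00]; omega), t4_app, t4_node, t4_low hBh]; omega
      · -- `(S(B))`
        change t4 (app S (B △ .nil) △ .nil) ≤ 1
        rw [t4_node, t4n, add_zero]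
        apply t4_out
        change t4 (app S (B △ .nil)) ≤ 1
        rw [t4_app, t4_node, t4_low hBh]; omega
  · left
    have hlt : j < 20 := hj
    simp only [List.mem_cons, List.not_mem_nil, or_false, not_or] at hsp
    obtain ⟨h13, h16, h18, h19⟩ := hsp
    interval_cases j
    · change t3 (app R ((.nil △ .nil) △ .nil)) ≤ 1
      rw [t3_app, t3_l1]; omega
    · change t3 (app R (.nil △ (.nil △ .nil))) ≤ 1
      rw [t3_app, t3_o, t3_o]; omega
    · change t3 (.nil △ app R (.nil △ .nil)) ≤ 1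
      rw [t3_o, t3_app, t3_o]; omega
    · change t3 (app R (.nil △ .nil) △ .nil) ≤ 1
      rw [n1 _ (by rw [ht_app]; omega), t3_app, t3_o]; omega
    · change t3 ((.nil △ .nil) △ R) ≤ 1
      rw [t3_l1]; omega
    · change t3 (.nil △ (.nil △ R)) ≤ 1
      rw [t3_o, t3_o]; omega
    · change t3 (R △ (.nil △ .nil)) ≤ 1
      rw [n1 _ hRh, t3_o]; omega
    · change t3 ((.nil △ R) △ .nil) ≤ 1
      rw [n1 _ (by rw [ht_node]; omega), t3_o]; omega
    · change t3 (.nil △ (R △ .nil)) ≤ 1
      rw [t3_o, n1 _ hRh]; omega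
    · change t3 ((R △ .nil) △ .nil) ≤ 1
      rw [n1 _ (by rw [ht_node]; omega), n1 _ hRh]; omega
    · change t3 (app B ((.nil △ .nil) △ S)) ≤ 1
      rw [t3_app, t3_l1]; omega
    · change t3 (app B (.nil △ (.nil △ S))) ≤ 1
      rw [t3_app, t3_o, t3_o]; omega
    · change t3 (S △ app B (.nil △ .nil)) ≤ 1
      rw [n1 _ hSh, t3_app, t3_o]; omega
    · exact absurd rfl h13
    · change t3 ((.nil △ S) △ B) ≤ 1
      rw [n1 _ (by rw [ht_node]; omega), t3_o]; omega
    · change t3 (.nil △ (S △ B)) ≤ 1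
      rw [t3_o, n1 _ hSh]; omega
    · exact absurd rfl h16
    · change t3 ((S △ B) △ .nil) ≤ 1
      rw [n1 _ (by rw [ht_node]; omega), n1 _ hSh]; omega
    · exact absurd rfl h18
    · exact absurd rfl h19

theorem osw_W (hR : t3 R = 1) (hB : t3 B = 0) (hS : t3 S = 1) (hRh : 3 ≤ OddHC.ht R) (hSh : 3 ≤ OddHC.ht S)
    (h0 : B ≠ .nil → J.o1 S = 0) {j : ℕ} (hj : j < 20) : OSW (H1.W R .nil B S j) := by
  rcases osw_W' hR hB hS hRh hSh h0 hj with h | ⟨h1, h2, h3, h4, h5, h6, h7, h8, h9⟩
  · exact Or.inl h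
  · right
    refine ⟨h1, h2, Or.inl ⟨B, S, h3, h4, h5, h6, h7, h8, j, h9, ?_⟩⟩
    simp only [List.mem_cons, List.not_mem_nil, or_false] at h9
    rcases h9 with rfl | rfl | rfl | rfl <;> rfl

end OS

end Pool.OddHC
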