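import Pool.Agent.Work.MP_8f87b2_h11.OS3
import Pool.Agent.Work.MP_8f87b2_h3.L1Rq
import Pool.Agent.Work.MP_8f87b2_h3.L1W
import Pool.Agent.Work.MP_8f87b2_h3.InJ
import Pool.Agent.Work.MP_8f87b2_h71.NatHost

/-!
# Inner words of the windows with `q ≥ 1` (data `PT`) against the word `(S(B))`, `ht B ≤ 2`, `S` without parts 1

`OS.lev19`: `(S(B))` has no factor `101` above the level 4. `OS.f101`: `T(x)`, `x` a word 1, 3, 8 with `Q = (())`, and its
mirror image have such a factor.
-/

set_option autoImplicit false
set_option linter.unusedSimpArgs false

namespace Pool.OddHC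

open Finset Equiv BinaryTree Pool.Agent.Work.MP_8f87b2_co

variable {k q n : ℕ} {R B S : BinaryTree Unit} {F F' : Set (Cyc k)} {g g' : DG k}

namespace OS

open H1

/-- without parts 1: no factor `101` -/
theorem no101 {S : BinaryTree Unit} (h : hg 2 S) (P Z : List Bool) :
    wd S ≠ P ++ true :: false :: true :: Z := by
  intro e
  obtain ⟨r, hr⟩ := hg_down (g := 2) (by norm_num) h (u := P ++ [true]) (v := Z) (by rw [e]; simp)
  have h1 := congrArg List.reverse hr
  simp [List.replicate_succ] at h1

theorem lev19 {B S : BinaryTree Unit} (hB : Tsq.ht B ≤ 2) (hS : hg 2 S) {P Z : List Bool}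
    (e : wd (app S (B △ .nil) △ .nil) = P ++ true :: false :: true :: Z)
    (hP : P.count false + 4 ≤ P.count true) : False := by
  cases P with
  | nil => simp at hP
  | cons x P =>
    rw [wd_node, wd_app, wd_node] at e
    have e0 : wd (.nil : BinaryTree Unit) = [] := rfl
    rw [e0, List.cons_append, List.cons.injEq] at e
    obtain ⟨rfl, e⟩ := e
    have hc : P.count false + 3 ≤ P.count true := by
      rw [List.count_cons, List.count_cons] at hP
      simp at hP
      omega
    have e' : wd S ++ (true :: (wd B ++ [false, false])) = (P ++ [true, false, true]) ++ Z := by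
      simpa using e
    rcases List.append_eq_append_iff.1 e' with ⟨C, h1, h2⟩ | ⟨C, h1, h2⟩
    · have c1 := congrArg (List.count true) h1
      have c2 := congrArg (List.count false) h1
      rw [List.count_append, List.count_append, (wd_counts S).1] at c1
      rw [List.count_append, List.count_append, (wd_counts S).2] at c2
      have d1 : List.count true [true, false, true] = 2 := by decide
      have d2 : List.count false [true, false, true] = 1 := by decide
      rw [d1] at c1
      rw [d2] at c2
      have hC : C.count false + 4 ≤ C.count true := by omega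
      have h3 : C = (true :: (wd B ++ [false, false])).take C.length := by rw [h2]; simp
      cases hm : C.length with
      | zero =>
        rw [List.length_eq_zero_iff] at hm
        subst hm
        simp at hC
      | succ m =>
        rw [hm, List.take_succ_cons, List.take_append] at h3
        have h4 := Tsq.ht_take B m
        have h5 : ∀ j, (List.take j [false, false]).count true = 0 := by
          intro j
          rw [List.count_eq_zero]
          intro hj
          have := List.mem_of_mem_take hj
          simp at this
        rw [h3, List.count_cons, List.count_cons, List.count_append, List.count_append, h5] at hC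
        simp at hC
        omega
    · exact no101 hS P C (by rw [h1]; simp)

theorem wd_ch2 : wd (ch 2) = [true, true, false, false] := rfl

theorem ht_ch2 : Tsq.ht (ch 2) = 2 := rfl

/-- the inner words 1, 3, 8 -/
theorem f101 {a b : List Bool} (h : FM R a b) (hR : hg 3 R) (h5 : 5 ≤ Tsq.ht R) {i : ℕ}
    (hi : i = 1 ∨ i = 3 ∨ i = 8) {x : OddHC.X k} (hx : x.1 = W R (ch 2) B S i) :
    (∃ P Z : List Bool, wd (TT x).1 = P ++ true :: false :: true :: Z ∧ P.count false + 4 ≤ P.count true) ∧
    (∃ P Z : List Bool, wd (Tsq.mir (TT x).1) = P ++ true :: false :: true :: Z ∧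
      P.count false + 4 ≤ P.count true) := by
  have hR0 : R ≠ .nil := by
    rintro rfl
    simp [Tsq.ht] at h5
  have hn : Tsq.ht (.nil : BinaryTree Unit) = 0 := rfl
  obtain ⟨v, hv⟩ := hg_end (by norm_num) hR hR0
  obtain ⟨b', rfl⟩ : ∃ b', b = b' ++ [false] := by
    have e := h.eq
    rw [hv] at e
    have e1 := congrArg List.reverse e
    simp only [List.reverse_append, List.reverse_cons, List.reverse_replicate, List.append_assoc] at e1
    cases hb : b.reverse with
    | nil =>
      rw [hb] at e1
      simp [List.replicate_succ] at e1
    | cons y l =>
      rw [hb] at e1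
      simp only [List.replicate_succ, List.cons_append, List.cons.injEq] at e1
      refine ⟨l.reverse, ?_⟩
      have := congrArg List.reverse hb
      rw [List.reverse_reverse] at this
      rw [this, List.reverse_cons, e1.1]
  have hbal := h.bal
  have htop := h.top
  rw [List.count_append, List.count_append] at hbal
  have d1 : List.count true [false] = 0 := rfl
  have d2 : List.count false [false] = 1 := rfl
  rw [d1, d2] at hbal
  have e0 : wd (.nil : BinaryTree Unit) = [] := rfl
  rcases hi with rfl | rfl | rfl
  · have f1 : FM x.1 a ((b' ++ [false]) ++ wd (.nil △ app (ch 2) (.nil △ .nil))) := by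
      rw [hx]
      refine h.app_right ?_
      rw [Tsq.ht_node, Tsq.ht_app, Tsq.ht_node, ht_ch2, hn]
      omega
    refine ⟨⟨b'.map not, [false, false, true, true, false, true] ++ false :: a.map not, ?_, ?_⟩,
      ⟨a.reverse, [false, false, true, true, false, true] ++ false :: b'.reverse, ?_, ?_⟩⟩
    · rw [f1.wdT, wd_node, wd_app, wd_node, wd_ch2, e0]
      simp
    · rw [Tsq.count_not_true, Tsq.count_not_false]
      omega
    · rw [J.wd_mir_TT f1, wd_node, wd_app, wd_node, wd_ch2, e0]
      simp
    · rw [List.count_reverse, List.count_reverse]
      omega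
  · have f1 : FM x.1 (true :: a) (((b' ++ [false]) ++ wd (.nil △ ch 2)) ++ false :: wd .nil) := by
      rw [hx]
      refine (h.app_right ?_).node ?_
      · rw [Tsq.ht_node, ht_ch2, hn]
        omega
      · rw [hn]; omega
    refine ⟨⟨b'.map not, [false, false, true, true, true] ++ false :: false :: a.map not, ?_, ?_⟩,
      ⟨a.reverse ++ [true, true, false, false, false, true], false :: b'.reverse, ?_, ?_⟩⟩
    · rw [f1.wdT, wd_node, wd_ch2, e0]
      simp
    · rw [Tsq.count_not_true, Tsq.count_not_false]
      omega
    · rw [J.wd_mir_TT f1, wd_node, wd_ch2, e0]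
      simp
    · rw [List.count_append, List.count_append, List.count_reverse, List.count_reverse]
      have d3 : List.count true [true, true, false, false, false, true] = 3 := by decide
      have d4 : List.count false [true, true, false, false, false, true] = 3 := by decide
      omega
  · have f0 : FM (R △ .nil) (true :: a) ((b' ++ [false]) ++ false :: wd .nil) := h.node (by rw [hn]; omega)
    have f2 : FM (.nil △ (R △ .nil)) (wd (.nil △ .nil) ++ true :: a) ((b' ++ [false]) ++ false :: wd .nil) := by
      have := f0.app_left (P := .nil △ .nil) (by rw [Tsq.ht_node, Tsq.ht_node, hn]; omega)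
      exact this
    have f1 : FM x.1 (wd (ch 2) ++ (wd (.nil △ .nil) ++ true :: a)) ((b' ++ [false]) ++ false :: wd .nil) := by
      rw [hx]
      exact f2.app_left (by rw [ht_ch2, Tsq.ht_node, Tsq.ht_node, hn]; omega)
    refine ⟨⟨b'.map not ++ [true, true, false, false, false, true], false :: a.map not, ?_, ?_⟩,
      ⟨a.reverse, [false, false, true, true, true, false] ++ false :: b'.reverse, ?_, ?_⟩⟩
    · rw [f1.wdT, wd_node, wd_ch2, e0]
      simp
    · rw [List.count_append, List.count_append, Tsq.count_not_true, Tsq.count_not_false]
      have d3 : List.count true [true, true, false, false, false, true] = 3 := by decide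
      have d4 : List.count false [true, true, false, false, false, true] = 3 := by decide
      omega
    · rw [J.wd_mir_TT f1, wd_node, wd_ch2, e0]
      simp
    · rw [List.count_reverse, List.count_reverse]
      omega

end OS

end Pool.OddHC
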