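import Pool.Agent.Work.MP_8f87b2_h11.OS4

/-!
# Windows with `q ≥ 1` (data `PT`, gadgets `PWb g`) against L1 and the one-soliton gadgets H

`PWb.dis_L1`, `PWb.inner_L1`, `PWb.L1_inner`.
-/

set_option autoImplicit false
set_option linter.unusedSimpArgs false

namespace Pool.OddHC

open Finset Equiv BinaryTree Pool.Agent.Work.MP_8f87b2_co

variable {k q n : ℕ} {R B S : BinaryTree Unit} {F F' : Set (Cyc k)} {g g' : DG k}

namespace H1

open J OS L1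

theorem PT.two3 (h : PT q R B S) : 2 ≤ t3 R := by
  have h5 := h.pd.two
  have h6 : t3 R = (OddHC.cont R).card := Multiset.countP_eq_card.2 h.pd.R3
  have h7 : H1.n2 (OddHC.cont R) ≤ (OddHC.cont R).card := Multiset.countP_le_card _ _
  omega

theorem PT.sum3 (h : PT q R B S) : t3 B + t3 S = t3 R := by
  unfold t3; rw [← Multiset.countP_add, h.pd.dat.cont]

theorem PT.t3W (h : PT q R B S) {i : ℕ} (hi : i < 20) : 2 ≤ t3 (W R (ch (q + 1)) B S i) := by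
  have h1 := h.two3
  have l3 := OS.t3_W (q := q) h.sum3 hi
  omega

/-- thin inner words -/
theorem PT.thin_inn (h : PT q R B S) {i : ℕ} (hi : i ∈ [0, 1, 3, 6, 8, 9])
    (hk : 12 ≤ (W R (ch (q + 1)) B S i).numNodes)
    (h3 : t3 (W R (ch (q + 1)) B S i) ≤ 2) (h4 : t4 (W R (ch (q + 1)) B S i) ≤ 1) :
    q = 1 ∧ B = .nil ∧ ((i = 1 ∨ i = 3 ∨ i = 8) ∨ i = 9) ∧ (OddHC.cont R).count 3 = 1 ∧ 5 ≤ Tsq.ht R := by
  have hi20 : i < 20 := bw_list20 hi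
  obtain ⟨rfl, rfl, hli, h5, h6⟩ := h.thin hi20 h3 h4
  refine ⟨rfl, rfl, ?_, h6, ?_⟩
  · simp only [OS.li, List.mem_cons, List.not_mem_nil, or_false] at hi hli
    omega
  · have h7 : (OddHC.cont R).card = 2 := by
      rw [← h5]
      exact (Multiset.countP_eq_card.2 h.pd.R3).symm
    rw [num_W h.pd.dat _ i hi20, ch_num] at hk
    have hm : 3 ∈ OddHC.cont R := Multiset.count_pos.1 (by omega)
    obtain ⟨M, hM⟩ := Multiset.exists_cons_of_mem hm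
    rw [hM, Multiset.card_cons] at h7
    obtain ⟨m, rfl⟩ := Multiset.card_eq_one.1 (show M.card = 1 by omega)
    have h8 := cont_sum R
    rw [hM, Multiset.sum_cons, Multiset.sum_singleton] at h8
    have h9 : m ≤ (OddHC.cont R).sup := Multiset.le_sup (by rw [hM]; simp)
    rw [← OddHC.ht_eq] at h9
    rw [H1.ht_eq]
    omega

theorem fm_ex (h : R ≠ .nil) : ∃ a b, FM R a b := by
  obtain ⟨a0, c, h1, h2, h3, h4, h5, h6, h7⟩ := Tsq.sq_spec R h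
  exact ⟨a0, c ++ false :: wd (Tsq.sq R).2, h1, h3, h4⟩

/-- **no words of L1** -/
theorem PT.dis_L1 (h : PT q R B S) {i : ℕ} (hi : i < 20) {x : OddHC.X k} (hx : x.1 = W R (ch (q + 1)) B S i)
    (h' : TyL1 F' g') : x ∉ g'.B :=
  h'.bare (hv_of_cont h.pd.R3) (hv_of_cont h.pd.B3) (hv_of_cont h.pd.S3) h.pd.neR h.pd.neS
    h.two3 h.sum3 hi hx

theorem hg_two {S : BinaryTree Unit} {n d : ℕ} (h : OddHC.cont S = {n + 2} + Multiset.replicate d 2) : hg 2 S := by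
  apply hg_of_cont (by norm_num)
  intro x hx
  rw [h, Multiset.mem_add, Multiset.mem_singleton] at hx
  rcases hx with rfl | hx
  · omega
  · exact (Multiset.eq_of_mem_replicate hx).ge

theorem ht_lv2t (c : ℕ) : Tsq.ht (lv2 c (L1.tb3 △ .nil)) ≤ 2 := by
  rw [H1.ht_eq, OddHC.ht_eq, L1.cont_lv2, L1.cont_tb3, sup_add']
  have h7 : (Multiset.replicate c 2).sup ≤ 2 := Multiset.sup_le.2 fun b hb =>
    (Multiset.eq_of_mem_replicate hb).le
  have h8 : ({2, 1} : Multiset ℕ).sup = 2 := by decide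
  omega

/-- the core of the row I-windows-L1 -/
theorem PT.inn_L1c (h : PT q R B S) {i : ℕ} (hi : i ∈ [0, 1, 3, 6, 8, 9])
    (hk : 12 ≤ (W R (ch (q + 1)) B S i).numNodes) {t : BinaryTree Unit} (hin : InnP 3 t)
    (hct : OddHC.cont t = OddHC.cont (W R (ch (q + 1)) B S i)) (hn : 1 ≤ n) (Φ : ZMod (2 * n + 1) → ℕ)
    (gr : L1.GR k (L1.RH n Φ)) {j : ℕ} (hj : j < 20) (h5 : j ≠ 5)
    (e : t = W (L1.RH n Φ) .nil (Tsq.sq (L1.RH n Φ)).2 (Tsq.sq (L1.RH n Φ)).1 j) :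
    q = 1 ∧ (i = 1 ∨ i = 3 ∨ i = 8) ∧ 5 ≤ Tsq.ht R ∧ hg 2 (Tsq.sq (L1.RH n Φ)).1 ∧
      Tsq.ht (Tsq.sq (L1.RH n Φ)).2 ≤ 2 ∧
      t = app (Tsq.sq (L1.RH n Φ)).1 ((Tsq.sq (L1.RH n Φ)).2 △ .nil) △ .nil := by
  have hi20 : i < 20 := bw_list20 hi
  have hB : (Tsq.sq (L1.RH n Φ)).2 = .nil ∨ ∃ c, (Tsq.sq (L1.RH n Φ)).2 = lv2 c (L1.tb3 △ .nil) := by
    rcases L1.B_form hn Φ with ⟨h1, _⟩ | ⟨c, h1, _⟩
    · exact Or.inl h1
    · exact Or.inr ⟨c, h1⟩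
  have c3 : 2 ≤ L1.cp 3 (OddHC.cont (W R (ch (q + 1)) B S i)) := h.t3W hi20
  rw [← hct, e] at c3
  rcases L1.InnP.L1w hin hB hj h5 e with rfl | rfl | ⟨rfl, hne⟩
  · rw [L1.cp3_9 hn] at c3
    omega
  · rw [L1.cp3_17 hn Φ gr] at c3
    omega
  · obtain ⟨c, hc⟩ : ∃ c, (Tsq.sq (L1.RH n Φ)).2 = lv2 c (L1.tb3 △ .nil) := by
      rcases hB with h | h
      · exact absurd h hne
      · exact h
    obtain ⟨d, hd, hS, h19⟩ := L1.cont_19 hn Φ gr hc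
    obtain ⟨k1, k2, k3⟩ := L1.ct_19 (m := n + 3) (c := c + d) (by omega)
    rw [← h19, ← e, hct] at k1 k2 k3
    have e3 : L1.cp 3 ({n + 3} + {3} + {1} + Multiset.replicate (c + d) 2) = 2 := by
      rw [L1.cp_add, L1.cp_add, L1.cp_add, L1.cp_one, L1.cp_one, L1.cp_one, L1.cp_rep 3 _ 2 (by norm_num),
        if_pos (by omega), if_pos (by norm_num), if_neg (by norm_num)]
    rw [← h19, ← e, hct] at e3
    obtain ⟨rfl, rfl, hi', -, h6⟩ := h.thin_inn hi hk e3.le k1.le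
    rcases hi' with hi' | rfl
    · exact ⟨rfl, hi', h6, hg_two hS, by rw [hc]; exact ht_lv2t c, e⟩
    · exfalso
      have hsup : 1 < (OddHC.cont R).sup := by
        rw [H1.ht_eq, OddHC.ht_eq] at h6
        omega
      have e9 : OddHC.cont (W R (ch (1 + 1)) .nil S 9) = raise (raise (OddHC.cont R)) + {1 + 1} := by
        change OddHC.cont ((R △ .nil) △ ch (1 + 1)) = _
        rw [cont_node, cont_node, cont_nil, add_zero, H1.ch_cont]
      have c1 : (OddHC.cont R).count 1 = 0 := Multiset.count_eq_zero.2 fun h1 => by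
        have := h.pd.R3 1 h1
        omega
      rw [e9, Multiset.count_add, L1.ct_raise (by rw [L1.sup_raise1]; omega), L1.ct_raise hsup, c1] at k2
      simp at k2

/-- **inner words against L1** -/
theorem PT.inn_L1 (h : PT q R B S) (hk : 12 ≤ k) {i : ℕ} (hi : i ∈ [0, 1, 3, 6, 8, 9]) {x : OddHC.X k}
    (hx : x.1 = W R (ch (q + 1)) B S i) (h' : TyL1 F' g') : TT x ∉ g'.B := by
  intro hw
  have hnum : 12 ≤ (W R (ch (q + 1)) B S i).numNodes := by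
    rw [← hx, mem_treesOfNumNodesEq.1 x.2]
    exact hk
  have hct : OddHC.cont (TT x).1 = OddHC.cont (W R (ch (q + 1)) B S i) := by
    rw [H1.cont_TT, hx]
  have hin := h.pd.innP hi hx
  have hgR : hg 3 R := hg_of_cont (by norm_num) h.pd.R3
  obtain ⟨a, b, hab⟩ := fm_ex h.pd.neR
  rcases h' with ⟨n, Φ, w1, hb, _, rfl, rfl⟩ | ⟨n, Φ, w1, hb, hr, rfl, rfl⟩
  · have gr := L1.GR_RH hb.hn Φ hb.hk
    obtain ⟨j, hj, h5, e⟩ := mem_gadJ.1 hw
    have e1 : (TT x).1 = W (L1.RH n Φ) .nil (Tsq.sq (L1.RH n Φ)).2 (Tsq.sq (L1.RH n Φ)).1 j := by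
      rw [← e, L1.xw_val hb.hn hb.hk w1 hj]
    obtain ⟨rfl, hi', h5', hS, hB, e2⟩ := h.inn_L1c hi hnum hin.1 hct hb.hn Φ gr hj h5 e1
    obtain ⟨⟨P, Z, h6, h7⟩, -⟩ := f101 hab hgR h5' hi' hx
    rw [e2] at h6
    exact lev19 hB hS h6 h7
  · have hkr : n + 5 + 2 * ∑ x, J.rf Φ x = k := by rw [J.rf_sum]; exact hb.hk
    have gr := L1.GR_RH hb.hn (J.rf Φ) (k := k) hkr
    obtain ⟨j, hj, h5, e⟩ := mem_gadJM.1 hw
    have e1 : Tsq.mir (TT x).1 =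
        W (L1.RH n (J.rf Φ)) .nil (Tsq.sq (L1.RH n (J.rf Φ))).2 (Tsq.sq (L1.RH n (J.rf Φ))).1 j := by
      rw [← e, L1.xm_val hb.hn hb.hk w1 hj, Tsq.mir_mir]
    have hct' : OddHC.cont (Tsq.mir (TT x).1) = OddHC.cont (W R (ch (q + 1)) B S i) := by
      rw [HM.cont_mir, hct]
    obtain ⟨rfl, hi', h5', hS, hB, e2⟩ := h.inn_L1c hi hnum hin.2 hct' hb.hn (J.rf Φ) gr hj h5 e1
    obtain ⟨-, P, Z, h6, h7⟩ := f101 hab hgR h5' hi' hx
    change Tsq.mir (TT x).1 = _ at e2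
    rw [e2] at h6
    exact lev19 hB hS h6 h7

end H1

namespace PWb

/-- **row W, L1** -/
theorem dis_L1 (h : PWb g) (h' : TyL1 F' g') : ∀ w ∈ g.B, w ∉ g'.B := by
  intro w hw
  obtain ⟨q, R, B, S, i, h1, hi, e⟩ := h.w w hw
  exact h1.dis_L1 hi e h'

/-- **row I, inner words of the windows, L1** -/
theorem inner_L1 (h : PWb g) (hk : 12 ≤ k) (h' : TyL1 F' g') : ∀ p ∈ g.arcs, ∀ w ∈ innA p, w ∉ g'.B := by
  intro p hp w hw
  obtain ⟨q, R, B, S, i, x, h1, hi, e, rfl⟩ := h.a p hp w hw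
  exact h1.inn_L1 hk hi e h'

/-- words with one part `≥ 3` are no words of the windows -/
theorem not_t3 (h : PWb g) {w : OddHC.X k} (hw : J.t3 w.1 ≤ 1) : w ∉ g.B := by
  intro hB
  obtain ⟨q, R, B, S, i, h1, hi, e⟩ := h.w w hB
  have := h1.t3W hi
  rw [e] at hw
  omega

/-- **row I, inner words of L1, windows** -/
theorem L1_inner (h : PWb g) (h' : TyL1 F' g') : ∀ p ∈ g'.arcs, ∀ w ∈ innA p, w ∉ g.B := by
  intro p hp w hw
  exact h.not_t3 (le_of_eq (h'.inn_ct p hp w hw))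

end PWb

end Pool.OddHC
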