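import Pool.Agent.Work.MP_8f87b2_h11.OS5
import Pool.Agent.Work.MP_8f87b2_h40.HInn
import Pool.Agent.Work.MP_8f87b2_h69w.TyBw

/-!
# Windows with `q ≥ 1` (data `PT`, gadgets `PWb g`, `TyBw`) against the one-soliton gadgets (`JG`, type H)

`PWb.dis_JG`, `PWb.dis_H`, `H1.PT.inn_JG`, `TyBw.inner_H`, `PWb.H_inner`.
-/

set_option autoImplicit false
set_option linter.unusedSimpArgs false

namespace Pool.OddHC

open Finset Equiv BinaryTree Pool.Agent.Work.MP_8f87b2_co

variable {k q n : ℕ} {R B S : BinaryTree Unit} {F F' : Set (Cyc k)} {g g' : DG k}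

namespace J

open OS

theorem ht_of_t3 {w : BinaryTree Unit} (h : 1 ≤ t3 w) : 3 ≤ OddHC.ht w := by
  obtain ⟨x, hx, h3⟩ := Multiset.countP_pos.1 (show 0 < (OddHC.cont w).countP (3 ≤ ·) from h)
  rw [OddHC.ht_eq]
  exact h3.trans (Multiset.le_sup hx)

/-- **the words of a one-soliton gadget with two parts `≥ 3`** -/
theorem JG.two (hn : 1 ≤ n) {B0 : Finset (X k)} {P U M : Set (ZMod (2 * n + 1) → ℕ)}
    (h : JG n B0 P U M) {w : X k} (hw : w ∈ B0) (h2 : 2 ≤ t3 w.1) :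
    t3 w.1 ≤ 2 ∧ t4 w.1 ≤ 1 ∧ ∃ (t : ℕ) (S : BinaryTree Unit) (j : ℕ), 1 ≤ t ∧ S ≠ .nil ∧ J.o1 S = 0 ∧
      3 ≤ OddHC.ht S ∧ j ∈ [13, 16, 18, 19] ∧ Tsq.mir w.1 = H1.W .nil .nil (b2 t) S j := by
  rcases h w hw with ⟨Φ, _, h1⟩ | ⟨G, _, _, h1⟩ | ⟨Ψ, _, t, D, u, i, ht, hD, h1, hi, hi', h3⟩
  · have := h1.t3 hn
    omega
  · rw [h1, t3_RF hn] at h2
    omega
  · have e1 : t3 (RR t D u) = 1 := by rw [← h1, t3_mir, t3_RF hn]
    have e0 : J.o1 (RR t D u) = 0 := by rw [← h1, o1_mir, o1_RF hn]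
    have e2 : RR t D u = app (b2 t) (RR 0 D u) := by rw [app_b2]; rfl
    have e3 := e1
    have e4 := e0
    rw [e2, t3_app, t3_b2, zero_add] at e3
    rw [e2, o1_app] at e4
    have e5 : Tsq.mir w.1 = H1.W .nil .nil (b2 t) (RR 0 D u) i := by
      rw [h3, Tsq.mir_mir]; rfl
    have e6 : H1.W (RR t D u) .nil (b2 t) (RR 0 D u) i = H1.W .nil .nil (b2 t) (RR 0 D u) i := by
      interval_cases i <;> rfl
    have h4 := osw_W' (R := RR t D u) (B := b2 t) (S := RR 0 D u) e1 (t3_b2 t) e3 (ht_of_t3 (by omega))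
      (ht_of_t3 (by omega)) (fun _ => by omega) hi'
    rw [e6, ← e5, t3_mir, t4_mir] at h4
    rcases h4 with h4 | ⟨h4, h5, _, _, h6, h7, _, h8, h9⟩
    · omega
    · exact ⟨h4, h5, t, _, i, ht, h6, h7, h8, h9, e5⟩

/-- the words of a one-soliton gadget -/
theorem JG.osw (hn : 1 ≤ n) {B0 : Finset (X k)} {P U M : Set (ZMod (2 * n + 1) → ℕ)}
    (h : JG n B0 P U M) {w : X k} (hw : w ∈ B0) : OSW w.1 := by
  by_cases h2 : 2 ≤ t3 w.1
  · obtain ⟨h3, h4, t, S, j, ht, h5, h6, h7, h8, h9⟩ := h.two hn hw h2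
    right
    refine ⟨h3, h4, Or.inr ⟨b2 t, S, ?_, ?_, h5, h6, ht_b2 t, h7, j, h8, h9⟩⟩
    · obtain ⟨t, rfl⟩ : ∃ m, t = m + 1 := ⟨t - 1, by omega⟩
      change (.nil △ .nil) △ lv2 t .nil ≠ .nil
      simp
    · obtain ⟨t, rfl⟩ : ∃ m, t = m + 1 := ⟨t - 1, by omega⟩
      change (.nil △ .nil) △ lv2 t .nil ≠ .nil △ .nil
      simp
  · left
    omega

end J

namespace H1

open J OS

/-- **no word of a window with `q ≥ 1` is a word of a one-soliton gadget** -/
theorem PT.dis_JG (h : PT q R B S) {i : ℕ} (hi : i < 20) {x : X k} (hx : x.1 = W R (ch (q + 1)) B S i)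
    (hn : 1 ≤ n) {B0 : Finset (X k)} {P U M : Set (ZMod (2 * n + 1) → ℕ)} (hJ : JG n B0 P U M) : x ∉ B0 := by
  intro hw
  have h1 := hJ.osw hn hw
  rw [hx] at h1
  exact h.not_OSW hi h1

theorem b2_succ (t : ℕ) : b2 (t + 1) = app (b2 t) ((.nil △ .nil) △ .nil) := by
  induction t with
  | zero => rfl
  | succ t ih =>
    change (.nil △ .nil) △ b2 (t + 1) = (.nil △ .nil) △ app (b2 t) ((.nil △ .nil) △ .nil)
    rw [ih]

/-- the mirrored word `(S(B))`, `B = (())^t`, starts with `1^4 0^3 1` or `1^4 0^2 1` -/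
theorem sta19 {w S : BinaryTree Unit} {t : ℕ} (ht : 1 ≤ t) (hS : S ≠ .nil)
    (e : Tsq.mir w = app S (b2 t △ .nil) △ .nil) :
    ∃ v, wd w = [true, true, true, true, false, false] ++ (true :: v) ∨
      wd w = [true, true, true, true, false, false, false] ++ (true :: v) := by
  have e1 : w = Tsq.mir (app S (b2 t △ .nil) △ .nil) := by rw [← e, Tsq.mir_mir]
  have m0 : Tsq.mir (BinaryTree.nil : BinaryTree Unit) = .nil := rfl
  obtain ⟨t, rfl⟩ : ∃ m, t = m + 1 := ⟨t - 1, by omega⟩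
  rw [e1, b2_succ]
  simp only [Tsq.mir_node, Tsq.mir_app, m0, app]
  have e0 : wd (.nil : BinaryTree Unit) = [] := rfl
  have hS' := OS.mir_ne hS
  cases t with
  | zero =>
    have hb : Tsq.mir (b2 0) = .nil := rfl
    cases hm : Tsq.mir S with
    | nil => exact absurd hm hS'
    | node _ A C =>
      refine ⟨wd A ++ false :: (wd C ++ [false]), Or.inr ?_⟩
      rw [hb]
      simp only [app, wd_node, wd_app, e0, List.nil_append, List.append_nil, List.cons_append,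
        List.append_assoc]
      change true :: true :: true :: true :: false :: false :: false :: (wd (A △ C) ++ [false]) = _
      rw [wd_node]
      simp only [List.cons_append, List.append_assoc]
  | succ t =>
    refine ⟨[true, false, false] ++ (wd (Tsq.mir (b2 t)) ++ false :: (wd (Tsq.mir S) ++ [false])), Or.inl ?_⟩
    rw [b2_succ]
    simp only [Tsq.mir_node, Tsq.mir_app, m0, app]
    simp only [app, wd_node, wd_app, e0, List.nil_append, List.append_nil, List.cons_append,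
      List.append_assoc]

theorem no_sta {b c v : List Bool}
    (h : Aft' (3 + 1) b ∨ ∃ r, b = List.replicate 3 false ++ (List.replicate 3 true ++ r))
    (e : b.map not ++ c = [true, true, true, true, false, false] ++ (true :: v) ∨
      b.map not ++ c = [true, true, true, true, false, false, false] ++ (true :: v)) : False := by
  rcases h with (⟨r, rfl⟩ | ⟨r, rfl⟩) | ⟨r, rfl⟩ <;>
    rcases e with e | e <;> simp [List.replicate_succ] at e

/-- **the inner words of a window with `q ≥ 1` are no words of a one-soliton gadget** -/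
theorem PT.inn_JG (h : PT q R B S) (hk : 12 ≤ k) {i : ℕ} (hi : i ∈ [0, 1, 3, 6, 8, 9]) {x : X k}
    (hx : x.1 = W R (ch (q + 1)) B S i)
    (hf : (OddHC.cont R).count 3 = 1 → ∃ a b, BW.FMV 3 R a b)
    (hn : 1 ≤ n) {B0 : Finset (X k)} {P U M : Set (ZMod (2 * n + 1) → ℕ)} (hJ : JG n B0 P U M) : TT x ∉ B0 := by
  intro hw
  have hi20 : i < 20 := bw_list20 hi
  have hnum : 12 ≤ (W R (ch (q + 1)) B S i).numNodes := by
    rw [← hx, mem_treesOfNumNodesEq.1 x.2]
    exact hk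
  have hct : OddHC.cont (TT x).1 = OddHC.cont (W R (ch (q + 1)) B S i) := by
    rw [H1.cont_TT, hx]
  have h3e : t3 (TT x).1 = t3 (W R (ch (q + 1)) B S i) := by unfold t3; rw [hct]
  have h4e : t4 (TT x).1 = t4 (W R (ch (q + 1)) B S i) := by unfold t4; rw [hct]
  obtain ⟨h3, h4, t, S', j, ht, hS', o, h3S, hj, e⟩ := hJ.two hn hw (by rw [h3e]; exact h.t3W hi20)
  have hin : InnP 3 (Tsq.mir (TT x).1) := (h.pd.innP hi hx).2
  simp only [List.mem_cons, List.not_mem_nil, or_false] at hj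
  rcases hj with rfl | rfl | rfl | rfl
  · have e1 : Tsq.mir (TT x).1 = app S' (app (b2 t) (.nil △ .nil) △ .nil) := e
    have := hin.stop (n := 2) (v := wd S' ++ true :: wd (b2 t)) (by
      rw [e1, wd_app, wd_node, wd_app]; simp [wd])
    omega
  · refine hin.not_last (Y := app S' (b2 t △ .nil)) ?_
    rw [e, app_assoc]
    rfl
  · exact hin.not_first e
  · have e1 : Tsq.mir (TT x).1 = app S' (b2 t △ .nil) △ .nil := e
    obtain ⟨rfl, rfl, hi', hc3, h5⟩ := h.thin_inn hi hnum (by rw [← h3e]; exact h3) (by rw [← h4e]; exact h4)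
    obtain ⟨a, b, hab⟩ := hf hc3
    rcases hi' with hi' | rfl
    · have hgR : hg 3 R := hg_of_cont (by norm_num) h.pd.R3
      obtain ⟨-, P', Z, h6, h7⟩ := f101 hab.fm hgR h5 hi' hx
      rw [e1] at h6
      refine lev19 (B := b2 t) (S := S') ?_ ?_ h6 h7
      · rw [H1.ht_eq]; exact ht_b2 t
      · apply hg_of_cont (by norm_num)
        intro y hy
        have hy1 := cont_pos _ _ hy
        have hy2 : y ≠ 1 := by
          rintro rfl
          have : 0 < (OddHC.cont S').count 1 := Multiset.count_pos.2 hy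
          unfold J.o1 at o
          omega
        omega
    · have hn0 : Tsq.ht (.nil : BinaryTree Unit) = 0 := rfl
      have f1 : FM x.1 (true :: true :: a) ((b ++ false :: wd .nil) ++ false :: wd (ch 2)) := by
        rw [hx]
        have g1 := hab.fm.node (Z := .nil) (by rw [hn0]; omega)
        exact g1.node (Z := ch 2) (by rw [Tsq.ht_node, ht_ch2]; omega)
      have h8 := f1.wdT
      obtain ⟨v, hv⟩ := sta19 ht hS' e1
      rw [h8] at hv
      simp only [List.map_append, List.append_assoc] at hv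
      exact no_sta hab.dn hv

end H1

namespace PWb

/-- **row W, one-soliton gadgets** -/
theorem dis_JG (h : PWb g) (hn : 1 ≤ n) {B0 : Finset (X k)} {P U M : Set (ZMod (2 * n + 1) → ℕ)}
    (hJ : J.JG n B0 P U M) : ∀ w ∈ g.B, w ∉ B0 := by
  intro w hw
  obtain ⟨q, R, B, S, i, h1, hi, e⟩ := h.w w hw
  exact h1.dis_JG hi e hn hJ

/-- **row W, type H** -/
theorem dis_H (h : PWb g) (h' : Hole2.TyH F' g') : ∀ w ∈ g.B, w ∉ g'.B := by
  obtain ⟨n, hn, P, U, M, hJ⟩ := h'.jg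
  exact h.dis_JG hn hJ

/-- **row I, inner words of type H, windows** -/
theorem H_inner (h : PWb g) (h' : Hole2.TyH F' g') : ∀ p ∈ g'.arcs, ∀ w ∈ innA p, w ∉ g.B := by
  intro p hp w hw
  exact h.not_t3 (le_of_eq (Hole2.TyH.innJ h' p hp w hw).c3)

end PWb

/-- **row I, inner words of the B-windows (marker at least 3), one-soliton gadgets** -/
theorem TyBw.inner_JG (h : TyBw F g) (h2 : ∀ d ∈ F, 2 ∉ contc d) (hk : 12 ≤ k) (hn : 1 ≤ n)
    {B0 : Finset (X k)} {P U M : Set (ZMod (2 * n + 1) → ℕ)} (hJ : J.JG n B0 P U M) :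
    ∀ p ∈ g.arcs, ∀ w ∈ innA p, w ∉ B0 := by
  intro p hp w hw
  obtain ⟨c, q, R, B, S, i, x, h0, h1, hi, e, rfl⟩ := h.inbd h2 p hp w hw
  refine h1.pt.inn_JG hk hi e ?_ hn hJ
  intro h3
  have h4 : 3 ∈ OddHC.cont R := Multiset.count_pos.1 (by omega)
  have h5 := h1.pd.q1
  have h6 : 3 = c := by
    rcases h0.part 3 h4 with h6 | h6 <;> omega
  obtain ⟨u, v, h7⟩ := h0.fm
  rw [← h6] at h7
  exact ⟨u, v, h7⟩

theorem TyBw.inner_H (h : TyBw F g) (h2 : ∀ d ∈ F, 2 ∉ contc d) (hk : 12 ≤ k) (h' : Hole2.TyH F' g') :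
    ∀ p ∈ g.arcs, ∀ w ∈ innA p, w ∉ g'.B := by
  obtain ⟨n, hn, P, U, M, hJ⟩ := h'.jg
  exact h.inner_JG h2 hk hn hJ

end Pool.OddHC
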