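import Pool.Agent.Work.MP_8f87b2_h11.OS5
import Pool.Agent.Work.MP_8f87b2_h59.J33W

/-!
# Windows with `q ≥ 1` (gadgets `PWb g`) against J33 (J3V of height 3)

`PWb.dis_J33`, `PWb.inner_J33`, `PWb.J33_inner` (`k ≥ 13`).
-/

set_option autoImplicit false
set_option linter.unusedSimpArgs false

namespace Pool.OddHC

open Finset Equiv BinaryTree Pool.Agent.Work.MP_8f87b2_co

variable {k q n : ℕ} {R B S R' B' S' : BinaryTree Unit} {F F' : Set (Cyc k)} {g g' : DG k}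

namespace H1

/-- the contents of the words of J33 are no contents of words of the windows -/
theorem PT.no33 (h : PT q R B S) {i : ℕ} (hi : i < 20)
    (hk : 13 ≤ (W R (ch (q + 1)) B S i).numNodes) {w0 : X k} (hd : J59.D33 F g R' B' S' w0) {j : ℕ} (hj : j < 20) :
    OddHC.cont (W R (ch (q + 1)) B S i) ≠ OddHC.cont (W R' .nil B' S' j) := by
  intro e
  obtain ⟨hR, hB, hS⟩ := hd.hts
  have k4 : OS.t4 (W R' .nil B' S' j) ≤ 1 := J59.j33_t4 hR.le hB.le hS.le hj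
  have k2 := hd.two hj
  have k5 : ∀ x ∈ OddHC.cont (W R' .nil B' S' j), x ≤ 5 := by
    intro x hx
    have h1 := Multiset.le_sup hx
    rw [← OddHC.ht_eq] at h1
    exact h1.trans (J59.ht_j33 hR.le hB.le hS.le hj)
  unfold OS.t4 at k4
  rw [← e] at k4 k2 k5
  have q1 : q = 1 := ((h.pd.c12 hi).2.2.1 (Multiset.count_pos.2 k2)).1
  have c4 : OS.t4 B + OS.t4 S = OS.t4 R := by
    unfold OS.t4; rw [← Multiset.countP_add, h.pd.dat.cont]
  have l4 : OS.t4 R ≤ 1 := by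
    have := OS.t4_W (q := q) c4 hi
    change OS.t4 (W R (ch (q + 1)) B S i) ≤ 1 at k4
    omega
  have cR : J.t3 R = OS.t4 R + (OddHC.cont R).count 3 := OS.cp_split _ h.pd.R3
  have t2 := h.two3
  have c1 := h.c3
  have h7 : (OddHC.cont R).card = 2 := by
    have : J.t3 R = (OddHC.cont R).card := Multiset.countP_eq_card.2 h.pd.R3
    omega
  rw [num_W h.pd.dat _ i hi, ch_num] at hk
  have hm : 3 ∈ OddHC.cont R := Multiset.count_pos.1 (by omega)
  obtain ⟨M, hM⟩ := Multiset.exists_cons_of_mem hm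
  rw [hM, Multiset.card_cons] at h7
  obtain ⟨m, rfl⟩ := Multiset.card_eq_one.1 (show M.card = 1 by omega)
  have h8 := cont_sum R
  rw [hM, Multiset.sum_cons, Multiset.sum_singleton] at h8
  have hm1 : 1 ≤ m := by
    have := h.pd.R3 m (by rw [hM]; simp)
    omega
  have h9 : L1.ct m R ≤ L1.ct m (W R (ch (q + 1)) B S i) := by
    refine L1.ct_W hm1 ?_ hi
    unfold L1.ct
    rw [← L1.cp_add, h.pd.dat.cont]
  have h10 : 0 < L1.ct m R := by
    unfold L1.ct L1.cp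
    exact Multiset.countP_pos.2 ⟨m, by rw [hM]; simp, le_rfl⟩
  have h11 : 0 < L1.ct m (W R (ch (q + 1)) B S i) := by omega
  unfold L1.ct L1.cp at h11
  obtain ⟨x, hx, hmx⟩ := Multiset.countP_pos.1 h11
  have := k5 x hx
  have : m ≤ x := hmx
  omega

end H1

namespace PWb

/-- **row W, J33** -/
theorem dis_J33 (h : PWb g) (hk : 13 ≤ k) (h' : TyJ33Q F' g') : ∀ w ∈ g.B, w ∉ g'.B := by
  intro w hw hw'
  obtain ⟨q, R, B, S, i, h1, hi, e⟩ := h.w w hw
  obtain ⟨R', B', S', w0, hd⟩ := h'.data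
  obtain ⟨j, hj, -, e'⟩ := hd.word hw'
  exact h1.no33 hi (by rw [← e, mem_treesOfNumNodesEq.1 w.2]; exact hk) hd hj (by rw [← e, e'])

/-- **row I, inner words of the windows, J33** -/
theorem inner_J33 (h : PWb g) (hk : 13 ≤ k) (h' : TyJ33Q F' g') :
    ∀ p ∈ g.arcs, ∀ w ∈ innA p, w ∉ g'.B := by
  intro p hp w hw hw'
  obtain ⟨q, R, B, S, i, x, h1, hi, e, rfl⟩ := h.a p hp w hw
  obtain ⟨R', B', S', w0, hd⟩ := h'.data
  obtain ⟨j, hj, -, e'⟩ := hd.word hw'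
  exact h1.no33 (bw_list20 hi) (by rw [← e, mem_treesOfNumNodesEq.1 x.2]; exact hk) hd hj (by
    rw [← e, ← H1.cont_TT, e'])

/-- **row I, inner words of J33, windows** -/
theorem J33_inner (h : PWb g) (hk : 13 ≤ k) (h' : TyJ33Q F' g') :
    ∀ p ∈ g'.arcs, ∀ w ∈ innA p, w ∉ g.B := by
  intro p hp w hw hB
  obtain ⟨q, R, B, S, i, h1, hi, e⟩ := h.w w hB
  obtain ⟨R', B', S', w0, hd⟩ := h'.data
  obtain ⟨j, hj, e'⟩ := hd.inn hp hw
  have hj' : j < 20 := by omega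
  exact h1.no33 hi (by rw [← e, mem_treesOfNumNodesEq.1 w.2]; exact hk) hd hj' (by
    rw [← e, e', H1.cont_TT, hd.1.word w0 hj'])

end PWb

end Pool.OddHC
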