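import Pool.Agent.Work.MP_8f87b2_h11.Tab
import Pool.Agent.Work.MP_8f87b2_mid.FirstMax

/-!
# `T` of a word: beads and first maximum of the reduced word

`rd t` : the reduced word. `T_red` : `T` rotates the beads. `JIP` : the property of the inner words of the gadgets without
hidden beads. `LTX.not_JIP`, `LZX.not_JIP` : the words of a gadget with one hidden bead do not have it. `L1_inner` : the
inner words of a gadget with one hidden bead are not words without hidden beads.
-/

set_option autoImplicit false

namespace Pool.OddHC

open BinaryTree Equiv Pool.Agent.Work.MP_8f87b2_co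

namespace Ft

/-- the reduced word -/
def rd (t : BinaryTree Unit) : BinaryTree Unit := (red t).1

theorem rd_nil : rd .nil = .nil := rfl

theorem rd_leaf (B : BinaryTree Unit) : rd (.nil △ B) = rd B := rfl

theorem rd_node {A : BinaryTree Unit} (hA : A ≠ .nil) (B : BinaryTree Unit) :
    rd (A △ B) = rd A △ rd B := by
  unfold rd
  rw [red_node hA]

theorem rd_app (P Q : BinaryTree Unit) : rd (app P Q) = app (rd P) (rd Q) := by
  induction P with
  | nil => rfl
  | node _ A B _ ih =>
    by_cases hA : A = .nil
    · subst hA
      exact ih
    · change rd (A △ app B Q) = app (rd (A △ B)) (rd Q)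
      rw [rd_node hA, rd_node hA, ih]
      rfl

theorem ln_eq (t : BinaryTree Unit) : ln t = 2 * (rd t).numNodes := rfl

theorem wd_rd (t : BinaryTree Unit) : (wd (rd t)).length = ln t := by rw [wd_length, ln_eq]

theorem rd_ne {t : BinaryTree Unit} (h : 0 < ln t) : rd t ≠ .nil := by
  intro e
  rw [ln_eq, e] at h
  exact absurd h (by simp)

theorem T_red {k j : ℕ} (x : X k) (u : X j) (hu : u.1 = rd x.1) :
    red (TT x).1 = ((TT u).1, (red x.1).2.rotate (Vo u).val) := by
  have hj : j = (red x.1).1.numNodes := by
    rw [← X_num u, hu]
    rfl
  have he : (red x.1).2.length = 2 * j + 1 := by rw [hj]; exact red_len _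
  have hx : x.1 = ins u.1 (red x.1).2 := by rw [hu]; exact (ins_red _).symm
  have h1 := (TF_ins u _ he x hx).1
  have h2 := red_ins (TF u).1 ((red x.1).2.rotate (Vo u).val) (by rw [List.length_rotate, X_num, he])
  rw [← h1] at h2
  exact h2

theorem map_not_not (l : List Bool) : (l.map not).map not = l := by
  rw [List.map_map]
  conv_rhs => rw [← List.map_id l]
  apply List.map_congr_left
  intro b _
  cases b <;> rfl

/-- the voltage by the first maximum -/
theorem Vo_FM {j : ℕ} {u : X j} {a b : List Bool} (h : H1.FM u.1 a b) :
    (Vo u).val = a.length + 1 := by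
  have hl : a.length + 1 + b.length = 2 * j := by
    have := congrArg List.length h.eq
    rw [wd_length, X_num, List.length_append, List.length_cons] at this
    omega
  have e1 : (cw u.1).rotate (a.length + 1) = sl (TT u).1 := by
    have e2 : cw u.1 = (false :: a.map not) ++ (false :: b.map not) := by
      unfold cw
      rw [h.eq]
      simp
    rw [e2]
    have e3 : a.length + 1 = (false :: a.map not).length := by simp
    rw [e3, List.rotate_append_length_eq]
    unfold sl
    rw [h.wdT]
    rfl
  have h8 := st_rotate (cw u.1) (cw_len u) 0 (a.length + 1)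
  rw [e1] at h8
  have h9 : io (TT u) (0 + ((a.length + 1 : ℕ) : ZMod (2 * j + 1))) = io (TF u) (0 + Vo u) := by
    rw [TF_spec]
    exact h8
  have h10 := (io_inj h9).2
  rw [zero_add, zero_add] at h10
  rw [← h10, ZMod.val_natCast_of_lt (by omega)]

/-! ### positions and rotation -/

theorem mem_psl (e : List ℕ) : ∀ i z, z ∈ psl i e ↔ i ≤ z ∧ 0 < e.getD (z - i) 0 := by
  induction e with
  | nil => intro i z; simp [psl]
  | cons n e ih =>
    intro i z
    rw [psl, List.mem_append, List.mem_replicate, ih]
    rcases lt_trichotomy z i with h | h | h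
    · constructor
      · rintro (⟨_, h1⟩ | ⟨h1, _⟩) <;> omega
      · rintro ⟨h1, _⟩; omega
    · subst h
      rw [Nat.sub_self, List.getD_cons_zero]
      constructor
      · rintro (⟨h1, _⟩ | ⟨h1, _⟩) <;> omega
      · rintro ⟨_, h1⟩
        exact Or.inl ⟨by omega, rfl⟩
    · obtain ⟨q, hq⟩ : ∃ q, z - i = q + 1 := ⟨z - i - 1, by omega⟩
      have hq' : z - (i + 1) = q := by omega
      rw [hq, hq', List.getD_cons_succ]
      constructor
      · rintro (⟨_, h1⟩ | ⟨_, h1⟩)
        · omega
        · exact ⟨by omega, h1⟩
      · rintro ⟨_, h1⟩
        exact Or.inr ⟨by omega, h1⟩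

theorem mem_psl_rot {e : List ℕ} {d z : ℕ} :
    z ∈ psl 0 (e.rotate d) ↔ z < e.length ∧ (z + d) % e.length ∈ psl 0 e := by
  have key : z < e.length → (z ∈ psl 0 (e.rotate d) ↔ (z + d) % e.length ∈ psl 0 e) := by
    intro hz
    rw [mem_psl, mem_psl, Nat.sub_zero, Nat.sub_zero,
      List.getD_eq_getElem _ _ (by rw [List.length_rotate]; exact hz), List.getElem_rotate,
      List.getD_eq_getElem _ _ (Nat.mod_lt _ (by omega))]
    constructor
    · rintro ⟨_, h⟩; exact ⟨Nat.zero_le _, h⟩
    · rintro ⟨_, h⟩; exact ⟨Nat.zero_le _, h⟩
  constructor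
  · intro h
    have hz : z < e.length := by
      have := psl_le _ 0 z h
      rw [List.length_rotate] at this
      omega
    exact ⟨hz, (key hz).1 h⟩
  · rintro ⟨hz, h⟩
    exact (key hz).2 h

variable {k : ℕ}

theorem red_X (t : BinaryTree Unit) : ∃ (j : ℕ) (u : X j), u.1 = rd t :=
  ⟨(rd t).numNodes, ⟨rd t, mem_treesOfNumNodesEq.2 rfl⟩, rfl⟩

/-- the first maximum exists -/
theorem FM_ex {t : BinaryTree Unit} (h : t ≠ .nil) : ∃ a b, H1.FM t a b := by
  obtain ⟨a0, c, h1, h2, h3, h4, h5, h6, h7⟩ := Tsq.sq_spec t h
  exact ⟨a0, c ++ false :: wd (Tsq.sq t).2, h1, h3, h4⟩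

theorem FM_len {t : BinaryTree Unit} {a b : List Bool} (h : H1.FM (rd t) a b) :
    a.length + 1 + b.length = ln t := by
  have := congrArg List.length h.eq
  rw [wd_rd, List.length_append, List.length_cons] at this
  omega

/-- **`T` and the reduced word** -/
theorem T_all (x : X k) {a b : List Bool} (h : H1.FM (rd x.1) a b) :
    wd (rd (TT x).1) = b.map not ++ false :: a.map not ∧ ln (TT x).1 = ln x.1 ∧
      (ps (TT x).1).length = (ps x.1).length ∧
      ∀ z, z ∈ ps (TT x).1 ↔ z ≤ ln x.1 ∧ (z + (a.length + 1)) % (ln x.1 + 1) ∈ ps x.1 := by
  obtain ⟨j, u, hu⟩ := red_X x.1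
  have h1 := T_red x u hu
  rw [← hu] at h
  have h2 := Vo_FM h
  rw [h2] at h1
  have hw := h.wdT
  have e1 : rd (TT x).1 = (TT u).1 := by
    unfold rd
    rw [h1]
  have e2 : (red (TT x).1).2 = (red x.1).2.rotate (a.length + 1) := by rw [h1]
  have e3 : (red x.1).2.length = ln x.1 + 1 := by rw [red_len]; rfl
  have e4 : ln (TT x).1 = ln x.1 := by
    rw [ln_eq, ln_eq, e1, X_num, ← hu, X_num]
  refine ⟨by rw [e1, hw], e4, ?_, ?_⟩
  · unfold ps
    rw [e2, psl_length, psl_length, (List.rotate_perm _ _).sum_eq]
  · intro z
    unfold ps
    rw [e2, mem_psl_rot, e3, Nat.lt_succ_iff]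

/-! ### First maxima of lists -/

theorem ht_le_of {t : BinaryTree Unit} {h : ℕ}
    (h1 : ∀ m, ((wd t).take m).count true ≤ ((wd t).take m).count false + h) : Tsq.ht t ≤ h := by
  by_cases ht : t = .nil
  · subst ht
    simp [Tsq.ht]
  · obtain ⟨a, b, h2⟩ := FM_ex ht
    have h3 := h1 (a.length + 1)
    have e : (wd t).take (a.length + 1) = a ++ [true] := by
      rw [h2.eq, List.take_append]
      simp
    rw [e, List.count_append, List.count_append] at h3
    have h4 := h2.top
    simp at h3
    omega

theorem FM_mk {t : BinaryTree Unit} {l r : List Bool} {h : ℕ} (e : wd t = l ++ true :: r)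
    (h1 : ∀ m, (l.take m).count true + 1 ≤ (l.take m).count false + h)
    (h2 : l.count true + 1 = l.count false + h)
    (h3 : ∀ m, (r.take m).count true ≤ (r.take m).count false) : H1.FM t l r := by
  have hh : Tsq.ht t = h := by
    apply le_antisymm
    · apply ht_le_of
      intro m
      rw [e, List.take_append, List.count_append, List.count_append]
      have g1 := h1 m
      rcases le_or_gt m l.length with hm | hm
      · have e : m - l.length = 0 := by omega
        rw [e]
        simp only [List.take_zero, List.count_nil]
        omega
      · obtain ⟨q, hq⟩ : ∃ q, m - l.length = q + 1 := ⟨m - l.length - 1, by omega⟩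
        rw [hq, List.take_succ_cons, List.take_of_length_le hm.le, List.count_cons, List.count_cons]
        have g2 := h3 q
        simp
        omega
    · have g := Tsq.ht_take t (l.length + 1)
      have e1 : (wd t).take (l.length + 1) = l ++ [true] := by
        rw [e, List.take_append]
        simp
      rw [e1, List.count_append, List.count_append] at g
      simp at g
      omega
  refine ⟨e, ?_, ?_⟩
  · rw [hh]; exact h1
  · rw [hh]; exact h2

theorem cnt_not_t (l : List Bool) : (l.map not).count true = l.count false := by
  induction l with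
  | nil => rfl
  | cons a l ih => cases a <;> simp [ih]

theorem cnt_not_f (l : List Bool) : (l.map not).count false = l.count true := by
  induction l with
  | nil => rfl
  | cons a l ih => cases a <;> simp [ih]

/-- prefixes of `a` and `b` of a first maximum -/
theorem FM.facts {A : BinaryTree Unit} {a b : List Bool} (h : H1.FM A a b) :
    (∀ m, (a.take m).count false ≤ (a.take m).count true) ∧
    (∀ m, (b.take m).count false ≤ (b.take m).count true + Tsq.ht A) ∧
    b.count false = b.count true + Tsq.ht A := by
  have c1 := wd_counts A
  have c2 : (wd A).count true = (wd A).count false := by rw [c1.1, c1.2]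
  have e1 := h.eq
  have e4 := h.top
  refine ⟨?_, ?_, ?_⟩
  · intro m
    have e2 := wd_take A (min m a.length)
    rw [e1, List.take_append_of_le_length (by omega)] at e2
    have e3 : a.take (min m a.length) = a.take m := by
      rcases le_total m a.length with h5 | h5
      · rw [min_eq_left h5]
      · rw [min_eq_right h5, List.take_of_length_le h5, List.take_length]
    rw [e3] at e2
    exact e2
  · intro m
    have e2 := wd_take A (a.length + 1 + m)
    have e3 : (wd A).take (a.length + 1 + m) = a ++ true :: b.take m := by
      rw [e1, List.take_append, List.take_of_length_le (by omega)]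
      have : a.length + 1 + m - a.length = m + 1 := by omega
      rw [this, List.take_succ_cons]
    rw [e3, List.count_append, List.count_append, List.count_cons, List.count_cons] at e2
    simp at e2
    omega
  · rw [e1, List.count_append, List.count_append, List.count_cons, List.count_cons] at c2
    simp at c2
    omega

/-- first maximum of `T (A)` -/
theorem FM_T {A t : BinaryTree Unit} {a b : List Bool} (h : H1.FM A a b)
    (e : wd t = b.map not ++ true :: false :: false :: a.map not) :
    H1.FM t (b.map not) (false :: false :: a.map not) := by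
  obtain ⟨f1, f2, f3⟩ := FM.facts h
  refine FM_mk (h := Tsq.ht A + 1) e ?_ ?_ ?_
  · intro m
    rw [← List.map_take, cnt_not_t, cnt_not_f]
    have := f2 m
    omega
  · rw [cnt_not_t, cnt_not_f]
    omega
  · intro m
    rcases m with _ | _ | m
    · simp
    · simp
    · rw [List.take_succ_cons, List.take_succ_cons, ← List.map_take, List.count_cons, List.count_cons,
        List.count_cons, List.count_cons, cnt_not_t, cnt_not_f]
      have := f1 m
      simp
      omega

theorem wd_mir (t : BinaryTree Unit) : wd (Tsq.mir t) = ((wd t).map not).reverse := by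
  induction t with
  | nil => rfl
  | node _ A B ihA ihB =>
    change wd (Tsq.mir (A △ B)) = ((wd (A △ B)).map not).reverse
    rw [mir_node, wd_app, wd_node, wd_node, ihA, ihB]
    simp [wd]

theorem rd_mir (t : BinaryTree Unit) : rd (Tsq.mir t) = Tsq.mir (rd t) := by
  induction t with
  | nil => rfl
  | node _ A B ihA ihB =>
    change rd (Tsq.mir (A △ B)) = Tsq.mir (rd (A △ B))
    rw [mir_node, rd_app, ihB]
    by_cases hA : A = .nil
    · subst hA
      rw [rd_leaf]
      change app (Tsq.mir (rd B)) (rd .nil) = _
      rw [rd_nil, H1.app_nil]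
    · rw [rd_node (mir_ne hA), rd_node hA, ihA, mir_node]
      rfl

theorem take_rev (l : List Bool) (m : ℕ) (c : Bool) :
    (l.reverse.take m).count c + (l.take (l.length - m)).count c = l.count c := by
  have h : l.reverse.take m = (l.drop (l.length - m)).reverse := by
    rw [List.take_reverse]
  rw [h, List.count_reverse, add_comm, ← List.count_append, List.take_append_drop]

/-- first maximum of the mirror of `T (A)` -/
theorem FM_T_mir {A t : BinaryTree Unit} {a b : List Bool} (h : H1.FM A a b)
    (e : wd t = b.map not ++ true :: false :: false :: a.map not) :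
    H1.FM (Tsq.mir t) (a.reverse ++ [true]) (false :: b.reverse) := by
  obtain ⟨f1, f2, f3⟩ := FM.facts h
  have e4 := h.top
  refine FM_mk (h := Tsq.ht A + 1) ?_ ?_ ?_ ?_
  · rw [wd_mir, e, List.map_append, List.map_cons, List.map_cons, List.map_cons, map_not_not, map_not_not]
    simp
  · intro m
    rw [List.take_append, List.count_append, List.count_append]
    have g1 := take_rev a m true
    have g2 := take_rev a m false
    have g3 := f1 (a.length - m)
    rcases le_or_gt m a.length with hm | hm
    · have e : m - a.reverse.length = 0 := by rw [List.length_reverse]; omega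
      rw [e]
      simp only [List.take_zero, List.count_nil]
      omega
    · have e : (([true] : List Bool).take (m - a.reverse.length)) = [true] := by
        rw [List.take_of_length_le]
        rw [List.length_reverse, List.length_singleton]
        omega
      rw [e]
      simp
      omega
  · rw [List.count_append, List.count_append, List.count_reverse, List.count_reverse]
    simp
    omega
  · intro m
    rcases m with _ | m
    · simp
    · rw [List.take_succ_cons, List.count_cons, List.count_cons]
      have g1 := take_rev b m true
      have g2 := take_rev b m false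
      have g3 := f2 (b.length - m)
      simp
      omega

end Ft

end Pool.OddHC
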